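import Pool.Agent.Helper294.HallM.Defs
import Pool.Agent.Helper294.HX.HCNoeth

set_option autoImplicit false

namespace Pool.Agent.Helper294.HallM

open Module Pool.Agent.Helper946.HC Pool.Agent.Helper946.S4


/-- preimage of a subspace under a semilinear group element -/
def sys_step_pre {K G A : Type} [DivisionRing K] [Group G] [AddCommGroup A] [Module K A]
    [DistribMulAction G A] (g : G) (hg : Semi K (ac g : A ≃+ A)) (V : Submodule K A) :
    Submodule K A where
  carrier := {x | g • x ∈ V}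
  add_mem' := by
    intro x y hx hy
    show g • (x + y) ∈ V
    rw [smul_add]
    exact V.add_mem hx hy
  zero_mem' := by
    show g • (0 : A) ∈ V
    rw [smul_zero]
    exact V.zero_mem
  smul_mem' := by
    intro c x hx
    obtain ⟨σ, hσ⟩ := hg
    show g • (c • x) ∈ V
    have h1 : g • (c • x) = σ c • (g • x) := hσ c x
    rw [h1]
    exact V.smul_mem _ hx

theorem sys_step_mem {K G A : Type} [DivisionRing K] [Group G] [AddCommGroup A] [Module K A]
    [DistribMulAction G A] (t : G) (M : Submodule K A) (n : ℕ) (x : A) (hx : x ∈ M) :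
    t ^ n • x ∈ (⨆ n : ℕ, (gm (t ^ n) M : Submodule K A)) :=
  (le_iSup (fun n : ℕ => (gm (t ^ n) M : Submodule K A)) n) (Submodule.subset_span ⟨x, hx, rfl⟩)

theorem sys_step_conj {G : Type} [Group G] (R : Subgroup G) (t : G)
    (hn : ∀ x, x ∈ R ↔ t * x * t⁻¹ ∈ R) (n : ℕ) (g : G) (hg : g ∈ R) :
    (t ^ n)⁻¹ * g * t ^ n ∈ R := by
  induction n with
  | zero => simpa using hg
  | succ n ih =>
    rw [hn]
    have e : t * ((t ^ (n + 1))⁻¹ * g * t ^ (n + 1)) * t⁻¹ = (t ^ n)⁻¹ * g * t ^ n := by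
      rw [pow_succ]
      group
    rw [e]
    exact ih

/-- twisted Hilbert basis theorem: adjoining one element. -/
theorem sys_step {K G A : Type} [DivisionRing K] [Group G] [AddCommGroup A] [Module K A]
    [DistribMulAction G A] (hs : ∀ g : G, Semi K (ac g : A ≃+ A)) (R P : Subgroup G) (t : G)
    (hRP : R ≤ P) (ht : t ∈ P) (hn : ∀ x, x ∈ R ↔ t * x * t⁻¹ ∈ R)
    (hc : ∀ x ∈ P, ∃ k : ℤ, t ^ (-k) * x ∈ R) (M : Submodule K A)
    (hM : ∀ g ∈ R, ∀ x ∈ M, g • x ∈ M) (hN : NoethFor (R : Set G) M) :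
    NoethFor (P : Set G) (Submodule.span K {a : A | ∃ g ∈ P, ∃ x ∈ M, a = g • x}) := by
  have hT' : ∀ g ∈ (R : Set G), t⁻¹ * g * t ∈ (R : Set G) := by
    intro g hg
    have h1 := sys_step_conj R t hn 1 g hg
    simpa using h1
  have hstep : NoethFor (insert t (R : Set G)) (⨆ n : ℕ, (gm (t ^ n) M : Submodule K A)) :=
    noeth_step hs (fun g hg => (hn g).1 hg) hT' hM hN
  have htst : ∀ x ∈ (⨆ n : ℕ, (gm (t ^ n) M : Submodule K A)),
      t • x ∈ (⨆ n : ℕ, (gm (t ^ n) M : Submodule K A)) := by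
    intro x hx
    have hle : (⨆ n : ℕ, (gm (t ^ n) M : Submodule K A)) ≤
        sys_step_pre t (hs t) (⨆ n : ℕ, (gm (t ^ n) M : Submodule K A)) := by
      refine iSup_le fun n => Submodule.span_le.mpr ?_
      rintro _ ⟨y, hy, rfl⟩
      show t • (t ^ n • y) ∈ (⨆ n : ℕ, (gm (t ^ n) M : Submodule K A))
      rw [smul_smul, ← pow_succ']
      exact sys_step_mem t M (n + 1) y hy
    exact hle hx
  have hRst : ∀ r ∈ R, ∀ x ∈ (⨆ n : ℕ, (gm (t ^ n) M : Submodule K A)),
      r • x ∈ (⨆ n : ℕ, (gm (t ^ n) M : Submodule K A)) := by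
    intro r hr x hx
    have hle : (⨆ n : ℕ, (gm (t ^ n) M : Submodule K A)) ≤
        sys_step_pre r (hs r) (⨆ n : ℕ, (gm (t ^ n) M : Submodule K A)) := by
      refine iSup_le fun n => Submodule.span_le.mpr ?_
      rintro _ ⟨y, hy, rfl⟩
      show r • (t ^ n • y) ∈ (⨆ n : ℕ, (gm (t ^ n) M : Submodule K A))
      have e : r • (t ^ n • y) = t ^ n • (((t ^ n)⁻¹ * r * t ^ n) • y) := by
        rw [smul_smul, smul_smul]
        congr 1
        group
      rw [e]
      exact sys_step_mem t M n _ (hM _ (sys_step_conj R t hn n r hr) y hy)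
    exact hle hx
  have htpow : ∀ (k : ℕ), ∀ x ∈ (⨆ n : ℕ, (gm (t ^ n) M : Submodule K A)),
      t ^ k • x ∈ (⨆ n : ℕ, (gm (t ^ n) M : Submodule K A)) := by
    intro k
    induction k with
    | zero => intro x hx; simpa using hx
    | succ k ih =>
      intro x hx
      rw [pow_succ', mul_smul]
      exact htst _ (ih x hx)
  have habs : ∀ x ∈ Submodule.span K {a : A | ∃ g ∈ P, ∃ x ∈ M, a = g • x},
      ∃ k : ℕ, t ^ k • x ∈ (⨆ n : ℕ, (gm (t ^ n) M : Submodule K A)) := by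
    intro x hx
    induction hx using Submodule.span_induction with
    | mem x hx =>
      obtain ⟨g, hg, m, hm, rfl⟩ := hx
      obtain ⟨j, hj⟩ := hc g hg
      refine ⟨j.natAbs, ?_⟩
      have hm' := hM _ hj m hm
      have h1 := sys_step_mem t M ((j.natAbs : ℤ) + j).toNat _ hm'
      have h2 : t ^ ((j.natAbs : ℤ) + j).toNat = t ^ ((j.natAbs : ℤ) + j) := by
        rw [← zpow_natCast, Int.toNat_of_nonneg (by omega)]
      rw [h2, smul_smul] at h1
      rw [smul_smul]
      have h3 : t ^ ((j.natAbs : ℤ) + j) * (t ^ (-j) * g) = t ^ j.natAbs * g := by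
        rw [← mul_assoc, ← zpow_add, add_neg_cancel_right, zpow_natCast]
      rwa [h3] at h1
    | zero => exact ⟨0, by rw [smul_zero]; exact Submodule.zero_mem _⟩
    | add x y _ _ hx hy =>
      obtain ⟨k, hk⟩ := hx
      obtain ⟨l, hl⟩ := hy
      refine ⟨k + l, ?_⟩
      rw [smul_add]
      refine Submodule.add_mem _ ?_ ?_
      · rw [add_comm, pow_add, mul_smul]
        exact htpow l _ hk
      · rw [pow_add, mul_smul]
        exact htpow k _ hl
    | smul c x _ hx =>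
      obtain ⟨k, hk⟩ := hx
      refine ⟨k, ?_⟩
      exact (sys_step_pre (t ^ k) (hs (t ^ k)) (⨆ n : ℕ, (gm (t ^ n) M : Submodule K A))).smul_mem
        c hk
  intro f hf hfs
  obtain ⟨n, hnn⟩ := hstep (fun n => f n ⊓ (⨆ n : ℕ, (gm (t ^ n) M : Submodule K A)))
    (fun i j hij => inf_le_inf_right _ (hf hij)) (by
      intro n
      refine ⟨inf_le_right, ?_⟩
      intro g hg x hx
      rcases hg with rfl | hg
      · exact ⟨(hfs n).2 _ ht x hx.1, htst x hx.2⟩
      · exact ⟨(hfs n).2 _ (hRP hg) x hx.1, hRst g hg x hx.2⟩)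
  refine ⟨n, fun m hm => le_antisymm ?_ (hf hm)⟩
  intro x hx
  obtain ⟨k, hk⟩ := habs x ((hfs m).1 hx)
  have h1 : t ^ k • x ∈ f m := (hfs m).2 _ (P.pow_mem ht k) x hx
  have h2 : t ^ k • x ∈ f m ⊓ (⨆ n : ℕ, (gm (t ^ n) M : Submodule K A)) := ⟨h1, hk⟩
  have h3 : f m ⊓ (⨆ n : ℕ, (gm (t ^ n) M : Submodule K A)) =
      f n ⊓ (⨆ n : ℕ, (gm (t ^ n) M : Submodule K A)) := hnn m hm
  rw [h3] at h2
  have h4 := (hfs n).2 _ (P.inv_mem (P.pow_mem ht k)) _ h2.1
  rwa [inv_smul_smul] at h4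

end Pool.Agent.Helper294.HallM
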