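import Pool.Agent.Helper294.HallM.Defs
import Pool.Agent.Helper294.HX.HCPoly
import Pool.Agent.Helper294.HallM.SysStep

set_option autoImplicit false

namespace Pool.Agent.Helper294.HallM

open Module Pool.Agent.Helper946.HC


/-- the span of the translates of `S` by the preimage of `R`. -/
def sys_noe_W {K G A Q : Type} [DivisionRing K] [Group G] [AddCommGroup A] [Module K A]
    [DistribMulAction G A] [Group Q] (ρ : G →* Q) (S : Finset A) (R : Subgroup Q) :
    Submodule K A :=
  Submodule.span K {a : A | ∃ g ∈ R.comap ρ, ∃ s ∈ S, a = g • s}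

theorem sys_noe_stab {K G A Q : Type} [DivisionRing K] [Group G] [AddCommGroup A] [Module K A]
    [DistribMulAction G A] [Group Q] (ρ : G →* Q) (hs : ∀ g : G, Semi K (ac g : A ≃+ A))
    (S : Finset A) (R : Subgroup Q) (g : G) (hg : g ∈ R.comap ρ) (x : A)
    (hx : x ∈ (sys_noe_W ρ S R : Submodule K A)) :
    g • x ∈ (sys_noe_W ρ S R : Submodule K A) := by
  obtain ⟨σ, hσ⟩ := hs g
  have hσ' : ∀ (k : K) (x : A), g • (k • x) = σ k • (g • x) := fun k x => hσ k x
  unfold sys_noe_W at hx ⊢
  induction hx using Submodule.span_induction with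
  | mem x hx =>
    obtain ⟨h, hh, s, hs', rfl⟩ := hx
    apply Submodule.subset_span
    exact ⟨g * h, (R.comap ρ).mul_mem hg hh, s, hs', (mul_smul g h s).symm⟩
  | zero => rw [smul_zero]; exact Submodule.zero_mem _
  | add x y _ _ hx hy => rw [smul_add]; exact Submodule.add_mem _ hx hy
  | smul k x _ hx => rw [hσ']; exact Submodule.smul_mem _ _ hx

theorem sys_noe_fin {K A : Type} [DivisionRing K] [AddCommGroup A] [Module K A]
    (N : Submodule K A) [IsNoetherian K N] (f : ℕ → Submodule K A) (hf : Monotone f)
    (hN : ∀ n, f n ≤ N) : ∃ n, ∀ m, n ≤ m → f m = f n := by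
  obtain ⟨n, hn⟩ := (monotone_stabilizes_iff_noetherian (R := K) (M := N)).mpr inferInstance
    ⟨fun n => (f n).comap N.subtype, fun a b hab => Submodule.comap_mono (hf hab)⟩
  refine ⟨n, fun m hm => le_antisymm ?_ (hf hm)⟩
  intro x hx
  have h1 := hn m hm
  have h2 : (⟨x, hN m hx⟩ : N) ∈ (f m).comap N.subtype := hx
  have h3 : (⟨x, hN m hx⟩ : N) ∈ (f n).comap N.subtype := by
    have h4 : (f n).comap N.subtype = (f m).comap N.subtype := h1
    rw [h4]; exact h2
  exact h3

theorem sys_noe {K G A Q : Type} [DivisionRing K] [Group G] [AddCommGroup A] [Module K A]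
    [DistribMulAction G A] [Group Q] {ρ : G →* Q} (hQ : PC Q) (hρ : Function.Surjective ρ)
    (hS : Sys K G A Q ρ) : NoethFor (Set.univ : Set G) (⊤ : Submodule K A) := by
  obtain ⟨S, hSfg⟩ := hS.fg
  have key : NoethFor (((⊤ : Subgroup Q).comap ρ : Subgroup G) : Set G)
      (sys_noe_W ρ S (⊤ : Subgroup Q) : Submodule K A) := by
    apply poly_ind hQ (fun R => NoethFor ((R.comap ρ : Subgroup G) : Set G)
      (sys_noe_W ρ S R : Submodule K A))
    · intro f hf hfW
      haveI : Module.Finite K (Submodule.span K (S : Set A)) :=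
        Module.Finite.span_of_finite K S.finite_toSet
      apply sys_noe_fin (Submodule.span K (S : Set A)) f hf
      intro n
      refine (hfW n).1.trans ?_
      unfold sys_noe_W
      rw [Submodule.span_le]
      rintro a ⟨g, hg, s, hs, rfl⟩
      have hg1 : ρ g = 1 := by simpa using hg
      obtain ⟨c, hc⟩ := hS.scal g hg1
      rw [hc s]
      exact Submodule.smul_mem _ _ (Submodule.subset_span hs)
    · intro R P t hRP ht hn hc hPr
      obtain ⟨t', rfl⟩ := hρ t
      have hst := sys_step hS.semi (R.comap ρ) (P.comap ρ) t' (Subgroup.comap_mono hRP) ht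
        (fun x => by
          have := hn (ρ x)
          simpa [Subgroup.mem_comap] using this)
        (fun x hx => by
          obtain ⟨k, hk⟩ := hc (ρ x) hx
          refine ⟨k, ?_⟩
          simpa [Subgroup.mem_comap] using hk)
        (sys_noe_W ρ S R) (fun g hg x hx => sys_noe_stab ρ hS.semi S R g hg x hx) hPr
      have heq : (Submodule.span K {a : A | ∃ g ∈ P.comap ρ, ∃ x ∈
          (sys_noe_W ρ S R : Submodule K A), a = g • x}) = sys_noe_W ρ S P := by
        apply le_antisymm
        · rw [Submodule.span_le]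
          rintro a ⟨g, hg, x, hx, rfl⟩
          apply sys_noe_stab ρ hS.semi S P g hg x
          have : (sys_noe_W ρ S R : Submodule K A) ≤ sys_noe_W ρ S P := by
            unfold sys_noe_W
            apply Submodule.span_mono
            rintro a ⟨g, hg, s, hs, rfl⟩
            exact ⟨g, Subgroup.comap_mono hRP hg, s, hs, rfl⟩
          exact this hx
        · conv_lhs => unfold sys_noe_W
          rw [Submodule.span_le]
          rintro a ⟨g, hg, s, hs, rfl⟩
          apply Submodule.subset_span
          refine ⟨g, hg, s, ?_, rfl⟩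
          unfold sys_noe_W
          apply Submodule.subset_span
          exact ⟨1, Subgroup.one_mem _, s, hs, (one_smul G s).symm⟩
      rw [heq] at hst
      exact hst
  have h1 : (((⊤ : Subgroup Q).comap ρ : Subgroup G) : Set G) = Set.univ := by
    rw [Subgroup.comap_top]; rfl
  have h2 : (sys_noe_W ρ S (⊤ : Subgroup Q) : Submodule K A) = ⊤ := by
    rw [← hSfg]
    unfold sys_noe_W
    congr 1
    ext a
    constructor
    · rintro ⟨g, _, s, hs, rfl⟩; exact ⟨g, s, hs, rfl⟩
    · rintro ⟨g, s, hs, rfl⟩; exact ⟨g, by simp, s, hs, rfl⟩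
  rw [h1, h2] at key
  exact key

end Pool.Agent.Helper294.HallM
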