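import Pool.Agent.Helper294.HallM.Defs

set_option autoImplicit false

namespace Pool.Agent.Helper294.HallM

open Module Pool.Agent.Helper946.HC


theorem cl_act_aux {R G A : Type} [Ring R] [Group G] [AddCommGroup A] [Module R A]
    [DistribMulAction G A]
    (hnorm : ∀ (g : G) (r : R), ∃ r' : R, ∀ a : A, g • (r • a) = r' • (g • a))
    (U : Submodule R A) (g : G) (α : ↥U ≃+ ↥U) (hc : Cpt U g α) (r : R) :
    ∃ r₁ : R, (∀ b : A, g • (r₁ • b) = r • (g • b)) ∧ ∀ y : ↥U, α.symm (r • y) = r₁ • α.symm y := by
  obtain ⟨r₁, h⟩ := hnorm g⁻¹ r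
  have h1 : ∀ b : A, g • (r₁ • b) = r • (g • b) := by
    intro b
    have h2 := h (g • b)
    rw [inv_smul_smul] at h2
    rw [← h2, smul_inv_smul]
  refine ⟨r₁, h1, fun y => ?_⟩
  apply α.injective
  rw [α.apply_symm_apply, hc r₁ r h1, α.apply_symm_apply]

/-- the action -/
def cl_act_fun {R G A : Type} [Ring R] [Group G] [AddCommGroup A] [Module R A]
    [DistribMulAction G A]
    (hnorm : ∀ (g : G) (r : R), ∃ r' : R, ∀ a : A, g • (r • a) = r' • (g • a))
    (U : Submodule R A) (g : G) (α : ↥U ≃+ ↥U) (hc : Cpt U g α) (f : ↥U →ₗ[R] A) : ↥U →ₗ[R] A where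
  toFun x := g • f (α.symm x)
  map_add' x y := by rw [map_add, map_add, smul_add]
  map_smul' r x := by
    obtain ⟨r₁, h1, h2⟩ := cl_act_aux hnorm U g α hc r
    rw [h2, map_smul, h1]
    rfl

theorem cl_act {R G G' A : Type} [Ring R] [Group G] [Group G'] [AddCommGroup A] [Module R A]
    [DistribMulAction G A]
    (hnorm : ∀ (g : G) (r : R), ∃ r' : R, ∀ a : A, g • (r • a) = r' • (g • a))
    (U : Submodule R A) (p : G' →* G) (q : G' → (↥U ≃+ ↥U))
    (hq : ∀ γ δ x, q (γ * δ) x = q γ (q δ x)) (hc : ∀ γ, Cpt U (p γ) (q γ)) :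
    ∃ (_ : DistribMulAction G' (↥U →ₗ[R] A)),
      ∀ (γ : G') (f : ↥U →ₗ[R] A) (x : ↥U), (γ • f) x = p γ • f ((q γ).symm x) := by
  have q1 : ∀ x, q 1 x = x := by
    intro x
    have h := hq 1 1 x
    rw [one_mul] at h
    exact ((q 1).injective h).symm
  have q1s : ∀ x, (q 1).symm x = x := by
    intro x
    rw [AddEquiv.symm_apply_eq]
    exact (q1 x).symm
  have qs : ∀ γ δ x, (q (γ * δ)).symm x = (q δ).symm ((q γ).symm x) := by
    intro γ δ x
    rw [AddEquiv.symm_apply_eq, hq, AddEquiv.apply_symm_apply, AddEquiv.apply_symm_apply]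
  refine ⟨{ smul := fun γ f => cl_act_fun hnorm U (p γ) (q γ) (hc γ) f
            one_smul := by
              intro f
              ext x
              change p 1 • f ((q 1).symm x) = f x
              rw [map_one, one_smul, q1s]
            mul_smul := by
              intro γ δ f
              ext x
              change p (γ * δ) • f ((q (γ * δ)).symm x) = p γ • (p δ • f ((q δ).symm ((q γ).symm x)))
              rw [map_mul, mul_smul, qs]
            smul_zero := by
              intro γ
              ext x
              change p γ • (0 : A) = 0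
              rw [smul_zero]
            smul_add := by
              intro γ f g
              ext x
              change p γ • (f ((q γ).symm x) + g ((q γ).symm x)) =
                p γ • f ((q γ).symm x) + p γ • g ((q γ).symm x)
              rw [smul_add] }, ?_⟩
  · intro γ f x
    rfl

end Pool.Agent.Helper294.HallM
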