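import Pool.Agent.Helper294.HallM.Defs

set_option autoImplicit false

namespace Pool.Agent.Helper294.HallM

open Module Pool.Agent.Helper946.HC


theorem cl_mem {R A K₂ : Type} [Ring R] [AddCommGroup A] [Module R A] (U : Submodule R A)
    (hU : IsSimpleModule R ↥U) [DivisionRing K₂] [Module K₂ (↥U →ₗ[R] A)]
    (e : K₂ ≃+* (Module.End R ↥U)ᵐᵒᵖ)
    (he : ∀ (k : K₂) (f : ↥U →ₗ[R] A) (x : ↥U), (k • f) x = f ((e k).unop x))
    (T₁ : Submodule K₂ (↥U →ₗ[R] A)) (f : ↥U →ₗ[R] A)
    (hf : ∀ x, f x ∈ ⨆ h ∈ T₁, LinearMap.range h) : f ∈ T₁ := by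
  classical
  have hs : ∀ W : Submodule R ↥U, W = ⊥ ∨ W = ⊤ := fun W => eq_bot_or_eq_top W
  have key : ∀ (s : Finset T₁) (f : ↥U →ₗ[R] A),
      (∀ x, f x ∈ ⨆ i ∈ s, LinearMap.range i.1) → f ∈ T₁ := by
    intro s
    induction s using Finset.induction_on with
    | empty =>
      intro f hf
      have h0 : f = 0 := by
        apply LinearMap.ext
        intro x
        simpa using hf x
      rw [h0]; exact T₁.zero_mem
    | insert a s ha ih =>
      intro f hf
      simp only [Finset.iSup_insert] at hf
      set N := ⨆ i ∈ s, LinearMap.range i.1 with hN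
      rcases hs (N.comap a.1) with h | h
      · have hu : ∀ u, a.1 u ∈ N → u = 0 := by
          intro u hu
          have h1 : u ∈ N.comap a.1 := hu
          rw [h] at h1
          exact (Submodule.mem_bot R).1 h1
        have hex : ∀ x, ∃ u, f x - a.1 u ∈ N := by
          intro x
          obtain ⟨y, hy, z, hz, hyz⟩ := Submodule.mem_sup.1 (hf x)
          obtain ⟨u, rfl⟩ := hy
          exact ⟨u, by rw [← hyz, add_sub_cancel_left]; exact hz⟩
        choose δ hδ using hex
        let D : ↥U →ₗ[R] ↥U :=
          { toFun := δ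
            map_add' := by
              intro x y
              have h1 := N.sub_mem (N.add_mem (hδ x) (hδ y)) (hδ (x + y))
              have h2 : f x - a.1 (δ x) + (f y - a.1 (δ y)) - (f (x + y) - a.1 (δ (x + y))) =
                  a.1 (δ (x + y) - (δ x + δ y)) := by
                simp only [map_add, map_sub]; abel
              rw [h2] at h1
              exact sub_eq_zero.1 (hu _ h1)
            map_smul' := by
              intro r x
              have h1 := N.sub_mem (N.smul_mem r (hδ x)) (hδ (r • x))
              have h2 : r • (f x - a.1 (δ x)) - (f (r • x) - a.1 (δ (r • x))) =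
                  a.1 (δ (r • x) - r • δ x) := by
                simp only [map_smul, map_sub, smul_sub]; abel
              rw [h2] at h1
              exact sub_eq_zero.1 (hu _ h1) }
        have hk : (e.symm (MulOpposite.op D)) • a.1 = a.1 ∘ₗ D := by
          apply LinearMap.ext
          intro x
          rw [he, RingEquiv.apply_symm_apply]
          rfl
        have h1 : f - a.1 ∘ₗ D ∈ T₁ := ih _ (fun x => hδ x)
        have h2 : a.1 ∘ₗ D ∈ T₁ := by rw [← hk]; exact T₁.smul_mem _ a.2
        have h3 := T₁.add_mem h1 h2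
        rwa [sub_add_cancel] at h3
      · apply ih
        intro x
        have h1 : LinearMap.range a.1 ≤ N := by
          rintro _ ⟨u, rfl⟩
          have h2 : u ∈ N.comap a.1 := by rw [h]; trivial
          exact h2
        have h3 := hf x
        rw [sup_eq_right.2 h1] at h3
        exact h3
  have hnt : Nontrivial ↥U := IsSimpleModule.nontrivial R ↥U
  obtain ⟨u, hu0⟩ := exists_ne (0 : ↥U)
  have h1 := hf u
  rw [iSup_subtype'] at h1
  obtain ⟨s, hs'⟩ := (Submodule.mem_iSup_iff_exists_finset).1 h1
  refine key s f fun x => ?_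
  rcases hs ((⨆ i ∈ s, LinearMap.range i.1).comap f) with h | h
  · have h2 : u ∈ (⨆ i ∈ s, LinearMap.range i.1).comap f := hs'
    rw [h] at h2
    exact absurd ((Submodule.mem_bot R).1 h2) hu0
  · have h2 : x ∈ (⨆ i ∈ s, LinearMap.range i.1).comap f := by rw [h]; trivial
    exact h2

end Pool.Agent.Helper294.HallM
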