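import Pool.Agent.Helper294.HallM.Defs
import Pool.Agent.Helper294.HallM.ClMem

set_option autoImplicit false

namespace Pool.Agent.Helper294.HallM

open Module Pool.Agent.Helper946.HC


theorem cl_dim_inj {R A K₂ : Type} [Ring R] [AddCommGroup A] [Module R A] (U : Submodule R A)
    (hU : IsSimpleModule R ↥U) [DivisionRing K₂] [Module K₂ (↥U →ₗ[R] A)]
    (e : K₂ ≃+* (Module.End R ↥U)ᵐᵒᵖ)
    (he : ∀ (k : K₂) (f : ↥U →ₗ[R] A) (x : ↥U), (k • f) x = f ((e k).unop x))
    {n : ℕ} (h : Fin n → (↥U →ₗ[R] A)) (hl : LinearIndependent K₂ h) (u : Fin n → ↥U)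
    (h0 : ∑ i, h i (u i) = 0) (j : Fin n) : u j = 0 := by
  classical
  by_contra hj
  set T' : Submodule K₂ (↥U →ₗ[R] A) := Submodule.span K₂ (h '' {i | i ≠ j}) with hT'
  set S : Submodule R A := ⨆ g ∈ T', LinearMap.range g with hS
  have hle : ∀ g ∈ T', LinearMap.range g ≤ S := fun g hg => le_iSup₂_of_le g hg le_rfl
  have h1 : h j (u j) ∈ S := by
    have h2 : h j (u j) = - ∑ i ∈ Finset.univ.erase j, h i (u i) := by
      rw [eq_neg_iff_add_eq_zero, Finset.add_sum_erase _ (fun i => h i (u i)) (Finset.mem_univ j)]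
      exact h0
    rw [h2]
    refine S.neg_mem (S.sum_mem fun i hi => ?_)
    refine hle (h i) (Submodule.subset_span ⟨i, Finset.ne_of_mem_erase hi, rfl⟩) ⟨u i, rfl⟩
  have h3 : S.comap (h j) = ⊤ := by
    rcases eq_bot_or_eq_top (S.comap (h j)) with hb | ht
    · exfalso
      apply hj
      have : u j ∈ S.comap (h j) := h1
      rw [hb] at this
      exact (Submodule.mem_bot R).1 this
    · exact ht
  have h4 : h j ∈ T' := by
    refine cl_mem U hU e he T' (h j) fun x => ?_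
    have : x ∈ S.comap (h j) := by rw [h3]; trivial
    exact this
  exact hl.notMem_span_image (s := {i | i ≠ j}) (x := j) (by simp) h4

theorem cl_dim {K R A K₂ : Type} [DivisionRing K] [Ring R] [AddCommGroup A] [Module K A]
    [Module R A] (κ : K →+* R) (hκ : ∀ (k : K) (a : A), k • a = κ k • a) (U : Submodule R A)
    (hU : IsSimpleModule R ↥U) (U₀ : Submodule K A) (hU₀ : ∀ x, x ∈ U₀ ↔ x ∈ U)
    (hfd : FiniteDimensional K U₀) [DivisionRing K₂] [Module K₂ (↥U →ₗ[R] A)]
    (e : K₂ ≃+* (Module.End R ↥U)ᵐᵒᵖ)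
    (he : ∀ (k : K₂) (f : ↥U →ₗ[R] A) (x : ↥U), (k • f) x = f ((e k).unop x))
    (T₁ : Submodule K₂ (↥U →ₗ[R] A)) (hT : FiniteDimensional K₂ T₁) (W : Submodule K A)
    (hW : ∀ x, x ∈ W ↔ x ∈ ⨆ h ∈ T₁, LinearMap.range h) :
    FiniteDimensional K W ∧ finrank K W = finrank K₂ T₁ * finrank K U₀ := by
  classical
  set n := finrank K₂ T₁ with hn
  let b := Module.finBasis K₂ T₁
  let h : Fin n → (↥U →ₗ[R] A) := fun i => (b i : ↥U →ₗ[R] A)
  have hl : LinearIndependent K₂ h :=
    b.linearIndependent.map' T₁.subtype (Submodule.ker_subtype T₁)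
  let j : U₀ → ↥U := fun u => ⟨u.1, (hU₀ u.1).1 u.2⟩
  have hjadd : ∀ u v, j (u + v) = j u + j v := fun u v => rfl
  have hjsmul : ∀ (k : K) u, j (k • u) = κ k • j u := fun k u => by
    apply Subtype.ext
    change ((k • u : U₀) : A) = κ k • (u : A)
    rw [← hκ]
    rfl
  have hmem : ∀ u : Fin n → U₀, ∑ i, h i (j (u i)) ∈ W := fun u => by
    rw [hW]
    refine Submodule.sum_mem _ fun i _ => ?_
    exact (le_iSup₂_of_le (f := fun (g : ↥U →ₗ[R] A) (_ : g ∈ T₁) => LinearMap.range g)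
      (h i) (b i).2 le_rfl) ⟨j (u i), rfl⟩
  let Ψ : (Fin n → U₀) →ₗ[K] W :=
    { toFun := fun u => ⟨∑ i, h i (j (u i)), hmem u⟩
      map_add' := fun u v => by
        apply Subtype.ext
        change ∑ i, h i (j (u i + v i)) = ∑ i, h i (j (u i)) + ∑ i, h i (j (v i))
        rw [← Finset.sum_add_distrib]
        exact Finset.sum_congr rfl fun i _ => by rw [hjadd, map_add]
      map_smul' := fun k u => by
        apply Subtype.ext
        change ∑ i, h i (j (k • u i)) = k • ∑ i, h i (j (u i))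
        rw [hκ, Finset.smul_sum]
        exact Finset.sum_congr rfl fun i _ => by rw [hjsmul, map_smul] }
  have hinj : Function.Injective Ψ := by
    rw [← LinearMap.ker_eq_bot, LinearMap.ker_eq_bot']
    intro u hu
    have h0 : ∑ i, h i (j (u i)) = 0 := congrArg Subtype.val hu
    funext i
    have := cl_dim_inj U hU e he h hl (fun i => j (u i)) h0 i
    apply Subtype.ext
    change ((j (u i) : ↥U) : A) = 0
    rw [this]
    rfl
  have hsurj : Function.Surjective Ψ := by
    intro w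
    let ΦR : (Fin n → ↥U) →ₗ[R] A := ∑ i, (h i).comp (LinearMap.proj i)
    have hΦ : ∀ x, ΦR x = ∑ i, h i (x i) := fun x => by
      simp [ΦR, LinearMap.sum_apply]
    have hle : (⨆ g ∈ T₁, LinearMap.range g) ≤ LinearMap.range ΦR := by
      refine iSup₂_le fun g hg => ?_
      rintro _ ⟨x, rfl⟩
      refine ⟨fun i => (e (b.repr ⟨g, hg⟩ i)).unop x, ?_⟩
      rw [hΦ]
      have hg' : g = ∑ i, (b.repr ⟨g, hg⟩ i) • h i := by
        have := congrArg Subtype.val (b.sum_repr ⟨g, hg⟩)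
        rw [← T₁.subtype_apply, map_sum] at this
        exact this.symm
      conv_rhs => rw [hg']
      rw [LinearMap.sum_apply]
      exact Finset.sum_congr rfl fun i _ => (he _ _ _).symm
    obtain ⟨x, hx⟩ := hle ((hW w.1).1 w.2)
    refine ⟨fun i => ⟨(x i : A), (hU₀ _).2 (x i).2⟩, ?_⟩
    apply Subtype.ext
    change ∑ i, h i (x i) = w.1
    rw [← hx, hΦ]
  let E := LinearEquiv.ofBijective Ψ ⟨hinj, hsurj⟩
  refine ⟨Module.Finite.equiv E, ?_⟩
  rw [← E.finrank_eq, Module.finrank_pi_fintype]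
  simp

end Pool.Agent.Helper294.HallM
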