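import Pool.Agent.Helper294.HallM.Defs
import Pool.Agent.Helper294.HallM.ClMem

set_option autoImplicit false

namespace Pool.Agent.Helper294.HallM

open Module Pool.Agent.Helper946.HC


theorem cl_fd_indep {K R A K₂ : Type} [DivisionRing K] [Ring R] [AddCommGroup A] [Module K A]
    [Module R A] (κ : K →+* R) (hκ : ∀ (k : K) (a : A), k • a = κ k • a) (U : Submodule R A)
    (hU : IsSimpleModule R ↥U) [DivisionRing K₂] [Module K₂ (↥U →ₗ[R] A)]
    (e : K₂ ≃+* (Module.End R ↥U)ᵐᵒᵖ)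
    (he : ∀ (k : K₂) (f : ↥U →ₗ[R] A) (x : ↥U), (k • f) x = f ((e k).unop x))
    {ι : Type} (h : ι → (↥U →ₗ[R] A)) (hli : LinearIndependent K₂ h) (u₀ : ↥U) (hu : u₀ ≠ 0) :
    LinearIndependent K (fun i => h i u₀) := by
  classical
  rw [linearIndependent_iff']
  intro s g hsum j hj
  by_contra hgj
  set v : ↥U := κ (g j) • u₀ with hv
  have hv0 : v ≠ 0 := by
    intro h0
    have h1 : (κ (g j) • (u₀ : A)) = 0 := by
      have := congrArg (Subtype.val) h0
      simpa [hv] using this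
    rw [← hκ] at h1
    rcases smul_eq_zero.1 h1 with h2 | h2
    · exact hgj h2
    · exact hu (Subtype.ext h2)
  have hmem : h j ∈ Submodule.span K₂ (h '' ((s.erase j : Finset ι) : Set ι)) := by
    refine cl_mem U hU e he _ _ fun x => ?_
    obtain ⟨r, hr⟩ := IsSimpleModule.toSpanSingleton_surjective R hv0 x
    have hr' : r • v = x := hr
    have h3 : h j v = - ∑ i ∈ s.erase j, h i (κ (g i) • u₀) := by
      rw [eq_neg_iff_add_eq_zero]
      have h4 : h j v = g j • h j u₀ := by rw [hv, map_smul, hκ]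
      have h5 : ∀ i, h i (κ (g i) • u₀) = g i • h i u₀ := fun i => by rw [map_smul, hκ]
      rw [h4]
      simp only [h5]
      rw [Finset.add_sum_erase s (fun i => g i • h i u₀) hj]
      exact hsum
    rw [← hr', map_smul, h3, smul_neg]
    refine Submodule.neg_mem _ (Submodule.smul_mem _ _ (Submodule.sum_mem _ fun i hi => ?_))
    have h6 : h i ∈ Submodule.span K₂ (h '' ((s.erase j : Finset ι) : Set ι)) :=
      Submodule.subset_span ⟨i, Finset.mem_coe.2 hi, rfl⟩
    exact Submodule.mem_iSup_of_mem (h i)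
      (Submodule.mem_iSup_of_mem h6 (LinearMap.mem_range_self (h i) _))
  exact hli.notMem_span_image (by simp) hmem

theorem cl_fd {K R A K₂ : Type} [DivisionRing K] [Ring R] [AddCommGroup A] [Module K A]
    [Module R A] (κ : K →+* R) (hκ : ∀ (k : K) (a : A), k • a = κ k • a) (U : Submodule R A)
    (hU : IsSimpleModule R ↥U) [DivisionRing K₂] [Module K₂ (↥U →ₗ[R] A)]
    (e : K₂ ≃+* (Module.End R ↥U)ᵐᵒᵖ)
    (he : ∀ (k : K₂) (f : ↥U →ₗ[R] A) (x : ↥U), (k • f) x = f ((e k).unop x))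
    (W₁ : Submodule R A) (W : Submodule K A) (hW : ∀ x, x ∈ W ↔ x ∈ W₁)
    (hfd : FiniteDimensional K W) (T₁ : Submodule K₂ (↥U →ₗ[R] A))
    (hT₁ : ∀ f, f ∈ T₁ ↔ ∀ x, f x ∈ W₁) : FiniteDimensional K₂ T₁ := by
  have hnt : Nontrivial ↥U := IsSimpleModule.nontrivial R ↥U
  obtain ⟨u₀, hu⟩ := exists_ne (0 : ↥U)
  let b := Module.Basis.ofVectorSpace K₂ T₁
  have hli : LinearIndependent K₂ (fun i => (b i : ↥U →ₗ[R] A)) :=
    b.linearIndependent.map' T₁.subtype (Submodule.ker_subtype _)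
  have h1 := cl_fd_indep κ hκ U hU e he _ hli u₀ hu
  have hmem : ∀ i, (b i : ↥U →ₗ[R] A) u₀ ∈ W := fun i =>
    (hW _).2 ((hT₁ _).1 (b i).2 u₀)
  have h2 : LinearIndependent K (fun i => (⟨(b i : ↥U →ₗ[R] A) u₀, hmem i⟩ : W)) := by
    refine LinearIndependent.of_comp W.subtype ?_
    exact h1
  have hfin : Finite (Module.Basis.ofVectorSpaceIndex K₂ T₁) := h2.finite_of_isNoetherian
  exact Module.Finite.of_basis b

end Pool.Agent.Helper294.HallM
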