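import Pool.Agent.Helper294.HallM.Defs

set_option autoImplicit false

namespace Pool.Agent.Helper294.HallM

open Module Pool.Agent.Helper946.HC


theorem cl_field {R A : Type} [Ring R] [AddCommGroup A] [Module R A] (U : Submodule R A)
    (hU : IsSimpleModule R ↥U) :
    ∃ (K₂ : Type) (_ : DivisionRing K₂) (_ : Module K₂ (↥U →ₗ[R] A))
      (e : K₂ ≃+* (Module.End R ↥U)ᵐᵒᵖ),
      ∀ (k : K₂) (f : ↥U →ₗ[R] A) (x : ↥U), (k • f) x = f ((e k).unop x) := by
  classical
  haveI := hU
  letI i1 : DivisionRing (Module.End R ↥U) := inferInstance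
  letI i2 : DivisionRing (Module.End R ↥U)ᵐᵒᵖ := inferInstance
  let M : Module (Module.End R ↥U)ᵐᵒᵖ (↥U →ₗ[R] A) :=
    { smul := fun k f => f.comp k.unop
      one_smul := fun f => by
        ext x; rfl
      mul_smul := fun k k' f => by
        ext x; rfl
      smul_zero := fun k => by
        ext x; rfl
      smul_add := fun k f g => by
        ext x; rfl
      add_smul := fun k k' f => by
        ext x
        change f ((k + k').unop x) = f (k.unop x) + f (k'.unop x)
        rw [MulOpposite.unop_add, LinearMap.add_apply, map_add]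
      zero_smul := fun f => by
        ext x
        change f ((0 : (Module.End R ↥U)ᵐᵒᵖ).unop x) = 0
        rw [MulOpposite.unop_zero, LinearMap.zero_apply, map_zero] }
  exact ⟨(Module.End R ↥U)ᵐᵒᵖ, i2, M, RingEquiv.refl _, fun k f x => rfl⟩

end Pool.Agent.Helper294.HallM
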