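import Pool.Agent.Helper294.HallM.Defs

set_option autoImplicit false

namespace Pool.Agent.Helper294.HallM

open Module Pool.Agent.Helper946.HC


theorem cl_group_mul {R G A : Type} [Ring R] [Group G] [AddCommGroup A] [Module R A]
    [DistribMulAction G A]
    (hnorm : ∀ (g : G) (r : R), ∃ r' : R, ∀ a : A, g • (r • a) = r' • (g • a))
    (U : Submodule R A) (g h : G) (α β : ↥U ≃+ ↥U) (hg : Cpt U g α) (hh : Cpt U h β) :
    Cpt U (g * h) (β.trans α) := by
  intro r r'' hr x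
  obtain ⟨r', hr'⟩ := hnorm h r
  have h1 : ∀ b : A, g • (r' • b) = r'' • (g • b) := by
    intro b
    have e1 := hr' (h⁻¹ • b)
    rw [smul_inv_smul] at e1
    have e2 := hr (h⁻¹ • b)
    rw [mul_smul, mul_smul, smul_inv_smul] at e2
    rw [← e1, e2]
  rw [AddEquiv.trans_apply, AddEquiv.trans_apply, hh r r' hr' x, hg r' r'' h1]

theorem cl_group_inv {R G A : Type} [Ring R] [Group G] [AddCommGroup A] [Module R A]
    [DistribMulAction G A]
    (U : Submodule R A) (g : G) (α : ↥U ≃+ ↥U) (hg : Cpt U g α) :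
    Cpt U g⁻¹ α.symm := by
  intro r r' hr x
  have h1 : ∀ b : A, g • (r' • b) = r • (g • b) := by
    intro b
    have e1 := hr (g • b)
    rw [inv_smul_smul] at e1
    rw [← e1, smul_inv_smul]
  have h2 := hg r' r h1 (α.symm x)
  rw [AddEquiv.apply_symm_apply] at h2
  rw [← h2, AddEquiv.symm_apply_apply]

theorem cl_group_one {R G A : Type} [Ring R] [Group G] [AddCommGroup A] [Module R A]
    [DistribMulAction G A]
    (U : Submodule R A) : Cpt U (1 : G) (AddEquiv.refl _) := by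
  intro r r' hr x
  apply Subtype.ext
  have := hr (x : A)
  rw [one_smul, one_smul] at this
  exact this

theorem cl_group {R G A : Type} [Ring R] [Group G] [AddCommGroup A] [Module R A]
    [DistribMulAction G A]
    (hnorm : ∀ (g : G) (r : R), ∃ r' : R, ∀ a : A, g • (r • a) = r' • (g • a))
    (U : Submodule R A) :
    ∃ (G' : Type) (_ : Group G') (p : G' →* G) (q : G' → (↥U ≃+ ↥U)),
      (∀ γ δ x, q (γ * δ) x = q γ (q δ x)) ∧ (∀ γ, Cpt U (p γ) (q γ)) ∧
      ∀ (g : G) (α : ↥U ≃+ ↥U), Cpt U g α → ∃ γ, p γ = g ∧ q γ = α := by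
  let T : Type := {γ : G × (↥U ≃+ ↥U) // Cpt U γ.1 γ.2}
  letI : Mul T := ⟨fun γ δ => ⟨(γ.1.1 * δ.1.1, δ.1.2.trans γ.1.2),
    cl_group_mul hnorm U _ _ _ _ γ.2 δ.2⟩⟩
  letI : Inv T := ⟨fun γ => ⟨(γ.1.1⁻¹, γ.1.2.symm), cl_group_inv U _ _ γ.2⟩⟩
  letI : One T := ⟨⟨(1, AddEquiv.refl _), cl_group_one U⟩⟩
  letI : Group T := Group.ofLeftAxioms
    (fun a b c => Subtype.ext (Prod.ext (mul_assoc _ _ _) (AddEquiv.ext fun x => rfl)))
    (fun a => Subtype.ext (Prod.ext (one_mul _) (AddEquiv.ext fun x => rfl)))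
    (fun a => Subtype.ext (Prod.ext (inv_mul_cancel _)
      (AddEquiv.ext fun x => AddEquiv.symm_apply_apply _ _)))
  refine ⟨T, inferInstance, ⟨⟨fun γ => γ.1.1, rfl⟩, fun _ _ => rfl⟩, fun γ => γ.1.2,
    fun γ δ x => rfl, fun γ => γ.2, fun g α h => ⟨⟨(g, α), h⟩, rfl, rfl⟩⟩

end Pool.Agent.Helper294.HallM
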