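import Pool.Agent.Helper294.HallM.Defs

set_option autoImplicit false

namespace Pool.Agent.Helper294.HallM

open Module Pool.Agent.Helper946.HC


theorem cl_surj {R A : Type} [Ring R] [AddCommGroup A] [Module R A] (U : Submodule R A)
    (hU : IsSimpleModule R ↥U) (V : Submodule R A) (hV : V ≤ isotypicComponent R A ↥U) :
    V = ⨆ h ∈ {h : ↥U →ₗ[R] A | LinearMap.range h ≤ V}, LinearMap.range h := by
  haveI := hU
  apply le_antisymm
  · haveI hVs : IsSemisimpleModule R ↥V :=
      IsSemisimpleModule.of_injective (Submodule.inclusion hV) (Submodule.inclusion_injective hV)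
    have hiso : IsIsotypicOfType R ↥V ↥U :=
      (IsIsotypicOfType.isotypicComponent R A ↥U).of_injective (Submodule.inclusion hV)
        (Submodule.inclusion_injective hV)
    have htop := IsSemisimpleModule.sSup_simples_eq_top R ↥V
    have hVmap : V = Submodule.map V.subtype ⊤ := by simp
    conv_lhs => rw [hVmap, ← htop]
    rw [sSup_eq_iSup, Submodule.map_iSup]
    refine iSup_le fun m => ?_
    rw [Submodule.map_iSup]
    refine iSup_le fun hm => ?_
    haveI : IsSimpleModule R ↥m := hm
    obtain ⟨e⟩ := hiso m
    have hr : LinearMap.range (V.subtype ∘ₗ m.subtype ∘ₗ e.symm.toLinearMap) =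
        Submodule.map V.subtype m := by
      rw [LinearMap.range_comp, LinearMap.range_comp, LinearEquiv.range, Submodule.map_top,
        Submodule.range_subtype]
    have hle : LinearMap.range (V.subtype ∘ₗ m.subtype ∘ₗ e.symm.toLinearMap) ≤ V := by
      rw [hr]
      exact Submodule.map_subtype_le V m
    rw [← hr]
    exact le_iSup₂_of_le (V.subtype ∘ₗ m.subtype ∘ₗ e.symm.toLinearMap) hle le_rfl
  · exact iSup₂_le fun h hh => hh


end Pool.Agent.Helper294.HallM
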