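import Pool.Agent.Helper294.HallM.Defs
import Pool.Agent.Helper294.HallM.ClMem

set_option autoImplicit false

namespace Pool.Agent.Helper294.HallM

open Module Pool.Agent.Helper946.HC


theorem cl_sys_conj1 {R G A : Type} [Ring R] [Group G] [AddCommGroup A] [Module R A]
    [DistribMulAction G A]
    (hnorm : ∀ (g : G) (r : R), ∃ r' : R, ∀ a : A, g • (r • a) = r' • (g • a))
    (U : Submodule R A) (g : G) (α : ↥U ≃+ ↥U) (hc : Cpt U g α) (r : R) :
    ∃ r₁ : R, ∀ x : ↥U, α (r₁ • x) = r • α x := by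
  obtain ⟨r₁, h₁⟩ := hnorm g⁻¹ r
  refine ⟨r₁, hc r₁ r ?_⟩
  intro a
  have h := h₁ (g • a)
  rw [inv_smul_smul] at h
  rw [← h, smul_inv_smul]

theorem cl_sys_conj2 {R G A : Type} [Ring R] [Group G] [AddCommGroup A] [Module R A]
    [DistribMulAction G A]
    (hnorm : ∀ (g : G) (r : R), ∃ r' : R, ∀ a : A, g • (r • a) = r' • (g • a))
    (U : Submodule R A) (g : G) (α : ↥U ≃+ ↥U) (hc : Cpt U g α) (r : R) :
    ∃ r₁ : R, ∀ x : ↥U, α.symm (r₁ • x) = r • α.symm x := by
  obtain ⟨r', h'⟩ := hnorm g r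
  have h2 := hc r r' h'
  refine ⟨r', ?_⟩
  intro x
  apply α.injective
  rw [h2, α.apply_symm_apply, α.apply_symm_apply]

theorem cl_sys_symm {R U : Type} [Ring R] [AddCommGroup U] [Module R U] (α : U ≃+ U)
    (h1 : ∀ r : R, ∃ r₁ : R, ∀ x : U, α (r₁ • x) = r • α x) (r : R) :
    ∃ r₁ : R, ∀ x : U, α.symm (r • x) = r₁ • α.symm x := by
  obtain ⟨r₁, h⟩ := h1 r
  refine ⟨r₁, fun x => ?_⟩
  apply α.injective
  rw [h, α.apply_symm_apply, α.apply_symm_apply]

/-- conjugate of an endomorphism. -/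
noncomputable def cl_sys_cj {R U : Type} [Ring R] [AddCommGroup U] [Module R U] (α : U ≃+ U)
    (h1 : ∀ r : R, ∃ r₁ : R, ∀ x : U, α (r₁ • x) = r • α x) (δ : Module.End R U) :
    Module.End R U where
  toFun x := α (δ (α.symm x))
  map_add' x y := by simp
  map_smul' r x := by
    obtain ⟨r₁, h⟩ := h1 r
    have h3 : α.symm (r • x) = r₁ • α.symm x := by
      apply α.injective
      rw [h, α.apply_symm_apply, α.apply_symm_apply]
    rw [h3, map_smul, h]
    rfl

theorem cl_sys_cj_apply {R U : Type} [Ring R] [AddCommGroup U] [Module R U] (α : U ≃+ U)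
    (h1 : ∀ r : R, ∃ r₁ : R, ∀ x : U, α (r₁ • x) = r • α x) (δ : Module.End R U) (x : U) :
    cl_sys_cj α h1 δ x = α (δ (α.symm x)) := rfl

/-- conjugation as a ring equivalence. -/
noncomputable def cl_sys_E {R U : Type} [Ring R] [AddCommGroup U] [Module R U] (α : U ≃+ U)
    (h1 : ∀ r : R, ∃ r₁ : R, ∀ x : U, α (r₁ • x) = r • α x)
    (h2 : ∀ r : R, ∃ r₁ : R, ∀ x : U, α.symm (r₁ • x) = r • α.symm x) :
    Module.End R U ≃+* Module.End R U where
  toFun := cl_sys_cj α h1
  invFun := cl_sys_cj α.symm h2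
  left_inv δ := by
    ext x
    simp [cl_sys_cj_apply]
  right_inv δ := by
    ext x
    simp [cl_sys_cj_apply]
  map_mul' δ η := by
    ext x
    simp [cl_sys_cj_apply]
  map_add' δ η := by
    ext x
    simp [cl_sys_cj_apply]

theorem cl_sys_E_apply {R U : Type} [Ring R] [AddCommGroup U] [Module R U] (α : U ≃+ U)
    (h1 : ∀ r : R, ∃ r₁ : R, ∀ x : U, α (r₁ • x) = r • α x)
    (h2 : ∀ r : R, ∃ r₁ : R, ∀ x : U, α.symm (r₁ • x) = r • α.symm x)
    (δ : Module.End R U) (x : U) :
    cl_sys_E α h1 h2 δ x = α (δ (α.symm x)) := rfl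

theorem cl_sys_iso {R A : Type} [Ring R] [AddCommGroup A] [Module R A] (U : Submodule R A)
    (hU : IsSimpleModule R ↥U) (f : ↥U →ₗ[R] A) (x : ↥U) :
    f x ∈ isotypicComponent R A ↥U := by
  have _i := hU
  rcases LinearMap.injective_or_eq_zero f with hf | hf
  · have h1 : LinearMap.range f ≤ isotypicComponent R A ↥U := by
      apply le_sSup
      exact ⟨(LinearEquiv.ofInjective f hf).symm⟩
    exact h1 ⟨x, rfl⟩
  · rw [hf]
    exact Submodule.zero_mem _

theorem cl_sys_fin {R A : Type} [Ring R] [AddCommGroup A] [Module R A] (U : Submodule R A)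
    (s : A) (hs : s ∈ isotypicComponent R A ↥U) :
    ∃ H : Finset (↥U →ₗ[R] A), s ∈ ⨆ h ∈ H, LinearMap.range h := by
  have h1 : isotypicComponent R A ↥U ≤ ⨆ h : (↥U →ₗ[R] A), LinearMap.range h := by
    apply sSup_le
    rintro m ⟨e⟩
    refine le_trans ?_ (le_iSup (fun h : (↥U →ₗ[R] A) => LinearMap.range h)
      (m.subtype.comp e.symm.toLinearMap))
    intro y hy
    refine ⟨e ⟨y, hy⟩, ?_⟩
    simp
  exact Submodule.mem_iSup_iff_exists_finset.1 (h1 hs)

theorem cl_sys {K R G G' A K₂ Q' : Type} [DivisionRing K] [Ring R] [Group G] [Group G']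
    [AddCommGroup A] [Module K A] [Module R A] [DistribMulAction G A] [Group Q']
    (κ : K →+* R) (hκ : ∀ (k : K) (a : A), k • a = κ k • a)
    (hnorm : ∀ (g : G) (r : R), ∃ r' : R, ∀ a : A, g • (r • a) = r' • (g • a))
    (U : Submodule R A) (hU : IsSimpleModule R ↥U)
    (p : G' →* G) (q : G' → (↥U ≃+ ↥U))
    (hq : ∀ γ δ x, q (γ * δ) x = q γ (q δ x)) (hc : ∀ γ, Cpt U (p γ) (q γ))
    (hp : Function.Surjective p)
    [DistribMulAction G' (↥U →ₗ[R] A)]
    (hact : ∀ (γ : G') (f : ↥U →ₗ[R] A) (x : ↥U), (γ • f) x = p γ • f ((q γ).symm x))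
    [DivisionRing K₂] [Module K₂ (↥U →ₗ[R] A)] (e : K₂ ≃+* (Module.End R ↥U)ᵐᵒᵖ)
    (he : ∀ (k : K₂) (f : ↥U →ₗ[R] A) (x : ↥U), (k • f) x = f ((e k).unop x))
    (ρ' : G →* Q') (hker : ∀ g, ρ' g = 1 → ∃ r : R, ∀ a : A, g • a = r • a)
    (S : Finset A) (hSM : ∀ s ∈ S, s ∈ isotypicComponent R A ↥U)
    (hspan : ∀ x ∈ isotypicComponent R A ↥U,
      x ∈ Submodule.span K {y : A | ∃ g : G, ∃ s ∈ S, y = g • s}) :
    Sys K₂ G' (↥U →ₗ[R] A) Q' (ρ'.comp p) := by
  classical
  refine ⟨?_, ?_, ?_⟩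
  · intro γ
    have h1 := cl_sys_conj1 hnorm U (p γ) (q γ) (hc γ)
    have h2 := cl_sys_conj2 hnorm U (p γ) (q γ) (hc γ)
    refine ⟨(e.trans (RingEquiv.op (cl_sys_E (q γ) h1 h2))).trans e.symm, ?_⟩
    intro k f
    show γ • (k • f) = _ • (γ • f)
    ext x
    rw [hact, he, he, hact]
    congr 2
    simp only [RingEquiv.trans_apply, RingEquiv.apply_symm_apply]
    rw [RingEquiv.op_apply_apply, MulOpposite.unop_op, cl_sys_E_apply, AddEquiv.symm_apply_apply]
  · intro γ hγ
    obtain ⟨r, hr⟩ := hker (p γ) hγ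
    have hδ : ∀ (s : R) (x : ↥U), r • (q γ).symm (s • x) = s • (r • (q γ).symm x) := by
      intro s x
      obtain ⟨s₁, hs₁⟩ := hnorm (p γ)⁻¹ s
      have h3 : ∀ a : A, p γ • (s₁ • a) = s • (p γ • a) := by
        intro a
        have h := hs₁ (p γ • a)
        rw [inv_smul_smul] at h
        rw [← h, smul_inv_smul]
      have h4 : (q γ).symm (s • x) = s₁ • (q γ).symm x := by
        apply (q γ).injective
        rw [hc γ s₁ s h3, AddEquiv.apply_symm_apply, AddEquiv.apply_symm_apply]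
      rw [h4]
      apply Subtype.ext
      show r • (s₁ • ((q γ).symm x : A)) = s • (r • ((q γ).symm x : A))
      rw [← hr, ← hr, h3]
    let δ : Module.End R ↥U :=
      { toFun := fun x => r • (q γ).symm x
        map_add' := fun x y => by rw [map_add, smul_add]
        map_smul' := fun s x => hδ s x }
    refine ⟨e.symm (MulOpposite.op δ), ?_⟩
    intro f
    ext x
    rw [hact, he, RingEquiv.apply_symm_apply, MulOpposite.unop_op, hr]
    show r • f ((q γ).symm x) = f (r • (q γ).symm x)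
    rw [map_smul]
  · have hch : ∀ s : S, ∃ H : Finset (↥U →ₗ[R] A), (s : A) ∈ ⨆ h ∈ H, LinearMap.range h :=
      fun s => cl_sys_fin U s (hSM s s.2)
    choose H hH using hch
    refine ⟨Finset.univ.biUnion H, ?_⟩
    rw [eq_top_iff]
    intro f _
    apply cl_mem U hU e he
    intro x
    have hfx := hspan _ (cl_sys_iso U hU f x)
    set T' := Submodule.span K₂ {x : ↥U →ₗ[R] A | ∃ g : G', ∃ s ∈ Finset.univ.biUnion H, x = g • s}
      with hT'
    set X : Submodule R A := ⨆ h ∈ T', LinearMap.range h with hX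
    have key : ∀ g : G, ∀ s (hs : s ∈ S), g • s ∈ X := by
      intro g s hs
      obtain ⟨γ, rfl⟩ := hp g
      let Y : Submodule R A :=
        { carrier := {a | p γ • a ∈ X}
          add_mem' := by
            intro a b ha hb
            show p γ • (a + b) ∈ X
            rw [smul_add]
            exact X.add_mem ha hb
          zero_mem' := by
            show p γ • (0 : A) ∈ X
            rw [smul_zero]
            exact X.zero_mem
          smul_mem' := by
            intro r a ha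
            show p γ • (r • a) ∈ X
            obtain ⟨r', hr'⟩ := hnorm (p γ) r
            rw [hr']
            exact X.smul_mem _ ha }
      have hle : (⨆ h ∈ H ⟨s, hs⟩, LinearMap.range h) ≤ Y := by
        apply iSup₂_le
        rintro h hh a ⟨u, rfl⟩
        show p γ • h u ∈ X
        have h5 : p γ • h u = (γ • h) (q γ u) := by
          rw [hact, AddEquiv.symm_apply_apply]
        rw [h5]
        have h6 : γ • h ∈ T' := by
          apply Submodule.subset_span
          exact ⟨γ, h, Finset.mem_biUnion.2 ⟨⟨s, hs⟩, Finset.mem_univ _, hh⟩, rfl⟩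
        exact (le_iSup₂ (f := fun (h : ↥U →ₗ[R] A) (_ : h ∈ T') => LinearMap.range h) (γ • h) h6)
          ⟨q γ u, rfl⟩
      exact hle (hH ⟨s, hs⟩)
    refine Submodule.span_induction (p := fun y _ => y ∈ X) ?_ ?_ ?_ ?_ hfx
    · rintro y ⟨g, s, hs, rfl⟩
      exact key g s hs
    · exact X.zero_mem
    · intro a b _ _ ha hb
      exact X.add_mem ha hb
    · intro k a _ ha
      rw [hκ]
      exact X.smul_mem _ ha

end Pool.Agent.Helper294.HallM
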