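import Pool.Agent.Helper294.HallM.Defs

set_option autoImplicit false

namespace Pool.Agent.Helper294.HallM

open Module Pool.Agent.Helper946.HC


/-- the action on the quotient -/
def quot_sys_act {K G A : Type} [DivisionRing K] [Group G] [AddCommGroup A] [Module K A]
    [DistribMulAction G A] (B : Submodule K A) (hB : St (⊤ : Subgroup G) B) :
    DistribMulAction G (A ⧸ B) where
  smul g := Quotient.map' (fun x => g • x) (by
    intro a b hab
    have h1 := (Submodule.quotientRel_def B).1 hab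
    refine (Submodule.quotientRel_def B).2 ?_
    rw [← smul_sub]
    exact hB g (Subgroup.mem_top g) _ h1)
  one_smul := by
    intro x
    obtain ⟨a, rfl⟩ := Submodule.Quotient.mk_surjective B x
    exact congrArg (Submodule.Quotient.mk (p := B)) (one_smul G a)
  mul_smul := by
    intro g h x
    obtain ⟨a, rfl⟩ := Submodule.Quotient.mk_surjective B x
    exact congrArg (Submodule.Quotient.mk (p := B)) (mul_smul g h a)
  smul_zero := by
    intro g
    exact congrArg (Submodule.Quotient.mk (p := B)) (smul_zero g)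
  smul_add := by
    intro g x y
    obtain ⟨a, rfl⟩ := Submodule.Quotient.mk_surjective B x
    obtain ⟨b, rfl⟩ := Submodule.Quotient.mk_surjective B y
    exact congrArg (Submodule.Quotient.mk (p := B)) (smul_add g a b)

theorem quot_sys {K G A Q : Type} [DivisionRing K] [Group G] [AddCommGroup A] [Module K A]
    [DistribMulAction G A] [Group Q] {ρ : G →* Q} (hS : Sys K G A Q ρ)
    (B : Submodule K A) (hB : St (⊤ : Subgroup G) B) :
    ∃ (A₂ : Type) (_ : AddCommGroup A₂) (_ : Module K A₂) (_ : DistribMulAction G A₂)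
      (π : A →ₗ[K] A₂), Function.Surjective π ∧ LinearMap.ker π = B ∧
      (∀ (g : G) (a : A), π (g • a) = g • π a) ∧ Sys K G A₂ Q ρ := by
  classical
  letI : DistribMulAction G (A ⧸ B) := quot_sys_act B hB
  have hsm : ∀ (g : G) (a : A), B.mkQ (g • a) = g • B.mkQ a := fun g a => rfl
  have hsurj : Function.Surjective B.mkQ := Submodule.mkQ_surjective B
  refine ⟨A ⧸ B, inferInstance, inferInstance, quot_sys_act B hB, B.mkQ, hsurj,
    Submodule.ker_mkQ B, hsm, ?_, ?_, ?_⟩
  · intro g
    obtain ⟨σ, hσ⟩ := hS.semi g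
    refine ⟨σ, ?_⟩
    intro k x
    obtain ⟨a, rfl⟩ := hsurj x
    show g • (k • B.mkQ a) = σ k • (g • B.mkQ a)
    rw [← map_smul, ← hsm, ← hsm, ← map_smul]
    exact congrArg _ (hσ k a)
  · intro g hg
    obtain ⟨c, hc⟩ := hS.scal g hg
    refine ⟨c, ?_⟩
    intro x
    obtain ⟨a, rfl⟩ := hsurj x
    rw [← hsm, hc, map_smul]
  · obtain ⟨S, hSpan⟩ := hS.fg
    refine ⟨S.image B.mkQ, ?_⟩
    have h1 : {x : A ⧸ B | ∃ g : G, ∃ s ∈ S.image B.mkQ, x = g • s}
        = B.mkQ '' {x : A | ∃ g : G, ∃ s ∈ S, x = g • s} := by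
      ext x
      constructor
      · rintro ⟨g, s, hs, rfl⟩
        obtain ⟨t, ht, rfl⟩ := Finset.mem_image.1 hs
        exact ⟨g • t, ⟨g, t, ht, rfl⟩, hsm g t⟩
      · rintro ⟨y, ⟨g, s, hs, rfl⟩, rfl⟩
        exact ⟨g, B.mkQ s, Finset.mem_image_of_mem _ hs, hsm g s⟩
    rw [h1, ← Submodule.map_span, hSpan, Submodule.map_top, Submodule.range_mkQ]

end Pool.Agent.Helper294.HallM
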