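import Pool.Agent.Helper294.HallM.Defs

set_option autoImplicit false

namespace Pool.Agent.Helper294.HallM

open Module Pool.Agent.Helper946.HC


theorem op_form_smul {K G A Q : Type} [DivisionRing K] [Group G] [AddCommGroup A] [Module K A]
    [DistribMulAction G A] [Group Q] {ρ : G →* Q}
    (hsc : ∀ g : G, ρ g = 1 → ∃ c : K, ∀ a : A, g • a = c • a) (g h : G) (hgh : ρ g = ρ h) :
    ∃ c : K, ∀ a : A, g • a = c • (h • a) := by
  obtain ⟨c, hc⟩ := hsc (g * h⁻¹) (by rw [map_mul, map_inv, hgh, mul_inv_cancel])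
  refine ⟨c, fun a => ?_⟩
  rw [← hc (h • a), smul_smul, inv_mul_cancel_right]

theorem op_form {K G A Q : Type} [DivisionRing K] [Group G] [AddCommGroup A] [Module K A]
    [DistribMulAction G A] [Group Q] {ρ : G →* Q}
    (hs : ∀ g : G, Semi K (ac g : A ≃+ A))
    (hsc : ∀ g : G, ρ g = 1 → ∃ c : K, ∀ a : A, g • a = c • a) {r : ℕ}
    (ε : Multiplicative (Fin r → ℤ) →* Q) (y : (Fin r → ℤ) → G)
    (hy : ∀ v, ρ (y v) = ε (Multiplicative.ofAdd v))
    (s : ↥(opR K (A := A) (ε.range.comap ρ))) :
    ∃ f : (Fin r → ℤ) →₀ K, ∀ a : A, s • a = f.sum fun v k => k • (y v • a) := by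
  classical
  have hy0 : ρ (1 : G) = ρ (y 0) := by
    rw [hy, ofAdd_zero, map_one, map_one]
  obtain ⟨c0, hc0⟩ := op_form_smul hsc (1 : G) (y 0) hy0
  have hz : ∀ (a : A) (v : Fin r → ℤ), (0 : K) • (y v • a) = 0 := fun a v => zero_smul _ _
  have key : ∀ x : AddMonoid.End A, x ∈ opR K (A := A) (ε.range.comap ρ) →
      ∃ f : (Fin r → ℤ) →₀ K, ∀ a : A, x a = f.sum fun v k => k • (y v • a) := by
    intro x hx
    unfold opR at hx
    induction hx using Subring.closure_induction with
    | mem x hx =>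
      rcases hx with ⟨k, hk⟩ | ⟨n, hn, hk⟩
      · refine ⟨Finsupp.single 0 (k * c0), fun a => ?_⟩
        rw [Finsupp.sum_single_index (hz a 0), hk a, mul_smul, ← hc0 a, one_smul]
      · obtain ⟨v, hv⟩ : ρ n ∈ ε.range := hn
        have h1 : ρ n = ρ (y (Multiplicative.toAdd v)) := by
          rw [hy, ofAdd_toAdd, hv]
        obtain ⟨c, hc⟩ := op_form_smul hsc n (y (Multiplicative.toAdd v)) h1
        refine ⟨Finsupp.single (Multiplicative.toAdd v) c, fun a => ?_⟩
        rw [Finsupp.sum_single_index (hz a _), hk a, hc a]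
    | zero => exact ⟨0, fun a => by simp⟩
    | one =>
      refine ⟨Finsupp.single 0 c0, fun a => ?_⟩
      rw [Finsupp.sum_single_index (hz a 0), ← hc0 a, one_smul]
      rfl
    | add x x' hx hx' ih ih' =>
      obtain ⟨f, hf⟩ := ih
      obtain ⟨f', hf'⟩ := ih'
      refine ⟨f + f', fun a => ?_⟩
      rw [Finsupp.sum_add_index' (h := fun v k => k • (y v • a)) (fun v => hz a v)
        (fun v k k' => add_smul k k' _), ← hf a, ← hf' a]
      rfl
    | neg x hx ih =>
      obtain ⟨f, hf⟩ := ih
      refine ⟨-f, fun a => ?_⟩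
      rw [Finsupp.sum_neg_index (fun v => hz a v)]
      show -(x a) = _
      rw [hf a]
      simp only [Finsupp.sum, neg_smul, Finset.sum_neg_distrib]
    | mul x x' hx hx' ih ih' =>
      obtain ⟨f, hf⟩ := ih
      obtain ⟨f', hf'⟩ := ih'
      choose σ hσ using fun v => hs (y v)
      have hyy : ∀ v w, ρ (y v * y w) = ρ (y (v + w)) := by
        intro v w
        rw [map_mul, hy, hy, hy, ofAdd_add, map_mul]
      choose c hc using fun v w => op_form_smul hsc (y v * y w) (y (v + w)) (hyy v w)
      refine ⟨f.sum fun v k => f'.sum fun w k' => Finsupp.single (v + w) (k * σ v k' * c v w),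
        fun a => ?_⟩
      rw [Finsupp.sum_sum_index (h := fun v k => k • (y v • a)) (fun v => hz a v)
        (fun v k k' => add_smul k k' _)]
      show x (x' a) = _
      rw [hf (x' a)]
      refine Finset.sum_congr rfl fun v _ => ?_
      show f v • (y v • x' a) = (f'.sum fun w k' =>
        Finsupp.single (v + w) (f v * σ v k' * c v w)).sum fun v k => k • (y v • a)
      rw [Finsupp.sum_sum_index (h := fun v k => k • (y v • a)) (fun v => hz a v)
        (fun v k k' => add_smul k k' _), hf' a]
      simp only [Finsupp.sum]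
      rw [Finset.smul_sum, Finset.smul_sum]
      refine Finset.sum_congr rfl fun w _ => ?_
      have h1 := Finsupp.sum_single_index (a := v + w) (b := f v * σ v (f' w) * c v w)
        (h := fun v k => k • (y v • a)) (hz a (v + w))
      simp only [Finsupp.sum] at h1
      rw [h1]
      have h2 : y v • (f' w • (y w • a)) = σ v (f' w) • (y v • (y w • a)) := hσ v (f' w) (y w • a)
      rw [h2, smul_smul (y v) (y w) a, hc v w a, smul_smul, smul_smul]
  obtain ⟨f, hf⟩ := key s s.2
  exact ⟨f, fun a => hf a⟩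

end Pool.Agent.Helper294.HallM
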