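import Pool.Agent.Helper294.HallM.Defs

set_option autoImplicit false

namespace Pool.Agent.Helper294.HallM

open Module Pool.Agent.Helper946.HC


theorem op_indep {K G A Q : Type} [DivisionRing K] [Group G] [AddCommGroup A] [Module K A]
    [DistribMulAction G A] [Group Q] {ρ : G →* Q} {r : ℕ}
    (ε : Multiplicative (Fin r → ℤ) →* Q) (y : (Fin r → ℤ) → G)
    (hy : ∀ v, ρ (y v) = ε (Multiplicative.ofAdd v)) (a : A) (ha : ¬ Tors (K := K) ρ ε a)
    (f : (Fin r → ℤ) →₀ K) (hf : (f.sum fun v k => k • (y v • a)) = 0) : f = 0 := by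
  classical
  by_contra hne
  obtain ⟨v, hv⟩ := Finsupp.ne_iff.1 hne
  have hv0 : f v ≠ 0 := by simpa using hv
  have hvs : v ∈ f.support := Finsupp.mem_support_iff.2 hv0
  apply ha
  refine ⟨f.support.erase v, v, Finset.notMem_erase v _, y v, hy v, ?_⟩
  rw [Finsupp.sum, ← Finset.add_sum_erase _ _ hvs] at hf
  have h1 : f v • (y v • a) ∈ (tr ρ ε ((f.support.erase v : Finset (Fin r → ℤ)) : Set (Fin r → ℤ)) a :
      Submodule K A) := by
    rw [eq_neg_of_add_eq_zero_left hf]
    apply Submodule.neg_mem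
    apply Submodule.sum_mem
    intro w hw
    apply Submodule.smul_mem
    exact Submodule.subset_span ⟨y w, w, hw, hy w, rfl⟩
  have h2 := Submodule.smul_mem _ (f v)⁻¹ h1
  rwa [smul_smul, inv_mul_cancel₀ hv0, one_smul] at h2


end Pool.Agent.Helper294.HallM
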