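import Pool.Agent.Helper294.HallM.Defs

set_option autoImplicit false

namespace Pool.Agent.Helper294.HallM

open Module Pool.Agent.Helper946.HC


theorem op_norm_aux {K G A : Type} [DivisionRing K] [Group G] [AddCommGroup A] [Module K A]
    [DistribMulAction G A] (hs : ∀ g : G, Semi K (ac g : A ≃+ A)) (N : Subgroup G)
    (hN : N.Normal) (g : G) (x : AddMonoid.End A) (hx : x ∈ opR K (A := A) N) :
    ∃ y : AddMonoid.End A, y ∈ opR K (A := A) N ∧ ∀ a : A, g • (x a) = y (g • a) := by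
  unfold opR at hx
  induction hx using Subring.closure_induction with
  | mem x hx =>
    rcases hx with ⟨k, hk⟩ | ⟨n, hn, hk⟩
    · obtain ⟨σ, hσ⟩ := hs g
      refine ⟨(smulAddHom K A (σ k) : A →+ A), Subring.subset_closure (Or.inl ⟨σ k, fun a => rfl⟩), ?_⟩
      intro a
      rw [hk]
      exact hσ k a
    · refine ⟨(DistribMulAction.toAddMonoidHom A (g * n * g⁻¹) : A →+ A),
        Subring.subset_closure (Or.inr ⟨g * n * g⁻¹, hN.conj_mem n hn g, fun a => rfl⟩), ?_⟩
      intro a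
      rw [hk]
      show g • n • a = (g * n * g⁻¹) • g • a
      rw [smul_smul, smul_smul]
      congr 1
      group
  | zero => exact ⟨0, Subring.zero_mem _, fun a => by simp⟩
  | one => exact ⟨1, Subring.one_mem _, fun a => by simp⟩
  | add x y _ _ ihx ihy =>
    obtain ⟨x', hx', h1⟩ := ihx
    obtain ⟨y', hy', h2⟩ := ihy
    refine ⟨x' + y', Subring.add_mem _ hx' hy', fun a => ?_⟩
    show g • (x a + y a) = x' (g • a) + y' (g • a)
    rw [smul_add, h1, h2]
  | neg x _ ihx =>
    obtain ⟨x', hx', h1⟩ := ihx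
    refine ⟨-x', Subring.neg_mem _ hx', fun a => ?_⟩
    show g • (-(x a)) = -(x' (g • a))
    rw [smul_neg, h1]
  | mul x y _ _ ihx ihy =>
    obtain ⟨x', hx', h1⟩ := ihx
    obtain ⟨y', hy', h2⟩ := ihy
    refine ⟨x' * y', Subring.mul_mem _ hx' hy', fun a => ?_⟩
    show g • (x (y a)) = x' (y' (g • a))
    rw [h1, h2]


theorem op_norm {K G A : Type} [DivisionRing K] [Group G] [AddCommGroup A] [Module K A]
    [DistribMulAction G A] (hs : ∀ g : G, Semi K (ac g : A ≃+ A)) (N : Subgroup G)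
    (hN : N.Normal) (g : G) (s : ↥(opR K (A := A) N)) :
    ∃ s' : ↥(opR K (A := A) N), ∀ a : A, g • (s • a) = s' • (g • a) := by
  obtain ⟨y, hy, h⟩ := op_norm_aux hs N hN g s.1 s.2
  exact ⟨⟨y, hy⟩, fun a => h a⟩

end Pool.Agent.Helper294.HallM
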