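import Pool.Agent.Helper294.HallM.Defs
import Pool.Agent.Helper294.HallM.OpForm
import Pool.Agent.Helper294.HallM.OpIndep

set_option autoImplicit false

namespace Pool.Agent.Helper294.HallM

open Module Pool.Agent.Helper946.HC


theorem op_ore_growth (c r : ℕ) : (4 * c * r + 1 + 2 * c) ^ r < 2 * (4 * c * r + 1) ^ r := by
  have hM : (0 : ℝ) < ((4 * c * r + 1 + 2 * c : ℕ) : ℝ) := by positivity
  have hN : (0 : ℝ) < ((4 * c * r + 1 : ℕ) : ℝ) := by positivity
  set M : ℝ := ((4 * c * r + 1 + 2 * c : ℕ) : ℝ) with hMd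
  set N : ℝ := ((4 * c * r + 1 : ℕ) : ℝ) with hNd
  have hMN : M = N + 2 * c := by rw [hMd, hNd]; push_cast; ring
  have hc0 : (0 : ℝ) ≤ c := Nat.cast_nonneg c
  have hle : 2 * (c : ℝ) / M ≤ 1 := by
    rw [div_le_one hM]; linarith
  have h := one_add_mul_le_pow (a := -(2 * (c : ℝ) / M)) (by linarith) r
  have h1 : 1 + -(2 * (c : ℝ) / M) = N / M := by
    field_simp
    linarith
  rw [h1, div_pow] at h
  have h2 : (r : ℝ) * (2 * (c : ℝ) / M) < 1 / 2 := by
    have : (r : ℝ) * (2 * (c : ℝ) / M) = (2 * c * r) / M := by ring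
    rw [this, div_lt_iff₀ hM]
    have h3 : M = 4 * c * r + 1 + 2 * c := by rw [hMd]; push_cast; ring
    rw [h3]
    nlinarith
  have h3 : 1 / 2 < N ^ r / M ^ r := by
    have : (r : ℝ) * -(2 * (c : ℝ) / M) = -((r : ℝ) * (2 * (c : ℝ) / M)) := by ring
    rw [this] at h
    linarith
  rw [lt_div_iff₀ (by positivity)] at h3
  have h4 : M ^ r < 2 * N ^ r := by linarith
  rw [hMd, hNd] at h4
  exact_mod_cast h4

theorem op_ore_exists {K G A Q : Type} [DivisionRing K] [Group G] [AddCommGroup A] [Module K A]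
    [DistribMulAction G A] [Group Q] {ρ : G →* Q} {r : ℕ}
    (ε : Multiplicative (Fin r → ℤ) →* Q) (y : (Fin r → ℤ) → G)
    (hy : ∀ v, ρ (y v) = ε (Multiplicative.ofAdd v)) (g : (Fin r → ℤ) →₀ K) :
    ∃ t : ↥(opR K (A := A) (ε.range.comap ρ)), ∀ b : A, t • b = g.sum fun v k => k • (y v • b) := by
  classical
  let Sc : K → AddMonoid.End A := fun k => DistribMulAction.toAddMonoidEnd K A k
  let Yv : (Fin r → ℤ) → AddMonoid.End A := fun v => DistribMulAction.toAddMonoidEnd G A (y v)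
  have hSc : ∀ k, Sc k ∈ opR K (A := A) (ε.range.comap ρ) := fun k =>
    Subring.subset_closure (Or.inl ⟨k, fun a => rfl⟩)
  have hYv : ∀ v, Yv v ∈ opR K (A := A) (ε.range.comap ρ) := fun v =>
    Subring.subset_closure (Or.inr ⟨y v, by
      rw [Subgroup.mem_comap, hy v]
      exact ⟨_, rfl⟩, fun a => rfl⟩)
  refine ⟨⟨∑ v ∈ g.support, Sc (g v) * Yv v, Subring.sum_mem _ fun v _ =>
    Subring.mul_mem _ (hSc _) (hYv _)⟩, ?_⟩
  intro b
  show (∑ v ∈ g.support, Sc (g v) * Yv v : AddMonoid.End A) b = _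
  rw [Finsupp.sum]
  have : ∀ s : Finset (Fin r → ℤ), (∑ v ∈ s, Sc (g v) * Yv v : AddMonoid.End A) b =
      ∑ v ∈ s, g v • (y v • b) := by
    intro s
    induction s using Finset.induction_on with
    | empty => simp
    | insert a s ha ih =>
      rw [Finset.sum_insert ha, Finset.sum_insert ha, ← ih]
      rfl
  exact this _

theorem op_ore_mulv {K G A Q : Type} [DivisionRing K] [Group G] [AddCommGroup A] [Module K A]
    [DistribMulAction G A] [Group Q] {ρ : G →* Q}
    (hsc : ∀ g : G, ρ g = 1 → ∃ c : K, ∀ a : A, g • a = c • a) {r : ℕ}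
    (ε : Multiplicative (Fin r → ℤ) →* Q) (y : (Fin r → ℤ) → G)
    (hy : ∀ v, ρ (y v) = ε (Multiplicative.ofAdd v)) (u v : Fin r → ℤ) (a : A) :
    ∃ c : K, y v • (y u • a) = c • (y (v + u) • a) := by
  obtain ⟨c, hc⟩ := hsc (y v * y u * (y (v + u))⁻¹) (by
    rw [map_mul, map_mul, map_inv, hy, hy, hy, ofAdd_add, map_mul, mul_inv_cancel])
  refine ⟨c, ?_⟩
  rw [← hc, smul_smul, smul_smul]
  congr 1
  group

theorem op_ore {K G A Q : Type} [DivisionRing K] [Group G] [AddCommGroup A] [Module K A]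
    [DistribMulAction G A] [Group Q] {ρ : G →* Q} (hρ : Function.Surjective ρ)
    (hs : ∀ g : G, Semi K (ac g : A ≃+ A))
    (hsc : ∀ g : G, ρ g = 1 → ∃ c : K, ∀ a : A, g • a = c • a) {r : ℕ} (hr : 0 < r)
    (ε : Multiplicative (Fin r → ℤ) →* Q) (hinj : Function.Injective ε)
    (htf : ∀ a : A, a ≠ 0 → ¬ Tors (K := K) ρ ε a) (hA : Nontrivial A)
    (p s : ↥(opR K (A := A) (ε.range.comap ρ))) (hne : s ≠ 0) :
    ∃ p' s' : ↥(opR K (A := A) (ε.range.comap ρ)), s' ≠ 0 ∧ s' * p = p' * s := by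
  classical
  obtain ⟨a, ha⟩ := exists_ne (0 : A)
  have hyex : ∀ v : Fin r → ℤ, ∃ g : G, ρ g = ε (Multiplicative.ofAdd v) := fun v => hρ _
  choose y hy using hyex
  -- a nonzero operator does not kill a nonzero vector
  have hz : ∀ (t : ↥(opR K (A := A) (ε.range.comap ρ))) (b : A), b ≠ 0 → t • b = 0 → t = 0 := by
    intro t b hb ht
    obtain ⟨f, hf⟩ := op_form (K := K) (A := A) hs hsc ε y hy t
    have h0 := hf b
    rw [ht] at h0
    have hf0 := op_indep (K := K) (ρ := ρ) ε y hy b (htf b hb) f h0.symm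
    apply Subtype.ext
    apply AddMonoidHom.ext
    intro x
    have h1 := hf x
    rw [hf0, Finsupp.sum_zero_index] at h1
    exact h1
  by_cases hp : p = 0
  · refine ⟨0, 1, ?_, ?_⟩
    · intro h1
      have h2 : (1 : ↥(opR K (A := A) (ε.range.comap ρ))) • a = 0 := by rw [h1, zero_smul]
      rw [one_smul] at h2
      exact ha h2
    · rw [hp, mul_zero, zero_mul]
  have hpa : p • a ≠ 0 := fun h => hp (hz p a ha h)
  have hsa : s • a ≠ 0 := fun h => hne (hz s a ha h)
  obtain ⟨fp, hfp⟩ := op_form (K := K) (A := A) hs hsc ε y hy p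
  obtain ⟨fs, hfs⟩ := op_form (K := K) (A := A) hs hsc ε y hy s
  -- bound for the supports
  obtain ⟨c, hc⟩ : ∃ c : ℕ, ∀ u ∈ fp.support ∪ fs.support, ∀ i, (u i).natAbs ≤ c := by
    refine ⟨(fp.support ∪ fs.support).sup (fun u => Finset.univ.sup fun i => (u i).natAbs), ?_⟩
    intro u hu i
    have h1 : (u i).natAbs ≤ Finset.univ.sup fun i => (u i).natAbs :=
      Finset.le_sup (f := fun i => (u i).natAbs) (Finset.mem_univ i)
    exact h1.trans (Finset.le_sup (f := fun u : Fin r → ℤ =>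
      Finset.univ.sup fun i => (u i).natAbs) hu)
  set n := 4 * c * r with hn
  -- the box
  let e : (Fin r → Fin (n + 1)) ↪ (Fin r → ℤ) :=
    ⟨fun v i => ((v i : ℕ) : ℤ), by
      intro v w hvw
      funext i
      have := congrFun hvw i
      simp only at this
      apply Fin.ext
      exact_mod_cast this⟩
  let Gx : ((Fin r → Fin (n + 1)) → K) → ((Fin r → ℤ) →₀ K) := fun x =>
    Finsupp.embDomain e (Finsupp.equivFunOnFinite.symm x)
  have hG0 : ∀ x, Gx x = 0 → x = 0 := by
    intro x hx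
    have h1 : Finsupp.equivFunOnFinite.symm x = 0 := by
      rw [← Finsupp.embDomain_eq_zero (f := e)]
      exact hx
    funext v
    have h2 := DFunLike.congr_fun h1 v
    simpa using h2
  have hGs : ∀ (b : A) x, ((Gx x).sum fun v k => k • (y v • b)) = ∑ v, x v • (y (e v) • b) := by
    intro b x
    rw [Finsupp.sum_embDomain, Finsupp.sum_fintype]
    · rfl
    · intro i; exact zero_smul _ _
  let L : A → ((Fin r → Fin (n + 1)) → K) →ₗ[K] A := fun b =>
    { toFun := fun x => ∑ v, x v • (y (e v) • b)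
      map_add' := by
        intro x x'
        simp only [Pi.add_apply, add_smul, Finset.sum_add_distrib]
      map_smul' := by
        intro k x
        simp only [Pi.smul_apply, smul_eq_mul, mul_smul, Finset.smul_sum, RingHom.id_apply] }
  have hL : ∀ b x, L b x = (Gx x).sum fun v k => k • (y v • b) := by
    intro b x
    rw [hGs]
    rfl
  have hLinj : ∀ b, b ≠ 0 → ∀ x, L b x = 0 → x = 0 := by
    intro b hb x hx
    rw [hL] at hx
    exact hG0 x (op_indep (K := K) (ρ := ρ) ε y hy b (htf b hb) _ hx)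
  -- the big space
  let fam : (Fin r → Fin (n + 1 + 2 * c)) → A := fun w => y (fun i => ((w i : ℕ) : ℤ) - c) • a
  let Z : Submodule K A := Submodule.span K (Set.range fam)
  have hZ : ∀ f : (Fin r → ℤ) →₀ K, (∀ u ∈ f.support, ∀ i, (u i).natAbs ≤ c) → ∀ b,
      (b = f.sum fun v k => k • (y v • a)) → ∀ v, y (e v) • b ∈ Z := by
    intro f hf b hb v
    rw [hb, Finsupp.sum, Finset.smul_sum]
    apply Submodule.sum_mem
    intro u hu
    obtain ⟨σ, hσ⟩ := hs (y (e v))
    have h1 : y (e v) • (f u • (y u • a)) = σ (f u) • (y (e v) • (y u • a)) := hσ _ _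
    rw [h1]
    apply Submodule.smul_mem
    obtain ⟨d, hd⟩ := op_ore_mulv (K := K) hsc ε y hy u (e v) a
    rw [hd]
    apply Submodule.smul_mem
    apply Submodule.subset_span
    have hb2 := hf u hu
    refine ⟨fun i => ⟨((e v + u) i + c).toNat, ?_⟩, ?_⟩
    · have h2 := hb2 i
      have h3 : (e v + u) i = ((v i : ℕ) : ℤ) + u i := rfl
      rw [h3]
      have h4 := (v i).2
      omega
    · show y _ • a = _
      congr 2
      funext i
      have h2 := hb2 i
      have h3 : (e v + u) i = ((v i : ℕ) : ℤ) + u i := rfl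
      show ((((e v + u) i + c).toNat : ℕ) : ℤ) - c = (e v + u) i
      rw [h3]
      omega
  have hLZ : ∀ f : (Fin r → ℤ) →₀ K, (∀ u ∈ f.support, ∀ i, (u i).natAbs ≤ c) → ∀ b,
      (b = f.sum fun v k => k • (y v • a)) → ∀ x, L b x ∈ Z := by
    intro f hf b hb x
    show ∑ v, x v • (y (e v) • b) ∈ Z
    apply Submodule.sum_mem
    intro v _
    exact Submodule.smul_mem _ _ (hZ f hf b hb v)
  let Ψ : (((Fin r → Fin (n + 1)) → K) × ((Fin r → Fin (n + 1)) → K)) →ₗ[K] A :=
    (L (p • a)).coprod (-(L (s • a)))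
  have hΨ : ∀ z, Ψ z = L (p • a) z.1 - L (s • a) z.2 := by
    intro z
    simp only [Ψ, LinearMap.coprod_apply, LinearMap.neg_apply]
    abel
  have hΨZ : ∀ z, Ψ z ∈ Z := by
    intro z
    rw [hΨ]
    apply Submodule.sub_mem
    · exact hLZ fp (fun u hu => hc u (Finset.mem_union_left _ hu)) _ (hfp a) _
    · exact hLZ fs (fun u hu => hc u (Finset.mem_union_right _ hu)) _ (hfs a) _
  have hnotinj : ¬ Function.Injective Ψ := by
    intro hinjΨ
    haveI : FiniteDimensional K Z := FiniteDimensional.span_of_finite K (Set.finite_range fam)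
    have h1 := LinearMap.finrank_le_finrank_of_injective (f := Ψ.codRestrict Z hΨZ) (by
      intro z z' hzz
      apply hinjΨ
      exact congrArg Subtype.val hzz)
    have h2 : finrank K Z ≤ Fintype.card (Fin r → Fin (n + 1 + 2 * c)) :=
      finrank_range_le_card (R := K) fam
    rw [Module.finrank_prod, Module.finrank_fintype_fun_eq_card] at h1
    simp only [Fintype.card_pi, Fintype.card_fin, Finset.prod_const, Finset.card_univ] at h1 h2
    have h3 := op_ore_growth c r
    rw [← hn] at h3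
    omega
  rw [injective_iff_map_eq_zero] at hnotinj
  push Not at hnotinj
  obtain ⟨⟨g, h⟩, hgh, hgh0⟩ := hnotinj
  rw [hΨ, sub_eq_zero] at hgh
  simp only at hgh
  have hg : g ≠ 0 := by
    intro hg0
    apply hgh0
    rw [hg0, map_zero] at hgh
    have := hLinj _ hsa h hgh.symm
    rw [hg0, this]
    rfl
  obtain ⟨s', hs'⟩ := op_ore_exists (K := K) (A := A) ε y hy (Gx g)
  obtain ⟨p', hp'⟩ := op_ore_exists (K := K) (A := A) ε y hy (Gx h)
  refine ⟨p', s', ?_, ?_⟩
  · intro h0
    have h1 := hs' a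
    rw [h0, zero_smul] at h1
    have h2 := op_indep (K := K) (ρ := ρ) ε y hy a (htf a ha) _ h1.symm
    exact hg (hG0 g h2)
  · have h1 : (s' * p - p' * s) • a = 0 := by
      rw [sub_smul, mul_smul, mul_smul, hs', hp', ← hL, ← hL, hgh, sub_self]
    exact sub_eq_zero.1 (hz _ a ha h1)

end Pool.Agent.Helper294.HallM
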