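import Pool.Agent.Helper294.HallM.Defs

set_option autoImplicit false

namespace Pool.Agent.Helper294.HallM

open Module Pool.Agent.Helper946.HC


theorem op_sub_mem {K G A : Type} [DivisionRing K] [Group G] [AddCommGroup A] [Module K A]
    [DistribMulAction G A] (N : Subgroup G) (V : Submodule K A) (hV : St N V)
    (s : AddMonoid.End A) (hs : s ∈ opR K (A := A) N) : ∀ x ∈ V, s x ∈ V := by
  unfold opR at hs
  induction hs using Subring.closure_induction with
  | mem s hs =>
    intro x hx
    rcases hs with ⟨k, hk⟩ | ⟨n, hn, hk⟩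
    · rw [hk]
      exact V.smul_mem k hx
    · rw [hk]
      exact hV n hn x hx
  | zero =>
    intro x _
    exact V.zero_mem
  | one =>
    intro x hx
    exact hx
  | add s t _ _ h1 h2 =>
    intro x hx
    exact V.add_mem (h1 x hx) (h2 x hx)
  | neg s _ h1 =>
    intro x hx
    exact V.neg_mem (h1 x hx)
  | mul s t _ _ h1 h2 =>
    intro x hx
    exact h1 _ (h2 x hx)

/-- dictionary between `N`-stable subspaces and submodules over the operator ring. -/
theorem op_sub {K G A : Type} [DivisionRing K] [Group G] [AddCommGroup A] [Module K A]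
    [DistribMulAction G A] (N : Subgroup G) :
    (∀ V : Submodule K A, St N V →
      ∃ V' : Submodule ↥(opR K (A := A) N) A, ∀ x, x ∈ V' ↔ x ∈ V) ∧
    (∀ V' : Submodule ↥(opR K (A := A) N) A,
      ∃ V : Submodule K A, St N V ∧ ∀ x, x ∈ V ↔ x ∈ V') ∧
    (∃ κ : K →+* ↥(opR K (A := A) N), ∀ (k : K) (a : A), k • a = κ k • a) ∧
    (∀ n ∈ N, ∃ s : ↥(opR K (A := A) N), ∀ a : A, n • a = s • a) := by
  have hK : ∀ k : K, Module.toAddMonoidEnd K A k ∈ opR K (A := A) N := fun k =>
    Subring.subset_closure (Or.inl ⟨k, fun _ => rfl⟩)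
  have hG : ∀ n ∈ N, (DistribMulAction.toAddMonoidEnd G A n : AddMonoid.End A) ∈
      opR K (A := A) N := fun n hn =>
    Subring.subset_closure (Or.inr ⟨n, hn, fun _ => rfl⟩)
  refine ⟨?_, ?_, ?_, ?_⟩
  · intro V hV
    refine ⟨{ carrier := V
              add_mem' := fun {a b} ha hb => V.add_mem ha hb
              zero_mem' := V.zero_mem
              smul_mem' := fun s x hx => op_sub_mem N V hV s.1 s.2 x hx }, fun x => Iff.rfl⟩
  · intro V'
    refine ⟨{ carrier := V'
              add_mem' := fun {a b} ha hb => V'.add_mem ha hb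
              zero_mem' := V'.zero_mem
              smul_mem' := fun k x hx =>
                V'.smul_mem (⟨Module.toAddMonoidEnd K A k, hK k⟩ : ↥(opR K (A := A) N)) hx },
      ?_, fun x => Iff.rfl⟩
    intro g hg x hx
    exact V'.smul_mem
      (⟨DistribMulAction.toAddMonoidEnd G A g, hG g hg⟩ : ↥(opR K (A := A) N)) hx
  · exact ⟨(Module.toAddMonoidEnd K A).codRestrict (opR K (A := A) N) hK, fun k a => rfl⟩
  · intro n hn
    exact ⟨⟨DistribMulAction.toAddMonoidEnd G A n, hG n hn⟩, fun a => rfl⟩

end Pool.Agent.Helper294.HallM
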