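import Pool.Agent.Helper294.HallM.Defs

set_option autoImplicit false

namespace Pool.Agent.Helper294.HallM

open Module Pool.Agent.Helper946.HC


theorem ore_ext_cancel {R A' K' : Type} [Ring R] [DivisionRing K'] [AddCommGroup A'] [Module K' A']
    (j : R →+* K') (hj : Function.Injective j) {c : R} (hc : c ≠ 0) {x y : A'}
    (h : j c • x = j c • y) : x = y := by
  have hjc : j c ≠ 0 := fun h0 => hc (hj (by rw [h0, map_zero]))
  rw [← inv_smul_smul₀ hjc x, h, inv_smul_smul₀ hjc y]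

theorem ore_ext_ore {R K' : Type} [Ring R] [DivisionRing K'] (j : R →+* K')
    (hj : Function.Injective j) (hfr : ∀ κ : K', ∃ r s : R, s ≠ 0 ∧ j s * κ = j r)
    (s t : R) (ht : t ≠ 0) : ∃ a b : R, a ≠ 0 ∧ a * s = b * t := by
  have hjt : j t ≠ 0 := fun h0 => ht (hj (by rw [h0, map_zero]))
  obtain ⟨b, a, ha, hab⟩ := hfr (j s * (j t)⁻¹)
  refine ⟨a, b, ha, hj ?_⟩
  rw [map_mul, map_mul, ← hab, mul_assoc, mul_assoc, inv_mul_cancel₀ hjt, mul_one]

theorem ore_ext_mul_ne {R K' : Type} [Ring R] [DivisionRing K'] (j : R →+* K')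
    (hj : Function.Injective j) {s t : R} (hs : s ≠ 0) (ht : t ≠ 0) : s * t ≠ 0 := by
  have hjs : j s ≠ 0 := fun h0 => hs (hj (by rw [h0, map_zero]))
  have hjt : j t ≠ 0 := fun h0 => ht (hj (by rw [h0, map_zero]))
  intro h
  have := mul_ne_zero hjs hjt
  rw [← map_mul, h, map_zero] at this
  exact this rfl

theorem ore_ext_char {R A K' A' : Type} [Ring R] [AddCommGroup A] [Module R A] [DivisionRing K']
    [AddCommGroup A'] [Module K' A'] (j : R →+* K') (i : A →+ A') (hj : Function.Injective j)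
    (hi : Function.Injective i) (hji : ∀ (r : R) (a : A), i (r • a) = j r • i a)
    (hfr : ∀ κ : K', ∃ r s : R, s ≠ 0 ∧ j s * κ = j r)
    (hfr' : ∀ ξ : A', ∃ (s : R) (a : A), s ≠ 0 ∧ j s • ξ = i a)
    (σ : R ≃+* R) (u : A ≃+ A) (hu : ∀ (r : R) (a : A), u (r • a) = σ r • u a) :
    ∃ u' : A' → A', ∀ (s : R) (a : A) (ξ : A'), s ≠ 0 → j s • ξ = i a →
      j (σ s) • u' ξ = i (u a) := by
  choose s₁ a₁ hs₁ ha₁ using hfr'
  have hσ : ∀ s : R, s ≠ 0 → σ s ≠ 0 := fun s hs h => hs (by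
    rw [← σ.symm_apply_apply s, h, map_zero])
  have hjσ : ∀ s : R, s ≠ 0 → j (σ s) ≠ 0 := fun s hs h0 => hσ s hs (hj (by rw [h0, map_zero]))
  refine ⟨fun ξ => (j (σ (s₁ ξ)))⁻¹ • i (u (a₁ ξ)), ?_⟩
  intro s a ξ hs hsa
  obtain ⟨c, d, hc, hcd⟩ := ore_ext_ore j hj hfr s (s₁ ξ) (hs₁ ξ)
  have h1 : c • a = d • a₁ ξ := by
    apply hi
    rw [hji, hji, ← hsa, ← ha₁ ξ, smul_smul, smul_smul, ← map_mul, ← map_mul, hcd]
  have h2 : j (σ (s₁ ξ)) • (j (σ (s₁ ξ)))⁻¹ • i (u (a₁ ξ)) = i (u (a₁ ξ)) :=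
    smul_inv_smul₀ (hjσ _ (hs₁ ξ)) _
  apply ore_ext_cancel j hj (hσ c hc)
  rw [smul_smul, ← map_mul, ← map_mul, hcd, map_mul, map_mul, ← smul_smul, h2, ← hji, ← hji,
    ← hu, ← hu, h1]

theorem ore_ext_add {R A K' A' : Type} [Ring R] [AddCommGroup A] [Module R A] [DivisionRing K']
    [AddCommGroup A'] [Module K' A'] (j : R →+* K') (i : A →+ A') (hj : Function.Injective j)
    (hji : ∀ (r : R) (a : A), i (r • a) = j r • i a)
    (hfr : ∀ κ : K', ∃ r s : R, s ≠ 0 ∧ j s * κ = j r)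
    (hfr' : ∀ ξ : A', ∃ (s : R) (a : A), s ≠ 0 ∧ j s • ξ = i a)
    (σ : R ≃+* R) (u : A ≃+ A) (hu : ∀ (r : R) (a : A), u (r • a) = σ r • u a) (u' : A' → A')
    (hu' : ∀ (s : R) (a : A) (ξ : A'), s ≠ 0 → j s • ξ = i a → j (σ s) • u' ξ = i (u a))
    (ξ η : A') : u' (ξ + η) = u' ξ + u' η := by
  obtain ⟨s, a, hs, hsa⟩ := hfr' ξ
  obtain ⟨t, b, ht, htb⟩ := hfr' η
  obtain ⟨c, d, hc, hcd⟩ := ore_ext_ore j hj hfr s t ht
  have hcs := ore_ext_mul_ne j hj hc hs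
  have hσ : σ (c * s) ≠ 0 := fun h => hcs (by
    rw [← σ.symm_apply_apply (c * s), h, map_zero])
  have e1 : j (c * s) • ξ = i (c • a) := by rw [hji, ← hsa, map_mul, smul_smul]
  have e2 : j (c * s) • η = i (d • b) := by rw [hji, ← htb, hcd, map_mul, smul_smul]
  have e3 : j (c * s) • (ξ + η) = i (c • a + d • b) := by rw [smul_add, e1, e2, map_add]
  apply ore_ext_cancel j hj hσ
  rw [hu' _ _ _ hcs e3, smul_add, hu' _ _ _ hcs e1, hu' _ _ _ hcs e2, map_add, map_add]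

theorem ore_ext_inv {R A K' A' : Type} [Ring R] [AddCommGroup A] [Module R A] [DivisionRing K']
    [AddCommGroup A'] [Module K' A'] (j : R →+* K') (i : A →+ A') (hj : Function.Injective j)
    (hfr' : ∀ ξ : A', ∃ (s : R) (a : A), s ≠ 0 ∧ j s • ξ = i a)
    (σ τ : R ≃+* R) (u w : A ≃+ A) (hτ : ∀ s, τ (σ s) = s) (hw : ∀ a, w (u a) = a)
    (u' w' : A' → A')
    (hu' : ∀ (s : R) (a : A) (ξ : A'), s ≠ 0 → j s • ξ = i a → j (σ s) • u' ξ = i (u a))
    (hw' : ∀ (s : R) (a : A) (ξ : A'), s ≠ 0 → j s • ξ = i a → j (τ s) • w' ξ = i (w a))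
    (ξ : A') : w' (u' ξ) = ξ := by
  obtain ⟨s, a, hs, hsa⟩ := hfr' ξ
  have hσ : σ s ≠ 0 := fun h => hs (by
    rw [← σ.symm_apply_apply s, h, map_zero])
  have h1 := hw' (σ s) (u a) (u' ξ) hσ (hu' s a ξ hs hsa)
  rw [hτ, hw, ← hsa] at h1
  exact ore_ext_cancel j hj hs h1

/-- extension of semilinear automorphisms to the localisation. -/
theorem ore_ext {R A K' A' : Type} [Ring R] [AddCommGroup A] [Module R A] [DivisionRing K']
    [AddCommGroup A'] [Module K' A'] (j : R →+* K') (i : A →+ A') (hj : Function.Injective j)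
    (hi : Function.Injective i) (hji : ∀ (r : R) (a : A), i (r • a) = j r • i a)
    (hfr : ∀ κ : K', ∃ r s : R, s ≠ 0 ∧ j s * κ = j r)
    (hfr' : ∀ ξ : A', ∃ (s : R) (a : A), s ≠ 0 ∧ j s • ξ = i a)
    (σ : R ≃+* R) (u : A ≃+ A) (hu : ∀ (r : R) (a : A), u (r • a) = σ r • u a) :
    ∃ (σ' : K' ≃+* K') (u' : A' ≃+ A'), (∀ r, σ' (j r) = j (σ r)) ∧
      (∀ a, u' (i a) = i (u a)) ∧ ∀ (κ : K') (ξ : A'), u' (κ • ξ) = σ' κ • u' ξ := by
  have hone : (1 : R) ≠ 0 := by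
    intro h
    have := congrArg j h
    rw [map_one, map_zero] at this
    exact one_ne_zero this
  -- the ring itself
  have hfrK : ∀ ξ : K', ∃ (s : R) (a : R), s ≠ 0 ∧ j s • ξ = (j : R →+ K') a := by
    intro ξ
    obtain ⟨r, s, hs, h⟩ := hfr ξ
    exact ⟨s, r, hs, h⟩
  have hjiK : ∀ (r a : R), (j : R →+ K') (r • a) = j r • (j : R →+ K') a := fun r a =>
    map_mul j r a
  have hjK : Function.Injective (j : R →+ K') := hj
  have huσ : ∀ (r a : R), (σ : R ≃+ R) (r • a) = σ r • (σ : R ≃+ R) a := fun r a =>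
    map_mul σ r a
  have huτ : ∀ (r a : R), (σ.symm : R ≃+ R) (r • a) = σ.symm r • (σ.symm : R ≃+ R) a :=
    fun r a => map_mul σ.symm r a
  have hui : ∀ (r : R) (a : A), u.symm (r • a) = σ.symm r • u.symm a := by
    intro r a
    apply u.injective
    rw [u.apply_symm_apply, hu, σ.apply_symm_apply, u.apply_symm_apply]
  obtain ⟨f, hf⟩ := ore_ext_char j (j : R →+ K') hj hjK hjiK hfr hfrK σ (σ : R ≃+ R) huσ
  obtain ⟨g, hg⟩ := ore_ext_char j (j : R →+ K') hj hjK hjiK hfr hfrK σ.symm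
    (σ.symm : R ≃+ R) huτ
  obtain ⟨u', hu'⟩ := ore_ext_char j i hj hi hji hfr hfr' σ u hu
  obtain ⟨w', hw'⟩ := ore_ext_char j i hj hi hji hfr hfr' σ.symm u.symm hui
  have hfadd := ore_ext_add j (j : R →+ K') hj hjiK hfr hfrK σ (σ : R ≃+ R) huσ f hf
  have hfg := ore_ext_inv j (j : R →+ K') hj hfrK σ σ.symm (σ : R ≃+ R) (σ.symm : R ≃+ R)
    (fun s => σ.symm_apply_apply s) (fun s => σ.symm_apply_apply s) f g hf hg
  have hgf := ore_ext_inv j (j : R →+ K') hj hfrK σ.symm σ (σ.symm : R ≃+ R) (σ : R ≃+ R)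
    (fun s => σ.apply_symm_apply s) (fun s => σ.apply_symm_apply s) g f hg hf
  have huadd := ore_ext_add j i hj hji hfr hfr' σ u hu u' hu'
  have huw := ore_ext_inv j i hj hfr' σ σ.symm u u.symm
    (fun s => σ.symm_apply_apply s) (fun s => u.symm_apply_apply s) u' w' hu' hw'
  have hwu := ore_ext_inv j i hj hfr' σ.symm σ u.symm u
    (fun s => σ.apply_symm_apply s) (fun s => u.apply_symm_apply s) w' u' hw' hu'
  -- semilinearity, for the module
  have hsemi : ∀ (κ : K') (ξ : A'), u' (κ • ξ) = f κ • u' ξ := by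
    intro κ ξ
    obtain ⟨r₁, s₁, hs₁, h₁⟩ := hfr κ
    obtain ⟨s₂, a₂, hs₂, h₂⟩ := hfr' ξ
    obtain ⟨a, b, ha, hab⟩ := ore_ext_ore j hj hfr r₁ s₂ hs₂
    have hne := ore_ext_mul_ne j hj ha hs₁
    have hσ : σ (a * s₁) ≠ 0 := fun h => hne (by
      rw [← σ.symm_apply_apply (a * s₁), h, map_zero])
    have e1 : j (a * s₁) • (κ • ξ) = i (b • a₂) := by
      rw [hji, ← h₂, smul_smul, smul_smul, ← map_mul, ← hab, map_mul, map_mul, mul_assoc, h₁]
    have e2 := hu' _ _ _ hne e1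
    have e3 : j (σ s₁) * f κ = j (σ r₁) := hf s₁ r₁ κ hs₁ h₁
    have e4 := hu' s₂ a₂ ξ hs₂ h₂
    apply ore_ext_cancel j hj hσ
    rw [e2, hu, hji, ← e4, smul_smul, smul_smul, ← map_mul, ← map_mul, ← hab, map_mul, map_mul,
      map_mul, map_mul, mul_assoc, e3]
  have hmul : ∀ (κ ξ : K'), f (κ * ξ) = f κ * f ξ := by
    intro κ ξ
    obtain ⟨r₁, s₁, hs₁, h₁⟩ := hfr κ
    obtain ⟨a₂, s₂, hs₂, h₂⟩ := hfr ξ
    obtain ⟨a, b, ha, hab⟩ := ore_ext_ore j hj hfr r₁ s₂ hs₂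
    have hne := ore_ext_mul_ne j hj ha hs₁
    have hσ : σ (a * s₁) ≠ 0 := fun h => hne (by
      rw [← σ.symm_apply_apply (a * s₁), h, map_zero])
    have e1 : j (a * s₁) * (κ * ξ) = j (b * a₂) := by
      rw [map_mul j b, ← h₂, ← mul_assoc, ← mul_assoc, ← map_mul j b, ← hab, map_mul, map_mul,
        mul_assoc (j a), h₁]
    have e2 : j (σ (a * s₁)) * f (κ * ξ) = j (σ (b * a₂)) := hf _ _ _ hne e1
    have e3 : j (σ s₁) * f κ = j (σ r₁) := hf s₁ r₁ κ hs₁ h₁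
    have e4 : j (σ s₂) * f ξ = j (σ a₂) := hf s₂ a₂ ξ hs₂ h₂
    apply ore_ext_cancel j hj hσ
    show j (σ (a * s₁)) * f (κ * ξ) = j (σ (a * s₁)) * (f κ * f ξ)
    rw [e2, map_mul σ b, map_mul j, ← e4, ← mul_assoc, ← map_mul j, ← map_mul σ, ← hab,
      map_mul σ, map_mul σ, map_mul j, map_mul j, ← mul_assoc, mul_assoc (j (σ a)), ← e3]
    simp only [mul_assoc]
  refine ⟨{ toFun := f, invFun := g, left_inv := hfg, right_inv := hgf, map_mul' := hmul,
            map_add' := hfadd },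
          { toFun := u', invFun := w', left_inv := huw, right_inv := hwu, map_add' := huadd },
          ?_, ?_, ?_⟩
  · intro r
    have h := hf 1 r (j r) hone (by rw [map_one, one_smul]; rfl)
    rw [map_one, map_one, one_smul] at h
    exact h
  · intro a
    have h := hu' 1 a (i a) hone (by rw [map_one, one_smul])
    rw [map_one, map_one, one_smul] at h
    exact h
  · exact hsemi

end Pool.Agent.Helper294.HallM
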