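import Pool.Agent.Helper294.HallM.Defs

set_option autoImplicit false

namespace Pool.Agent.Helper294.HallM

open Module Pool.Agent.Helper946.HC


open OreLocalization in
/-- the Ore localisation of a domain and of a torsion-free module. -/
theorem ore_frac {R A : Type} [Ring R] [Nontrivial R] [NoZeroDivisors R] [AddCommGroup A]
    [Module R A] (hore : ∀ r s : R, s ≠ 0 → ∃ r' s' : R, s' ≠ 0 ∧ s' * r = r' * s)
    (htf : ∀ (r : R) (a : A), r • a = 0 → r = 0 ∨ a = 0) :
    ∃ (K' A' : Type) (_ : DivisionRing K') (_ : AddCommGroup A') (_ : Module K' A')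
      (j : R →+* K') (i : A →+ A'), Function.Injective j ∧ Function.Injective i ∧
      (∀ (r : R) (a : A), i (r • a) = j r • i a) ∧
      (∀ κ : K', ∃ r s : R, s ≠ 0 ∧ j s * κ = j r) ∧
      (∀ ξ : A', ∃ (s : R) (a : A), s ≠ 0 ∧ j s • ξ = i a) := by
  classical
  obtain ⟨inst⟩ : Nonempty (OreLocalization.OreSet (nonZeroDivisors R)) := by
    rw [OreLocalization.nonempty_oreSet_iff_of_noZeroDivisors]
    intro r s
    obtain ⟨r', s', hs', h⟩ := hore r s (nonZeroDivisors.ne_zero s.2)
    exact ⟨r', ⟨s', mem_nonZeroDivisors_of_ne_zero hs'⟩, h⟩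
  let _ : OreLocalization.OreSet (nonZeroDivisors R) := inst
  have hsne : ∀ s : nonZeroDivisors R, (s : R) ≠ 0 := fun s => nonZeroDivisors.ne_zero s.2
  refine ⟨OreLocalization (nonZeroDivisors R) R, OreLocalization (nonZeroDivisors R) A,
    inferInstance, inferInstance, inferInstance, OreLocalization.numeratorRingHom,
    { toFun := fun a => a /ₒ (1 : nonZeroDivisors R)
      map_zero' := OreLocalization.zero_def.symm
      map_add' := fun a b => OreLocalization.add_oreDiv.symm }, ?_, ?_, ?_, ?_, ?_⟩
  · refine OreLocalization.numeratorHom_inj ?_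
    intro s hs
    exact hs.1
  · intro a b hab
    have h1 : a /ₒ (1 : nonZeroDivisors R) = b /ₒ (1 : nonZeroDivisors R) := hab
    rw [OreLocalization.oreDiv_eq_iff] at h1
    obtain ⟨u, v, h2, h3⟩ := h1
    simp only [OneMemClass.coe_one, mul_one] at h3
    rw [Submonoid.smul_def, ← h3] at h2
    have h4 : (u : R) • (b - a) = 0 := by rw [smul_sub, h2, sub_self]
    rcases htf _ _ h4 with h5 | h5
    · exact absurd h5 (hsne u)
    · exact (sub_eq_zero.1 h5).symm
  · intro r a
    exact OreLocalization.smul_div_one.symm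
  · intro κ
    induction κ using OreLocalization.ind with | _ r s
    refine ⟨r, s, hsne s, ?_⟩
    exact OreLocalization.mul_cancel
  · intro ξ
    induction ξ using OreLocalization.ind with | _ a s
    refine ⟨s, a, hsne s, ?_⟩
    exact OreLocalization.smul_cancel

end Pool.Agent.Helper294.HallM
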