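import Pool.Agent.Helper294.HallM.Defs

set_option autoImplicit false

namespace Pool.Agent.Helper294.HallM

open Module Pool.Agent.Helper946.HC


theorem ore_uniq {R A K' A' : Type} [Ring R] [AddCommGroup A] [Module R A] [DivisionRing K']
    [AddCommGroup A'] [Module K' A'] (j : R →+* K') (i : A →+ A') (hj : Function.Injective j)
    (hfr' : ∀ ξ : A', ∃ (s : R) (a : A), s ≠ 0 ∧ j s • ξ = i a)
    (σ₁ σ₂ : K' ≃+* K') (u₁ u₂ : A' ≃+ A') (h1 : ∀ (κ : K') (ξ : A'), u₁ (κ • ξ) = σ₁ κ • u₁ ξ)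
    (h2 : ∀ (κ : K') (ξ : A'), u₂ (κ • ξ) = σ₂ κ • u₂ ξ) (h12 : ∀ r, σ₁ (j r) = σ₂ (j r))
    (hu : ∀ a, u₁ (i a) = u₂ (i a)) : u₁ = u₂ := by
  ext ξ
  obtain ⟨s, a, hs, e⟩ := hfr' ξ
  have hjs : j s ≠ 0 := by
    intro h0
    apply hs
    apply hj
    rw [h0, map_zero]
  have hσ : σ₁ (j s) ≠ 0 := by
    intro h0
    apply hjs
    apply σ₁.injective
    rw [h0, map_zero]
  have key : σ₁ (j s) • u₁ ξ = σ₁ (j s) • u₂ ξ := by
    rw [← h1, e, hu, ← e, h2, h12]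
  have h3 := congrArg (fun y => (σ₁ (j s))⁻¹ • y) key
  simp only [smul_smul] at h3
  rw [inv_mul_cancel₀ hσ, one_smul, one_smul] at h3
  exact h3

end Pool.Agent.Helper294.HallM
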