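import Pool.Agent.Helper294.HallM.Defs
import Pool.Agent.Helper294.HX.PHChain
import Pool.Agent.Helper294.HallM.OpForm
import Pool.Agent.Helper294.HallM.OpIndep
import Pool.Agent.Helper294.HallM.OpNorm
import Pool.Agent.Helper294.HallM.OpOre
import Pool.Agent.Helper294.HallM.OpSub
import Pool.Agent.Helper294.HallM.OreExt
import Pool.Agent.Helper294.HallM.OreFrac
import Pool.Agent.Helper294.HallM.OreUniq

set_option autoImplicit false

namespace Pool.Agent.Helper294.HallM

open Module Pool.Agent.Helper946.PH3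
open Pool.Agent.Helper946.HC hiding Cross


theorem ore_model_sigma {G A R : Type} [Group G] [AddCommGroup A]
    [DistribMulAction G A] [Ring R] [Module R A]
    (ext : ∀ s t : R, (∀ a : A, s • a = t • a) → s = t)
    (hnorm : ∀ (g : G) (s : R), ∃ s' : R, ∀ a : A, g • (s • a) = s' • (g • a)) :
    ∃ σ : G → R ≃+* R, ∀ (g : G) (s : R) (a : A), g • (s • a) = σ g s • (g • a) := by
  choose φ hφ using hnorm
  have h2 : ∀ (g : G) (s : R) (b : A), φ g s • b = g • (s • (g⁻¹ • b)) := by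
    intro g s b
    rw [hφ, smul_inv_smul]
  refine ⟨fun g =>
    { toFun := φ g
      invFun := φ g⁻¹
      left_inv := ?_
      right_inv := ?_
      map_mul' := ?_
      map_add' := ?_ }, fun g s a => hφ g s a⟩
  · intro s
    apply ext
    intro a
    simp [h2]
  · intro s
    apply ext
    intro a
    simp [h2]
  · intro s t
    apply ext
    intro a
    simp [h2, mul_smul]
  · intro s t
    apply ext
    intro a
    simp [h2, add_smul]

theorem ore_model_act {G A R K' A' : Type} [Group G] [AddCommGroup A]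
    [DistribMulAction G A] [Ring R] [Module R A] [DivisionRing K']
    [AddCommGroup A'] [Module K' A']
    (ext : ∀ s t : R, (∀ a : A, s • a = t • a) → s = t)
    (j : R →+* K') (i : A →+ A') (hj : Function.Injective j)
    (hi : Function.Injective i) (hji : ∀ (r : R) (a : A), i (r • a) = j r • i a)
    (hfr : ∀ κ : K', ∃ r s : R, s ≠ 0 ∧ j s * κ = j r)
    (hfr' : ∀ ξ : A', ∃ (s : R) (a : A), s ≠ 0 ∧ j s • ξ = i a)
    (σ : G → R ≃+* R) (hσ : ∀ (g : G) (s : R) (a : A), g • (s • a) = σ g s • (g • a)) :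
    ∃ (_ : DistribMulAction G A') (σ' : G → K' ≃+* K'),
      (∀ (g : G) (a : A), i (g • a) = g • i a) ∧
      (∀ (g : G) (κ : K') (ξ : A'), g • (κ • ξ) = σ' g κ • (g • ξ)) ∧
      ∀ (g : G) (r : R), σ' g (j r) = j (σ g r) := by
  have hex : ∀ g : G, ∃ (σ' : K' ≃+* K') (u' : A' ≃+ A'), (∀ r, σ' (j r) = j (σ g r)) ∧
      (∀ a, u' (i a) = i ((ac g : A ≃+ A) a)) ∧
      ∀ (κ : K') (ξ : A'), u' (κ • ξ) = σ' κ • u' ξ :=
    fun g => ore_ext j i hj hi hji hfr hfr' (σ g) (ac g) (hσ g)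
  choose σ' u' h1 h2 h3 using hex
  have e1 : ∀ r, σ 1 r = r := by
    intro r
    apply ext
    intro a
    have := hσ 1 r a
    rw [one_smul, one_smul] at this
    exact this.symm
  have e2 : ∀ (g h : G) (r : R), σ (g * h) r = σ g (σ h r) := by
    intro g h r
    apply ext
    intro b
    have k1 := hσ (g * h) r ((g * h)⁻¹ • b)
    rw [smul_inv_smul] at k1
    rw [← k1, mul_smul, hσ h, hσ g, ← mul_smul, smul_inv_smul]
  have hone : u' 1 = AddEquiv.refl A' :=
    ore_uniq j i hj hfr' (σ' 1) (RingEquiv.refl K') (u' 1) (AddEquiv.refl A') (h3 1)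
      (fun _ _ => rfl) (fun r => by rw [h1, e1]; rfl)
      (fun a => by rw [h2]; simp [ac])
  have hmul : ∀ g h : G, u' (g * h) = (u' h).trans (u' g) := fun g h =>
    ore_uniq j i hj hfr' (σ' (g * h)) ((σ' h).trans (σ' g)) (u' (g * h)) ((u' h).trans (u' g))
      (h3 (g * h)) (fun κ ξ => by simp [h3])
      (fun r => by simp [h1, e2])
      (fun a => by simp [h2, ac, mul_smul])
  letI act : DistribMulAction G A' :=
    { smul := fun g ξ => u' g ξ
      one_smul := fun ξ => by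
        change u' 1 ξ = ξ
        rw [hone]; rfl
      mul_smul := fun g h ξ => by
        change u' (g * h) ξ = u' g (u' h ξ)
        rw [hmul]; rfl
      smul_zero := fun g => map_zero (u' g)
      smul_add := fun g ξ η => map_add (u' g) ξ η }
  exact ⟨act, σ', fun g a => (h2 g a).symm, h3, h1⟩

theorem ore_model_cross {K G A Q R K' : Type} [DivisionRing K] [Group G] [AddCommGroup A]
    [Module K A] [DistribMulAction G A] [Group Q] [Ring R] [Module R A] [DivisionRing K']
    {ρ : G →* Q} (hS : Sys K G A Q ρ) {r : ℕ}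
    (ε : Multiplicative (Fin r → ℤ) →* Q) (hA : Nontrivial A)
    (ext : ∀ s t : R, (∀ a : A, s • a = t • a) → s = t)
    (j : R →+* K') (hj : Function.Injective j)
    (hfr : ∀ κ : K', ∃ r s : R, s ≠ 0 ∧ j s * κ = j r)
    (κ : K →+* R) (hκ : ∀ (k : K) (a : A), k • a = κ k • a)
    (y : (Fin r → ℤ) → G) (hy : ∀ v, ρ (y v) = ε (Multiplicative.ofAdd v))
    (Y : (Fin r → ℤ) → R) (hY : ∀ v (a : A), y v • a = Y v • a)
    (hform : ∀ s : R, ∃ f : (Fin r → ℤ) →₀ K, ∀ a : A, s • a = f.sum fun v k => k • (y v • a))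
    (hindep : ∀ a : A, a ≠ 0 → ∀ f : (Fin r → ℤ) →₀ K,
      (f.sum fun v k => k • (y v • a)) = 0 → f = 0) :
    Cross (j.comp κ) (fun v => j (Y v)) := by
  have hS1 : ∀ (f : (Fin r → ℤ) →₀ K) (a : A),
      (f.sum fun v k => κ k * Y v) • a = f.sum fun v k => k • (y v • a) := by
    intro f a
    rw [Finsupp.sum, Finsupp.sum, Finset.sum_smul]
    refine Finset.sum_congr rfl fun v _ => ?_
    rw [mul_smul, ← hY, ← hκ]
  have hev : ∀ f : (Fin r → ℤ) →₀ K,
      ev (j.comp κ) (fun v => j (Y v)) f = j (f.sum fun v k => κ k * Y v) := by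
    intro f
    rw [ev, Finsupp.sum, Finsupp.sum, map_sum]
    refine Finset.sum_congr rfl fun v _ => ?_
    rw [map_mul]
    rfl
  refine ⟨?_, ?_, ?_, ?_, ?_, ?_⟩
  · intro v hv
    have h0 : Y v = 0 := hj (by rw [map_zero]; exact hv)
    obtain ⟨a, ha⟩ := exists_ne (0 : A)
    apply ha
    have h1 := hY v a
    rw [h0, zero_smul] at h1
    have h2 : (y v)⁻¹ • (y v • a) = (y v)⁻¹ • (0 : A) := by rw [h1]
    rwa [inv_smul_smul, smul_zero] at h2
  · intro v k
    obtain ⟨τ, hτ⟩ := hS.semi (y v)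
    refine ⟨τ k, ?_⟩
    change j (Y v) * j (κ k) = j (κ (τ k)) * j (Y v)
    rw [← map_mul, ← map_mul]
    congr 1
    apply ext
    intro a
    rw [mul_smul, mul_smul, ← hκ, ← hY, ← hY, ← hκ]
    exact hτ k a
  · intro v k
    obtain ⟨τ, hτ⟩ := hS.semi (y v)
    refine ⟨τ.symm k, ?_⟩
    change j (κ k) * j (Y v) = j (Y v) * j (κ (τ.symm k))
    rw [← map_mul, ← map_mul]
    congr 1
    apply ext
    intro a
    rw [mul_smul, mul_smul, ← hκ, ← hY, ← hY, ← hκ]
    have := hτ (τ.symm k) a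
    rw [RingEquiv.apply_symm_apply] at this
    exact this.symm
  · intro v w
    have h1 : ρ (y v * y w * (y (v + w))⁻¹) = 1 := by
      rw [map_mul, map_mul, map_inv, hy, hy, hy, ofAdd_add, map_mul, mul_inv_cancel]
    obtain ⟨c, hc⟩ := hS.scal _ h1
    refine ⟨c, ?_⟩
    change j (Y v) * j (Y w) = j (κ c) * j (Y (v + w))
    rw [← map_mul, ← map_mul]
    congr 1
    apply ext
    intro a
    rw [mul_smul, mul_smul, ← hY, ← hY, ← hY, ← hκ, ← hc, smul_smul, smul_smul,
      inv_mul_cancel_right]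
  · intro f hf
    rw [hev] at hf
    have h0 : (f.sum fun v k => κ k * Y v) = 0 := hj (by rw [map_zero]; exact hf)
    obtain ⟨a, ha⟩ := exists_ne (0 : A)
    apply hindep a ha f
    rw [← hS1, h0, zero_smul]
  · intro k'
    obtain ⟨r', s, hs, h⟩ := hfr k'
    obtain ⟨f, hf⟩ := hform s
    obtain ⟨g, hg⟩ := hform r'
    have h1 : s = f.sum fun v k => κ k * Y v := ext _ _ fun a => by rw [hf, hS1]
    have h2 : r' = g.sum fun v k => κ k * Y v := ext _ _ fun a => by rw [hg, hS1]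
    refine ⟨f, g, ?_, ?_⟩
    · rintro rfl
      apply hs
      rw [h1, Finsupp.sum_zero_index]
    · rw [hev, hev, ← h1, ← h2, h]

theorem ore_model_main {K G A Q R : Type} [DivisionRing K] [Group G] [AddCommGroup A]
    [Module K A] [DistribMulAction G A] [Group Q] [Ring R] [Nontrivial R] [NoZeroDivisors R]
    [Module R A] {ρ : G →* Q} (hS : Sys K G A Q ρ) {r : ℕ}
    (ε : Multiplicative (Fin r → ℤ) →* Q) [hn : ε.range.Normal] (hA : Nontrivial A)
    (ext : ∀ s t : R, (∀ a : A, s • a = t • a) → s = t)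
    (hore : ∀ r s : R, s ≠ 0 → ∃ r' s' : R, s' ≠ 0 ∧ s' * r = r' * s)
    (htf : ∀ (r : R) (a : A), r • a = 0 → r = 0 ∨ a = 0)
    (hN : ∀ n : G, ρ n ∈ ε.range → ∃ s : R, ∀ a : A, n • a = s • a)
    (hnorm : ∀ (g : G) (s : R), ∃ s' : R, ∀ a : A, g • (s • a) = s' • (g • a))
    (κ : K →+* R) (hκ : ∀ (k : K) (a : A), k • a = κ k • a)
    (y : (Fin r → ℤ) → G) (hy : ∀ v, ρ (y v) = ε (Multiplicative.ofAdd v))
    (Y : (Fin r → ℤ) → R) (hY : ∀ v (a : A), y v • a = Y v • a)
    (hform : ∀ s : R, ∃ f : (Fin r → ℤ) →₀ K, ∀ a : A, s • a = f.sum fun v k => k • (y v • a))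
    (hindep : ∀ a : A, a ≠ 0 → ∀ f : (Fin r → ℤ) →₀ K,
      (f.sum fun v k => k • (y v • a)) = 0 → f = 0) :
    ∃ (K' A' : Type) (_ : DivisionRing K') (_ : AddCommGroup A') (_ : Module K' A')
      (_ : Module K A') (_ : DistribMulAction G A') (ι : K →+* K')
      (x : (Fin r → ℤ) → K') (i : A →+ A'), Function.Injective i ∧
      (∀ (g : G) (a : A), i (g • a) = g • i a) ∧ (∀ (k : K) (a : A), i (k • a) = k • i a) ∧
      (∀ (k : K) (ξ : A'), k • ξ = ι k • ξ) ∧ Cross ι x ∧
      Sys K' G A' (Q ⧸ ε.range) ((QuotientGroup.mk' ε.range).comp ρ) ∧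
      ∀ (g : G) (M : (Fin r → ℤ) ≃+ (Fin r → ℤ)),
        (∀ v, ρ g * ε (Multiplicative.ofAdd v) * (ρ g)⁻¹ = ε (Multiplicative.ofAdd (M v))) →
        Act ι x (ac g : A' ≃+ A') M := by
  obtain ⟨K', A', iK, iA, iM, j, i, hj, hi, hji, hfr, hfr'⟩ := ore_frac hore htf
  obtain ⟨σ, hσ⟩ := ore_model_sigma ext hnorm
  obtain ⟨act, σ', a1, a2, a3⟩ := ore_model_act ext j i hj hi hji hfr hfr' σ hσ
  refine ⟨K', A', iK, iA, iM, Module.compHom A' (j.comp κ), act, j.comp κ, fun v => j (Y v), i,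
    hi, a1, ?_, fun _ _ => rfl, ?_, ?_, ?_⟩
  · intro k a
    rw [hκ, hji]
    rfl
  · exact ore_model_cross hS ε hA ext j hj hfr κ hκ y hy Y hY hform hindep
  · refine ⟨fun g => ⟨σ' g, a2 g⟩, ?_, ?_⟩
    · intro g hg
      have hg' : ρ g ∈ ε.range := by
        rw [MonoidHom.comp_apply, QuotientGroup.mk'_apply, QuotientGroup.eq_one_iff] at hg
        exact hg
      obtain ⟨s, hs⟩ := hN g hg'
      refine ⟨j s, ?_⟩
      intro ξ
      obtain ⟨t, a, ht, h⟩ := hfr' ξ
      have c1 : s * t = σ g t * s := by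
        apply ext
        intro b
        rw [mul_smul, mul_smul, ← hs, hσ, ← hs]
      have c2 : j (σ g t) • (g • ξ) = j (σ g t) • (j s • ξ) := by
        rw [← a3, ← a2, h, ← a1, hs, hji, ← h, smul_smul, smul_smul, a3, ← map_mul, ← map_mul, c1]
      have c3 : j (σ g t) ≠ 0 := by
        intro h0
        apply ht
        have h1 : σ g t = 0 := hj (by rw [h0, map_zero])
        exact (map_eq_zero_iff (σ g) (σ g).injective).1 h1
      exact smul_right_injective A' c3 c2
    · obtain ⟨S, hSp⟩ := hS.fg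
      refine ⟨S.map ⟨i, hi⟩, ?_⟩
      rw [eq_top_iff]
      intro ξ _
      have key : ∀ a : A, i a ∈ Submodule.span K' {x : A' | ∃ g : G, ∃ s ∈ S.map ⟨i, hi⟩,
          x = g • s} := by
        intro a
        have ha : a ∈ Submodule.span K {x : A | ∃ g : G, ∃ s ∈ S, x = g • s} := by
          rw [hSp]; trivial
        induction ha using Submodule.span_induction with
        | mem x hx =>
          obtain ⟨g, s, hs, rfl⟩ := hx
          rw [a1]
          exact Submodule.subset_span ⟨g, i s, Finset.mem_map.2 ⟨s, hs, rfl⟩, rfl⟩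
        | zero => rw [map_zero]; exact Submodule.zero_mem _
        | add x y _ _ hx hy => rw [map_add]; exact Submodule.add_mem _ hx hy
        | smul k x _ hx => rw [hκ, hji]; exact Submodule.smul_mem _ _ hx
      obtain ⟨t, a, ht, h⟩ := hfr' ξ
      have ht' : j t ≠ 0 := fun h0 => ht (hj (by rw [h0, map_zero]))
      have : ξ = (j t)⁻¹ • i a := by
        rw [← h, smul_smul, inv_mul_cancel₀ ht', one_smul]
      rw [this]
      exact Submodule.smul_mem _ _ (key a)
  · intro g M hM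
    obtain ⟨σ0, h0⟩ := hS.semi g
    refine ⟨σ' g, σ0, a2 g, ?_, ?_⟩
    · intro k
      change σ' g (j (κ k)) = j (κ (σ0 k))
      rw [a3]
      congr 1
      apply ext
      intro b
      have h1 := hσ g (κ k) (g⁻¹ • b)
      rw [smul_inv_smul, ← hκ] at h1
      rw [← h1, ← hκ]
      have h2 := h0 k (g⁻¹ • b)
      simp only [ac, DistribMulAction.toAddEquiv_apply, smul_inv_smul] at h2
      exact h2
    · intro v
      have h1 : ρ (g * y v * g⁻¹ * (y (M v))⁻¹) = 1 := by
        rw [map_mul, map_mul, map_mul, map_inv, map_inv, hy, hy, hM, mul_inv_cancel]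
      obtain ⟨c, hc⟩ := hS.scal _ h1
      refine ⟨c, ?_⟩
      change σ' g (j (Y v)) = j (κ c) * j (Y (M v))
      rw [a3, ← map_mul]
      congr 1
      apply ext
      intro b
      have h2 := hσ g (Y v) (g⁻¹ • b)
      rw [smul_inv_smul] at h2
      rw [← h2, mul_smul, ← hY, ← hY, ← hκ, ← hc, smul_smul, smul_smul, smul_smul,
        inv_mul_cancel_right]


theorem ore_model {K G A Q : Type} [DivisionRing K] [Group G] [AddCommGroup A] [Module K A]
    [DistribMulAction G A] [Group Q] {ρ : G →* Q} (hρ : Function.Surjective ρ)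
    (hS : Sys K G A Q ρ) {r : ℕ} (hr : 0 < r)
    (ε : Multiplicative (Fin r → ℤ) →* Q) (hinj : Function.Injective ε) [hn : ε.range.Normal]
    (htf : ∀ a : A, a ≠ 0 → ¬ Tors (K := K) ρ ε a) (hA : Nontrivial A) :
    ∃ (K' A' : Type) (_ : DivisionRing K') (_ : AddCommGroup A') (_ : Module K' A')
      (_ : Module K A') (_ : DistribMulAction G A') (ι : K →+* K')
      (x : (Fin r → ℤ) → K') (i : A →+ A'), Function.Injective i ∧
      (∀ (g : G) (a : A), i (g • a) = g • i a) ∧ (∀ (k : K) (a : A), i (k • a) = k • i a) ∧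
      (∀ (k : K) (ξ : A'), k • ξ = ι k • ξ) ∧ Cross ι x ∧
      Sys K' G A' (Q ⧸ ε.range) ((QuotientGroup.mk' ε.range).comp ρ) ∧
      ∀ (g : G) (M : (Fin r → ℤ) ≃+ (Fin r → ℤ)),
        (∀ v, ρ g * ε (Multiplicative.ofAdd v) * (ρ g)⁻¹ = ε (Multiplicative.ofAdd (M v))) →
        Act ι x (ac g : A' ≃+ A') M := by
  have hnN : (ε.range.comap ρ).Normal := hn.comap ρ
  have hex : ∀ v : Fin r → ℤ, ∃ g : G, ρ g = ε (Multiplicative.ofAdd v) := fun v => hρ _
  choose y hy using hex
  have hyN : ∀ v, y v ∈ ε.range.comap ρ := fun v => by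
    rw [Subgroup.mem_comap, hy]
    exact ⟨_, rfl⟩
  obtain ⟨-, -, ⟨κ, hκ⟩, h4⟩ := op_sub (K := K) (A := A) (ε.range.comap ρ)
  choose Y hY using fun v => h4 (y v) (hyN v)
  have ext : ∀ s t : ↥(opR K (A := A) (ε.range.comap ρ)),
      (∀ a : A, s • a = t • a) → s = t := by
    intro s t h
    apply Subtype.ext
    apply AddMonoidHom.ext
    intro a
    exact h a
  have hform := op_form (K := K) hS.semi hS.scal ε y hy
  have hindep : ∀ a : A, a ≠ 0 → ∀ f : (Fin r → ℤ) →₀ K,
      (f.sum fun v k => k • (y v • a)) = 0 → f = 0 := fun a ha f hf =>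
    op_indep ε y hy a (htf a ha) f hf
  have htf' : ∀ (s : ↥(opR K (A := A) (ε.range.comap ρ))) (a : A), s • a = 0 → s = 0 ∨ a = 0 := by
    intro s a h
    by_cases ha : a = 0
    · exact Or.inr ha
    · left
      obtain ⟨f, hf⟩ := hform s
      have h0 : f = 0 := hindep a ha f (by rw [← hf, h])
      apply ext
      intro b
      rw [hf, h0, Finsupp.sum_zero_index, zero_smul]
  obtain ⟨a0, ha0⟩ := exists_ne (0 : A)
  haveI : Nontrivial ↥(opR K (A := A) (ε.range.comap ρ)) := by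
    refine ⟨⟨1, 0, ?_⟩⟩
    intro h
    apply ha0
    have h1 : (1 : ↥(opR K (A := A) (ε.range.comap ρ))) • a0 = (0 : ↥(opR K (A := A) (ε.range.comap ρ))) • a0 := by rw [h]
    rwa [one_smul, zero_smul] at h1
  haveI : NoZeroDivisors ↥(opR K (A := A) (ε.range.comap ρ)) := by
    refine ⟨?_⟩
    intro s t h
    have h1 : s • (t • a0) = 0 := by rw [← mul_smul, h, zero_smul]
    rcases htf' _ _ h1 with h2 | h2
    · exact Or.inl h2
    · rcases htf' _ _ h2 with h3 | h3
      · exact Or.inr h3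
      · exact absurd h3 ha0
  exact ore_model_main hS ε hA ext (op_ore hρ hS.semi hS.scal hr ε hinj htf hA) htf'
    (fun n hn' => h4 n hn') (op_norm hS.semi (ε.range.comap ρ) hnN) κ hκ y hy Y hY hform hindep

end Pool.Agent.Helper294.HallM
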