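import Pool.Agent.Helper294.HallM.Defs

set_option autoImplicit false

namespace Pool.Agent.Helper294.HallM

open Module Pool.Agent.Helper946.HC


theorem gm_stable_iff {K G A : Type} [DivisionRing K] [Group G] [AddCommGroup A] [Module K A]
    [DistribMulAction G A] (hs : ∀ g : G, Semi K (ac g : A ≃+ A)) (M : Submodule K A)
    (g : G) (x : A) : x ∈ (gm g M : Submodule K A) ↔ g⁻¹ • x ∈ M := by
  constructor
  · intro hx
    obtain ⟨σ, hσ⟩ := hs g⁻¹
    have hσ' : ∀ (k : K) (x : A), g⁻¹ • (k • x) = σ k • (g⁻¹ • x) := fun k x => hσ k x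
    unfold gm at hx
    induction hx using Submodule.span_induction with
    | mem y h =>
      obtain ⟨z, hz, rfl⟩ := h
      rwa [inv_smul_smul]
    | zero => rw [smul_zero]; exact M.zero_mem
    | add a b _ _ ha hb => rw [smul_add]; exact M.add_mem ha hb
    | smul k a _ ha => rw [hσ']; exact M.smul_mem _ ha
  · intro hx
    exact Submodule.subset_span ⟨g⁻¹ • x, hx, (smul_inv_smul g x).symm⟩

theorem gm_stable {K G A : Type} [DivisionRing K] [Group G] [AddCommGroup A] [Module K A]
    [DistribMulAction G A] (hs : ∀ g : G, Semi K (ac g : A ≃+ A)) (M : Submodule K A) :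
    (∀ (g : G) (x : A), x ∈ (gm g M : Submodule K A) ↔ g⁻¹ • x ∈ M) ∧
    St (⊤ : Subgroup G) (⨆ g : G, (gm g M : Submodule K A)) ∧
    M ≤ ⨆ g : G, (gm g M : Submodule K A) := by
  have h1 : ∀ (g : G) (x : A), x ∈ (gm g M : Submodule K A) ↔ g⁻¹ • x ∈ M := fun g x =>
    gm_stable_iff hs M g x
  refine ⟨h1, ?_, ?_⟩
  · intro h _ x hx
    refine Submodule.iSup_induction (fun g : G => (gm g M : Submodule K A))
      (motive := fun x => h • x ∈ ⨆ g : G, (gm g M : Submodule K A)) hx ?_ ?_ ?_
    · intro g y hy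
      have h2 : h • y ∈ (gm (h * g) M : Submodule K A) := by
        rw [h1, mul_inv_rev, mul_smul, inv_smul_smul]
        exact (h1 g y).mp hy
      exact Submodule.mem_iSup_of_mem (h * g) h2
    · rw [smul_zero]; exact Submodule.zero_mem _
    · intro a b ha hb
      rw [smul_add]; exact Submodule.add_mem _ ha hb
  · intro x hx
    refine Submodule.mem_iSup_of_mem 1 ?_
    rw [h1, inv_one, one_smul]
    exact hx


end Pool.Agent.Helper294.HallM
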