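import Pool.Agent.Helper294.HallM.Defs
import Pool.Agent.Helper294.HallM.GmStable

set_option autoImplicit false

namespace Pool.Agent.Helper294.HallM

open Module Pool.Agent.Helper946.HC


theorem clif_L_sSup_ind {R M : Type} [Ring R] [AddCommGroup M] [Module R M]
    (S : Set (Submodule R M)) (P : M → Prop) (hm : ∀ V ∈ S, ∀ x ∈ V, P x) (h0 : P 0)
    (ha : ∀ x y, P x → P y → P (x + y)) : ∀ x ∈ sSup S, P x := by
  intro x hx
  rw [sSup_eq_iSup'] at hx
  exact Submodule.iSup_induction (fun i : S => (i : Submodule R M)) (motive := P) hx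
    (fun i y hy => hm i i.2 y hy) h0 ha

theorem clif_L_refl {K G A : Type} [DivisionRing K] [Group G] [AddCommGroup A] [Module K A]
    [DistribMulAction G A] (N : Subgroup G) (U : Submodule K A) : IsoN N U U :=
  ⟨LinearEquiv.refl K U, fun _ _ _ _ h => h⟩

theorem clif_L_symm {K G A : Type} [DivisionRing K] [Group G] [AddCommGroup A] [Module K A]
    [DistribMulAction G A] {N : Subgroup G} {U V : Submodule K A} (hU : St N U)
    (h : IsoN N U V) : IsoN N V U := by
  obtain ⟨f, hf⟩ := h
  refine ⟨f.symm, fun n hn x y hxy => ?_⟩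
  have h1 := hf n hn (f.symm x) ⟨n • ((f.symm x : U) : A), hU n hn _ (f.symm x).2⟩ rfl
  rw [LinearEquiv.apply_symm_apply, ← hxy] at h1
  have h2 : f ⟨n • ((f.symm x : U) : A), hU n hn _ (f.symm x).2⟩ = y := Subtype.ext h1
  rw [← h2, LinearEquiv.symm_apply_apply]

theorem clif_L_trans {K G A : Type} [DivisionRing K] [Group G] [AddCommGroup A] [Module K A]
    [DistribMulAction G A] {N : Subgroup G} {U V W : Submodule K A}
    (h : IsoN N U V) (h' : IsoN N V W) : IsoN N U W := by
  obtain ⟨f, hf⟩ := h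
  obtain ⟨f', hf'⟩ := h'
  exact ⟨f.trans f', fun n hn x y hxy => hf' n hn _ _ (hf n hn x y hxy)⟩

theorem clif_L_gm_mul {K G A : Type} [DivisionRing K] [Group G] [AddCommGroup A] [Module K A]
    [DistribMulAction G A] (hs : ∀ g : G, Semi K (ac g : A ≃+ A)) (g h : G) (U : Submodule K A) :
    (gm (g * h) U : Submodule K A) = gm g (gm h U) := by
  ext x
  rw [(gm_stable hs U).1, (gm_stable hs (gm h U)).1, (gm_stable hs U).1, mul_inv_rev, mul_smul]

theorem clif_L_gm_one {K G A : Type} [DivisionRing K] [Group G] [AddCommGroup A] [Module K A]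
    [DistribMulAction G A] (hs : ∀ g : G, Semi K (ac g : A ≃+ A)) (U : Submodule K A) :
    (gm (1 : G) U : Submodule K A) = U := by
  ext x
  rw [(gm_stable hs U).1, inv_one, one_smul]

theorem clif_L_gm_St {K G A : Type} [DivisionRing K] [Group G] [AddCommGroup A] [Module K A]
    [DistribMulAction G A] (hs : ∀ g : G, Semi K (ac g : A ≃+ A)) {N : Subgroup G}
    (hN : N.Normal) (g : G) {U : Submodule K A} (hU : St N U) :
    St N (gm g U : Submodule K A) := by
  intro n hn x hx
  rw [(gm_stable hs U).1] at hx ⊢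
  have h1 := hU (g⁻¹ * n * g) (by simpa using hN.conj_mem n hn g⁻¹) _ hx
  rwa [smul_smul, mul_assoc, mul_assoc, mul_inv_cancel, mul_one, mul_smul] at h1

theorem clif_L_key {K G A : Type} [DivisionRing K] [Group G] [AddCommGroup A] [Module K A]
    [DistribMulAction G A] (hs : ∀ g : G, Semi K (ac g : A ≃+ A)) {N : Subgroup G}
    (hN : N.Normal) (g : G) {V W : Submodule K A} (h : IsoN N V W) :
    IsoN N (gm g V) (gm g W) := by
  obtain ⟨f, hf⟩ := h
  obtain ⟨σ, hσ⟩ := hs g
  have hσ1 : ∀ (k : K) (x : A), g • (k • x) = σ k • (g • x) := fun k x => hσ k x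
  have hσ2 : ∀ (k : K) (x : A), g⁻¹ • (k • x) = σ.symm k • (g⁻¹ • x) := by
    intro k x
    rw [inv_smul_eq_iff, hσ1, smul_inv_smul, RingEquiv.apply_symm_apply]
  have mV := (gm_stable hs V).1 g
  have mW := (gm_stable hs W).1 g
  refine ⟨{ toFun := fun x => ⟨g • ((f ⟨g⁻¹ • (x : A), (mV x).1 x.2⟩ : W) : A), ?_⟩
            map_add' := ?_
            map_smul' := ?_
            invFun := fun x => ⟨g • ((f.symm ⟨g⁻¹ • (x : A), (mW x).1 x.2⟩ : V) : A), ?_⟩
            left_inv := ?_
            right_inv := ?_ }, ?_⟩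
  · rw [mW, inv_smul_smul]
    exact (f _).2
  · intro x y
    apply Subtype.ext
    have : (⟨g⁻¹ • ((x + y : gm g V) : A), (mV (x + y : gm g V)).1 (x + y).2⟩ : V)
        = ⟨g⁻¹ • (x : A), (mV x).1 x.2⟩ + ⟨g⁻¹ • (y : A), (mV y).1 y.2⟩ := by
      apply Subtype.ext
      simp [smul_add]
    refine (congrArg (fun z : V => g • ((f z : W) : A)) this).trans ?_
    change g • ((f (_ + _) : W) : A) = g • _ + g • _
    rw [map_add, Submodule.coe_add, smul_add]
  · intro k x
    apply Subtype.ext
    have : (⟨g⁻¹ • ((k • x : gm g V) : A), (mV (k • x : gm g V)).1 (k • x).2⟩ : V)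
        = σ.symm k • ⟨g⁻¹ • (x : A), (mV x).1 x.2⟩ := by
      apply Subtype.ext
      simp only [Submodule.coe_smul, hσ2]
    refine (congrArg (fun z : V => g • ((f z : W) : A)) this).trans ?_
    change g • ((f (σ.symm k • _) : W) : A) = k • g • _
    rw [map_smul, Submodule.coe_smul, hσ1, RingEquiv.apply_symm_apply]
  · rw [mV, inv_smul_smul]
    exact (f.symm _).2
  · intro x
    apply Subtype.ext
    simp
  · intro x
    apply Subtype.ext
    simp
  · intro n hn x y hxy
    change g • ((f ⟨g⁻¹ • (y : A), _⟩ : W) : A) = n • g • ((f ⟨g⁻¹ • (x : A), _⟩ : W) : A)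
    have h1 := hf (g⁻¹ * n * g) (by simpa using hN.conj_mem n hn g⁻¹)
      ⟨g⁻¹ • (x : A), (mV x).1 x.2⟩ ⟨g⁻¹ • (y : A), (mV y).1 y.2⟩ (by
        change g⁻¹ • (y : A) = (g⁻¹ * n * g) • g⁻¹ • (x : A)
        rw [hxy, mul_smul, smul_inv_smul, mul_smul])
    rw [h1, smul_smul, smul_smul]
    congr 1
    group

theorem clif_L {K G A : Type} [DivisionRing K] [Group G] [AddCommGroup A] [Module K A]
    [DistribMulAction G A] (hs : ∀ g : G, Semi K (ac g : A ≃+ A)) (N : Subgroup G)
    (hN : N.Normal) (U : Submodule K A) (hU : St N U) :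
    ∃ L : Subgroup G, N ≤ L ∧ (∀ g, g ∈ L ↔ IsoN N (gm g U) U) ∧
      St L (isoM N U : Submodule K A) ∧ U ≤ isoM N U := by
  let L : Subgroup G :=
    { carrier := {g | IsoN N (gm g U) U}
      mul_mem' := by
        intro g h hg hh
        change IsoN N (gm (g * h) U) U
        rw [clif_L_gm_mul hs]
        exact clif_L_trans (clif_L_key hs hN g hh) hg
      one_mem' := by
        change IsoN N (gm 1 U) U
        rw [clif_L_gm_one hs]
        exact clif_L_refl N U
      inv_mem' := by
        intro g hg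
        change IsoN N (gm g⁻¹ U) U
        have h1 := clif_L_key hs hN g⁻¹ hg
        rw [← clif_L_gm_mul hs, inv_mul_cancel, clif_L_gm_one hs] at h1
        exact clif_L_symm hU h1 }
  have hL : ∀ g, g ∈ L ↔ IsoN N (gm g U) U := fun g => Iff.rfl
  refine ⟨L, ?_, hL, ?_, ?_⟩
  · intro n hn
    rw [hL]
    have : (gm n U : Submodule K A) = U := by
      ext x
      rw [(gm_stable hs U).1]
      constructor
      · intro h
        have := hU n hn _ h
        rwa [smul_inv_smul] at this
      · intro h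
        exact hU n⁻¹ (N.inv_mem hn) _ h
    rw [this]
    exact clif_L_refl N U
  · intro g hg y hy
    refine clif_L_sSup_ind {V : Submodule K A | St N V ∧ IsoN N V U}
      (fun y => g • y ∈ (isoM N U : Submodule K A)) ?_ ?_ ?_ y hy
    · intro V hV z hz
      have h1 : (gm g V : Submodule K A) ≤ isoM N U :=
        le_sSup ⟨clif_L_gm_St hs hN g hV.1, clif_L_trans (clif_L_key hs hN g hV.2) ((hL g).1 hg)⟩
      apply h1
      rw [(gm_stable hs V).1, inv_smul_smul]
      exact hz
    · rw [smul_zero]; exact Submodule.zero_mem _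
    · intro a b ha hb
      rw [smul_add]; exact Submodule.add_mem _ ha hb
  · exact le_sSup ⟨hU, clif_L_refl N U⟩

end Pool.Agent.Helper294.HallM
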