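import Pool.Agent.Helper294.HallM.Defs

set_option autoImplicit false

namespace Pool.Agent.Helper294.HallM

open Module Pool.Agent.Helper946.HC


/-- generated subspace -/
def fg_of_noe_gen (K : Type) {G A : Type} [DivisionRing K] [Group G] [AddCommGroup A] [Module K A]
    [DistribMulAction G A] (L : Subgroup G) (S : Finset A) : Submodule K A :=
  Submodule.span K {x : A | ∃ g ∈ L, ∃ s ∈ S, x = g • s}

theorem fg_of_noe_st {K G A : Type} [DivisionRing K] [Group G] [AddCommGroup A] [Module K A]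
    [DistribMulAction G A] (hs : ∀ g : G, Semi K (ac g : A ≃+ A)) (L : Subgroup G)
    (S : Finset A) : ∀ g ∈ (L : Set G), ∀ x ∈ fg_of_noe_gen K L S, g • x ∈ fg_of_noe_gen K L S := by
  intro h hh x hx
  obtain ⟨σ, hσ⟩ := hs h
  unfold fg_of_noe_gen at hx ⊢
  induction hx using Submodule.span_induction with
  | mem y hy =>
    obtain ⟨g, hg, s, hsS, rfl⟩ := hy
    rw [← mul_smul]
    exact Submodule.subset_span ⟨h * g, L.mul_mem hh hg, s, hsS, rfl⟩
  | zero => rw [smul_zero]; exact Submodule.zero_mem _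
  | add y z _ _ hy hz => rw [smul_add]; exact Submodule.add_mem _ hy hz
  | smul c y _ hy =>
    have : h • (c • y) = σ c • (h • y) := hσ c y
    rw [this]; exact Submodule.smul_mem _ _ hy

theorem fg_of_noe_le {K G A : Type} [DivisionRing K] [Group G] [AddCommGroup A] [Module K A]
    [DistribMulAction G A] (L : Subgroup G) (M : Submodule K A) (hM : St L M)
    (S : Finset A) (hS : ∀ s ∈ S, s ∈ M) : fg_of_noe_gen K L S ≤ M := by
  unfold fg_of_noe_gen
  rw [Submodule.span_le]
  rintro y ⟨g, hg, s, hsS, rfl⟩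
  exact hM g hg s (hS s hsS)

theorem fg_of_noe {K G A : Type} [DivisionRing K] [Group G] [AddCommGroup A] [Module K A]
    [DistribMulAction G A] (hs : ∀ g : G, Semi K (ac g : A ≃+ A)) (L : Subgroup G)
    (M : Submodule K A) (hM : St L M) (hN : NoethFor (L : Set G) M) :
    ∃ S : Finset A, (∀ s ∈ S, s ∈ M) ∧
      M = Submodule.span K {x : A | ∃ g ∈ L, ∃ s ∈ S, x = g • s} := by
  classical
  by_contra hcon
  push Not at hcon
  have hex : ∀ S : {S : Finset A // ∀ s ∈ S, s ∈ M}, ∃ x ∈ M, x ∉ fg_of_noe_gen K L S.1 := by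
    intro S
    by_contra h
    push Not at h
    exact hcon S.1 S.2 (le_antisymm h (fg_of_noe_le L M hM S.1 S.2))
  choose nx hnx1 hnx2 using hex
  let step : {S : Finset A // ∀ s ∈ S, s ∈ M} → {S : Finset A // ∀ s ∈ S, s ∈ M} := fun S =>
    ⟨insert (nx S) S.1, by
      intro s hs'
      rcases Finset.mem_insert.1 hs' with h | h
      · rw [h]; exact hnx1 S
      · exact S.2 s h⟩
  let sq : ℕ → {S : Finset A // ∀ s ∈ S, s ∈ M} := fun n => step^[n] ⟨∅, by simp⟩
  have hsq : ∀ n, sq (n + 1) = step (sq n) := fun n => Function.iterate_succ_apply' step n _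
  have hmono : Monotone (fun n => fg_of_noe_gen K L (sq n).1) := by
    apply monotone_nat_of_le_succ
    intro n
    rw [hsq]
    apply Submodule.span_mono
    rintro y ⟨g, hg, s, hsS, rfl⟩
    exact ⟨g, hg, s, Finset.mem_insert_of_mem hsS, rfl⟩
  obtain ⟨n, hn⟩ := hN (fun n => fg_of_noe_gen K L (sq n).1) hmono (fun n =>
    ⟨fg_of_noe_le L M hM _ (sq n).2, fg_of_noe_st hs L _⟩)
  have h1 := hn (n + 1) (Nat.le_succ n)
  apply hnx2 (sq n)
  rw [← h1, hsq]
  exact Submodule.subset_span ⟨1, L.one_mem, nx (sq n), Finset.mem_insert_self _ _, (one_smul G _).symm⟩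

end Pool.Agent.Helper294.HallM
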