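import Pool.Agent.Helper294.HallM.Defs
import Pool.Agent.Helper294.HallM.OpSub

set_option autoImplicit false

namespace Pool.Agent.Helper294.HallM

open Module Pool.Agent.Helper946.HC


theorem op_iso_smul {K G A : Type} [DivisionRing K] [Group G] [AddCommGroup A] [Module K A]
    [DistribMulAction G A] (N : Subgroup G) (s : ↥(opR K (A := A) N)) (a : A) :
    s • a = (s : AddMonoid.End A) a := rfl

theorem op_iso_ind {K G A : Type} [DivisionRing K] [Group G] [AddCommGroup A] [Module K A]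
    [DistribMulAction G A] (N : Subgroup G) (U V : Submodule K A) (hU : St N U)
    (f : U ≃ₗ[K] V)
    (hf : ∀ n ∈ N, ∀ x y : U, (y : A) = n • (x : A) → (f y : A) = n • (f x : A))
    (s : AddMonoid.End A) (hs : s ∈ opR K (A := A) N) :
    ∀ (x : A) (hx : x ∈ U), ∃ hsx : s x ∈ U, (f ⟨s x, hsx⟩ : A) = s (f ⟨x, hx⟩ : A) := by
  induction hs using Subring.closure_induction with
  | mem s hs =>
    intro x hx
    rcases hs with ⟨k, hk⟩ | ⟨n, hn, hk⟩
    · have h1 : s x = k • x := hk x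
      refine ⟨h1 ▸ U.smul_mem k hx, ?_⟩
      have h2 : (⟨s x, h1 ▸ U.smul_mem k hx⟩ : U) = k • ⟨x, hx⟩ := Subtype.ext h1
      rw [h2, map_smul, hk]
      rfl
    · have h1 : s x = n • x := hk x
      refine ⟨h1 ▸ hU n hn x hx, ?_⟩
      exact (hf n hn ⟨x, hx⟩ ⟨s x, h1 ▸ hU n hn x hx⟩ h1).trans (hk _).symm
  | zero =>
    intro x hx
    refine ⟨U.zero_mem, ?_⟩
    have h2 : (⟨(0 : AddMonoid.End A) x, U.zero_mem⟩ : U) = 0 := rfl
    rw [h2, map_zero]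
    rfl
  | one => exact fun x hx => ⟨hx, rfl⟩
  | add s t _ _ ihs iht =>
    intro x hx
    obtain ⟨h1, e1⟩ := ihs x hx
    obtain ⟨h2, e2⟩ := iht x hx
    refine ⟨U.add_mem h1 h2, ?_⟩
    have h3 : (⟨(s + t) x, U.add_mem h1 h2⟩ : U) = ⟨s x, h1⟩ + ⟨t x, h2⟩ := rfl
    rw [h3, map_add, Submodule.coe_add, e1, e2]
    rfl
  | neg s _ ihs =>
    intro x hx
    obtain ⟨h1, e1⟩ := ihs x hx
    refine ⟨U.neg_mem h1, ?_⟩
    have h3 : (⟨(-s) x, U.neg_mem h1⟩ : U) = -⟨s x, h1⟩ := rfl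
    rw [h3, map_neg, Submodule.coe_neg, e1]
    rfl
  | mul s t _ _ ihs iht =>
    intro x hx
    obtain ⟨h2, e2⟩ := iht x hx
    obtain ⟨h1, e1⟩ := ihs (t x) h2
    refine ⟨h1, ?_⟩
    have h3 : (⟨(s * t) x, h1⟩ : U) = ⟨s (t x), h1⟩ := rfl
    rw [h3, e1, e2]
    rfl

theorem op_iso {K G A : Type} [DivisionRing K] [Group G] [AddCommGroup A] [Module K A]
    [DistribMulAction G A] (N : Subgroup G) (U V : Submodule K A) (hU : St N U) (hV : St N V)
    (U' V' : Submodule ↥(opR K (A := A) N) A) (hU' : ∀ x, x ∈ U' ↔ x ∈ U)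
    (hV' : ∀ x, x ∈ V' ↔ x ∈ V) :
    IsoN N U V ↔ Nonempty (↥U' ≃ₗ[↥(opR K (A := A) N)] ↥V') := by
  constructor
  · rintro ⟨f, hf⟩
    refine ⟨{ toFun := fun x => ⟨f ⟨x, (hU' x).1 x.2⟩, (hV' _).2 (f ⟨x, (hU' x).1 x.2⟩).2⟩
              map_add' := fun x y => ?_
              map_smul' := fun s x => ?_
              invFun := fun y => ⟨f.symm ⟨y, (hV' y).1 y.2⟩, (hU' _).2 (f.symm ⟨y, (hV' y).1 y.2⟩).2⟩
              left_inv := fun x => ?_
              right_inv := fun y => ?_ }⟩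
    · apply Subtype.ext
      have h : (⟨((x + y : ↥U') : A), (hU' _).1 (x + y).2⟩ : U) =
          ⟨x, (hU' x).1 x.2⟩ + ⟨y, (hU' y).1 y.2⟩ := rfl
      change (f ⟨((x + y : ↥U') : A), (hU' _).1 (x + y).2⟩ : A) = f ⟨x, _⟩ + f ⟨y, _⟩
      rw [h, map_add]
      rfl
    · apply Subtype.ext
      obtain ⟨h1, e1⟩ := op_iso_ind N U V hU f hf s s.2 x ((hU' x).1 x.2)
      exact e1
    · apply Subtype.ext
      simp
    · apply Subtype.ext
      simp
  · rintro ⟨e⟩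
    obtain ⟨-, -, ⟨κ, hκ⟩, hN⟩ := op_sub (K := K) (A := A) N
    refine ⟨{ toFun := fun x => ⟨e ⟨x, (hU' x).2 x.2⟩, (hV' _).1 (e ⟨x, (hU' x).2 x.2⟩).2⟩
              map_add' := fun x y => ?_
              map_smul' := fun k x => ?_
              invFun := fun y => ⟨e.symm ⟨y, (hV' y).2 y.2⟩, (hU' _).1 (e.symm ⟨y, (hV' y).2 y.2⟩).2⟩
              left_inv := fun x => ?_
              right_inv := fun y => ?_ }, ?_⟩
    · apply Subtype.ext
      have h : (⟨((x + y : ↥U) : A), (hU' _).2 (x + y).2⟩ : U') =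
          ⟨x, (hU' x).2 x.2⟩ + ⟨y, (hU' y).2 y.2⟩ := rfl
      change (e ⟨((x + y : ↥U) : A), (hU' _).2 (x + y).2⟩ : A) = e ⟨x, _⟩ + e ⟨y, _⟩
      rw [h, map_add]
      rfl
    · apply Subtype.ext
      have h : (⟨((k • x : ↥U) : A), (hU' _).2 (k • x).2⟩ : U') = κ k • ⟨x, (hU' x).2 x.2⟩ :=
        Subtype.ext (hκ k x)
      change (e ⟨((k • x : ↥U) : A), (hU' _).2 (k • x).2⟩ : A) = k • (e ⟨x, _⟩ : A)
      rw [h, map_smul, hκ]
      rfl
    · apply Subtype.ext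
      simp
    · apply Subtype.ext
      simp
    · intro n hn x y hxy
      obtain ⟨s, hs⟩ := hN n hn
      have h : (⟨y, (hU' _).2 y.2⟩ : U') = s • ⟨x, (hU' x).2 x.2⟩ :=
        Subtype.ext (hxy.trans (hs x))
      change (e ⟨y, (hU' _).2 y.2⟩ : A) = n • (e ⟨x, (hU' _).2 x.2⟩ : A)
      rw [h, map_smul, hs]
      rfl

end Pool.Agent.Helper294.HallM
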