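import Pool.Agent.Helper294.HallM.Defs
import Pool.Agent.Helper294.HallM.OpIso
import Pool.Agent.Helper294.HallM.OpSub

set_option autoImplicit false

namespace Pool.Agent.Helper294.HallM

open Module Pool.Agent.Helper946.HC


theorem op_comp_sSup_ind {R M : Type} [Ring R] [AddCommGroup M] [Module R M]
    (S : Set (Submodule R M)) (P : M → Prop) (hm : ∀ V ∈ S, ∀ x ∈ V, P x) (h0 : P 0)
    (ha : ∀ x y, P x → P y → P (x + y)) : ∀ x ∈ sSup S, P x := by
  intro x hx
  rw [sSup_eq_iSup'] at hx
  exact Submodule.iSup_induction (fun i : S => (i : Submodule R M)) (motive := P) hx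
    (fun i y hy => hm i i.2 y hy) h0 ha

theorem op_comp {K G A : Type} [DivisionRing K] [Group G] [AddCommGroup A] [Module K A]
    [DistribMulAction G A] (N : Subgroup G) (U : Submodule K A) (hU : St N U)
    (U' : Submodule ↥(opR K (A := A) N) A) (hU' : ∀ x, x ∈ U' ↔ x ∈ U) (x : A) :
    x ∈ isotypicComponent ↥(opR K (A := A) N) A ↥U' ↔ x ∈ (isoM N U : Submodule K A) := by
  obtain ⟨o1, o2, -, -⟩ := op_sub (K := K) (A := A) N
  constructor
  · have hst : St N (isoM N U : Submodule K A) := by
      intro g hg y hy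
      refine op_comp_sSup_ind {V : Submodule K A | St N V ∧ IsoN N V U}
        (fun y => g • y ∈ (isoM N U : Submodule K A)) ?_ ?_ ?_ y hy
      · intro V hV z hz
        exact (le_sSup hV : V ≤ isoM N U) (hV.1 g hg z hz)
      · rw [smul_zero]; exact Submodule.zero_mem _
      · intro a b ha hb
        rw [smul_add]; exact Submodule.add_mem _ ha hb
    obtain ⟨X', hX'⟩ := o1 _ hst
    have hle : isotypicComponent ↥(opR K (A := A) N) A ↥U' ≤ X' := by
      refine sSup_le ?_
      rintro m hm
      obtain ⟨V, hV, hVm⟩ := o2 m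
      have hiso : IsoN N V U :=
        (op_iso N V U hV hU m U' (fun x => (hVm x).symm) hU').2 hm
      intro z hz
      rw [hX']
      exact (le_sSup ⟨hV, hiso⟩ : V ≤ isoM N U) ((hVm z).2 hz)
    intro hx
    exact (hX' x).1 (hle hx)
  · obtain ⟨Y, hY, hYm⟩ := o2 (isotypicComponent ↥(opR K (A := A) N) A ↥U')
    have hle : (isoM N U : Submodule K A) ≤ Y := by
      refine sSup_le ?_
      rintro V ⟨hV, hiso⟩
      obtain ⟨V', hV'⟩ := o1 V hV
      have h1 : Nonempty (↥V' ≃ₗ[↥(opR K (A := A) N)] ↥U') :=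
        (op_iso N V U hV hU V' U' hV' hU').1 hiso
      intro z hz
      rw [hYm]
      exact (le_sSup h1 : V' ≤ isotypicComponent ↥(opR K (A := A) N) A ↥U') ((hV' z).2 hz)
    intro hx
    exact (hYm x).1 (hle hx)

end Pool.Agent.Helper294.HallM
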