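import Pool.Agent.Helper294.HallM.Defs

set_option autoImplicit false

namespace Pool.Agent.Helper294.HallM

open Module Pool.Agent.Helper946.HC


theorem clif_min {K G A : Type} [DivisionRing K] [Group G] [AddCommGroup A] [Module K A]
    [DistribMulAction G A] (N : Subgroup G) (U₀ : Submodule K A) (h0 : U₀ ≠ ⊥)
    (hfd : FiniteDimensional K U₀) (hst : St N U₀) :
    ∃ U ≤ U₀, U ≠ ⊥ ∧ FiniteDimensional K U ∧ St N U ∧ ∀ V ≤ U, St N V → V = ⊥ ∨ V = U := by
  classical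
  have hex : ∃ k : ℕ, ∃ U : Submodule K A, U ≤ U₀ ∧ U ≠ ⊥ ∧ St N U ∧ finrank K U = k :=
    ⟨finrank K U₀, U₀, le_refl _, h0, hst, rfl⟩
  obtain ⟨U, hU, hne, hs, hk⟩ := Nat.find_spec hex
  have hf : FiniteDimensional K U := Submodule.finiteDimensional_of_le hU
  refine ⟨U, hU, hne, hf, hs, fun V hV hVs => ?_⟩
  by_cases hVb : V = ⊥
  · exact Or.inl hVb
  · right
    have h1 : Nat.find hex ≤ finrank K V := Nat.find_min' hex ⟨V, hV.trans hU, hVb, hVs, rfl⟩
    rw [← hk] at h1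
    exact Submodule.eq_of_le_of_finrank_le hV h1


end Pool.Agent.Helper294.HallM
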