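import Pool.Agent.Helper294.HallM.Defs
import Pool.Agent.Helper294.HallM.ClifL
import Pool.Agent.Helper294.HallM.GmStable
import Pool.Agent.Helper294.HallM.OpComp
import Pool.Agent.Helper294.HallM.OpIso
import Pool.Agent.Helper294.HallM.OpNorm
import Pool.Agent.Helper294.HallM.OpSub

set_option autoImplicit false

namespace Pool.Agent.Helper294.HallM

open Module Pool.Agent.Helper946.HC


theorem clif_ind_sSup_ind {R M : Type} [Ring R] [AddCommGroup M] [Module R M]
    (S : Set (Submodule R M)) (P : M → Prop) (hm : ∀ V ∈ S, ∀ x ∈ V, P x) (h0 : P 0)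
    (ha : ∀ x y, P x → P y → P (x + y)) : ∀ x ∈ sSup S, P x := by
  intro x hx
  rw [sSup_eq_iSup'] at hx
  exact Submodule.iSup_induction (fun i : S => (i : Submodule R M)) (motive := P) hx
    (fun i y hy => hm i i.2 y hy) h0 ha

theorem clif_ind_refl {K G A : Type} [DivisionRing K] [Group G] [AddCommGroup A] [Module K A]
    [DistribMulAction G A] (N : Subgroup G) (U : Submodule K A) : IsoN N U U :=
  ⟨LinearEquiv.refl K U, fun _ _ _ _ h => h⟩

theorem clif_ind_symm {K G A : Type} [DivisionRing K] [Group G] [AddCommGroup A] [Module K A]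
    [DistribMulAction G A] {N : Subgroup G} {U V : Submodule K A} (hU : St N U)
    (h : IsoN N U V) : IsoN N V U := by
  obtain ⟨f, hf⟩ := h
  refine ⟨f.symm, fun n hn x y hxy => ?_⟩
  have h1 := hf n hn (f.symm x) ⟨n • ((f.symm x : U) : A), hU n hn _ (f.symm x).2⟩ rfl
  rw [LinearEquiv.apply_symm_apply, ← hxy] at h1
  have h2 : f ⟨n • ((f.symm x : U) : A), hU n hn _ (f.symm x).2⟩ = y := Subtype.ext h1
  rw [← h2, LinearEquiv.symm_apply_apply]

theorem clif_ind_trans {K G A : Type} [DivisionRing K] [Group G] [AddCommGroup A] [Module K A]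
    [DistribMulAction G A] {N : Subgroup G} {U V W : Submodule K A}
    (h : IsoN N U V) (h' : IsoN N V W) : IsoN N U W := by
  obtain ⟨f, hf⟩ := h
  obtain ⟨f', hf'⟩ := h'
  exact ⟨f.trans f', fun n hn x y hxy => hf' n hn _ _ (hf n hn x y hxy)⟩

theorem clif_ind_gm_mul {K G A : Type} [DivisionRing K] [Group G] [AddCommGroup A] [Module K A]
    [DistribMulAction G A] (hs : ∀ g : G, Semi K (ac g : A ≃+ A)) (g h : G) (U : Submodule K A) :
    (gm (g * h) U : Submodule K A) = gm g (gm h U) := by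
  ext x
  rw [(gm_stable hs U).1, (gm_stable hs (gm h U)).1, (gm_stable hs U).1, mul_inv_rev, mul_smul]

theorem clif_ind_gm_one {K G A : Type} [DivisionRing K] [Group G] [AddCommGroup A] [Module K A]
    [DistribMulAction G A] (hs : ∀ g : G, Semi K (ac g : A ≃+ A)) (U : Submodule K A) :
    (gm (1 : G) U : Submodule K A) = U := by
  ext x
  rw [(gm_stable hs U).1, inv_one, one_smul]

theorem clif_ind_gm_St {K G A : Type} [DivisionRing K] [Group G] [AddCommGroup A] [Module K A]
    [DistribMulAction G A] (hs : ∀ g : G, Semi K (ac g : A ≃+ A)) {N : Subgroup G}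
    (hN : N.Normal) (g : G) {U : Submodule K A} (hU : St N U) :
    St N (gm g U : Submodule K A) := by
  intro n hn x hx
  rw [(gm_stable hs U).1] at hx ⊢
  have h1 := hU (g⁻¹ * n * g) (by simpa using hN.conj_mem n hn g⁻¹) _ hx
  rwa [smul_smul, mul_assoc, mul_assoc, mul_inv_cancel, mul_one, mul_smul] at h1

theorem clif_ind_key {K G A : Type} [DivisionRing K] [Group G] [AddCommGroup A] [Module K A]
    [DistribMulAction G A] (hs : ∀ g : G, Semi K (ac g : A ≃+ A)) {N : Subgroup G}
    (hN : N.Normal) (g : G) {V W : Submodule K A} (h : IsoN N V W) :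
    IsoN N (gm g V) (gm g W) := by
  obtain ⟨f, hf⟩ := h
  obtain ⟨σ, hσ⟩ := hs g
  have hσ1 : ∀ (k : K) (x : A), g • (k • x) = σ k • (g • x) := fun k x => hσ k x
  have hσ2 : ∀ (k : K) (x : A), g⁻¹ • (k • x) = σ.symm k • (g⁻¹ • x) := by
    intro k x
    rw [inv_smul_eq_iff, hσ1, smul_inv_smul, RingEquiv.apply_symm_apply]
  have mV := (gm_stable hs V).1 g
  have mW := (gm_stable hs W).1 g
  refine ⟨{ toFun := fun x => ⟨g • ((f ⟨g⁻¹ • (x : A), (mV x).1 x.2⟩ : W) : A), ?_⟩
            map_add' := ?_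
            map_smul' := ?_
            invFun := fun x => ⟨g • ((f.symm ⟨g⁻¹ • (x : A), (mW x).1 x.2⟩ : V) : A), ?_⟩
            left_inv := ?_
            right_inv := ?_ }, ?_⟩
  · rw [mW, inv_smul_smul]
    exact (f _).2
  · intro x y
    apply Subtype.ext
    have : (⟨g⁻¹ • ((x + y : gm g V) : A), (mV (x + y : gm g V)).1 (x + y).2⟩ : V)
        = ⟨g⁻¹ • (x : A), (mV x).1 x.2⟩ + ⟨g⁻¹ • (y : A), (mV y).1 y.2⟩ := by
      apply Subtype.ext
      simp [smul_add]
    refine (congrArg (fun z : V => g • ((f z : W) : A)) this).trans ?_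
    change g • ((f (_ + _) : W) : A) = g • _ + g • _
    rw [map_add, Submodule.coe_add, smul_add]
  · intro k x
    apply Subtype.ext
    have : (⟨g⁻¹ • ((k • x : gm g V) : A), (mV (k • x : gm g V)).1 (k • x).2⟩ : V)
        = σ.symm k • ⟨g⁻¹ • (x : A), (mV x).1 x.2⟩ := by
      apply Subtype.ext
      simp only [Submodule.coe_smul, hσ2]
    refine (congrArg (fun z : V => g • ((f z : W) : A)) this).trans ?_
    change g • ((f (σ.symm k • _) : W) : A) = k • g • _
    rw [map_smul, Submodule.coe_smul, hσ1, RingEquiv.apply_symm_apply]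
  · rw [mV, inv_smul_smul]
    exact (f.symm _).2
  · intro x
    apply Subtype.ext
    simp
  · intro x
    apply Subtype.ext
    simp
  · intro n hn x y hxy
    change g • ((f ⟨g⁻¹ • (y : A), _⟩ : W) : A) = n • g • ((f ⟨g⁻¹ • (x : A), _⟩ : W) : A)
    have h1 := hf (g⁻¹ * n * g) (by simpa using hN.conj_mem n hn g⁻¹)
      ⟨g⁻¹ • (x : A), (mV x).1 x.2⟩ ⟨g⁻¹ • (y : A), (mV y).1 y.2⟩ (by
        change g⁻¹ • (y : A) = (g⁻¹ * n * g) • g⁻¹ • (x : A)
        rw [hxy, mul_smul, smul_inv_smul, mul_smul])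
    rw [h1, smul_smul, smul_smul]
    congr 1
    group

theorem clif_ind {K G A : Type} [DivisionRing K] [Group G] [AddCommGroup A] [Module K A]
    [DistribMulAction G A] (hs : ∀ g : G, Semi K (ac g : A ≃+ A)) (N : Subgroup G)
    (hN : N.Normal) (U : Submodule K A) (h0 : U ≠ ⊥) (hU : St N U)
    (hmin : ∀ V ≤ U, St N V → V = ⊥ ∨ V = U) (L : Subgroup G)
    (hL : ∀ g, g ∈ L ↔ IsoN N (gm g U) U) : Ind L (isoM N U : Submodule K A) := by
  intro s f hsL hfM hsum g hg
  obtain ⟨o1, o2, -, -⟩ := op_sub (K := K) (A := A) N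
  have hgst : ∀ g : G, St N (gm g U : Submodule K A) := fun g => clif_ind_gm_St hs hN g hU
  choose W hW using fun g : G => o1 (gm g U) (hgst g)
  -- simplicity
  have hsimple : ∀ g : G, IsSimpleModule ↥(opR K (A := A) N) (W g) := by
    intro g
    rw [isSimpleModule_iff_isAtom]
    refine ⟨?_, ?_⟩
    · intro h
      apply h0
      rw [Submodule.eq_bot_iff]
      intro x hx
      have h1 : g • x ∈ W g := by
        rw [hW, (gm_stable hs U).1, inv_smul_smul]
        exact hx
      rw [h, Submodule.mem_bot] at h1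
      exact (smul_eq_zero_iff_eq g).1 h1
    · intro B hB
      obtain ⟨V, hV, hVB⟩ := o2 B
      have hle : (gm g⁻¹ V : Submodule K A) ≤ U := by
        intro x hx
        rw [(gm_stable hs V).1, inv_inv, hVB] at hx
        have h1 := hB.le hx
        rw [hW, (gm_stable hs U).1, inv_smul_smul] at h1
        exact h1
      rcases hmin _ hle (clif_ind_gm_St hs hN g⁻¹ hV) with h | h
      · rw [Submodule.eq_bot_iff]
        intro x hx
        have h1 : g⁻¹ • x ∈ (gm g⁻¹ V : Submodule K A) := by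
          rw [(gm_stable hs V).1, inv_smul_smul, hVB]
          exact hx
        rw [h, Submodule.mem_bot] at h1
        exact (smul_eq_zero_iff_eq g⁻¹).1 h1
      · exfalso
        apply hB.not_ge
        intro x hx
        rw [hW, (gm_stable hs U).1, ← h, (gm_stable hs V).1, inv_inv, smul_inv_smul, hVB] at hx
        exact hx
  have hfX : ∀ g ∈ s, f g ∈ isotypicComponent ↥(opR K (A := A) N) A ↥(W g) := by
    intro g hg
    rw [op_comp N (gm g U) (hgst g) (W g) (hW g)]
    have h1 := hfM g hg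
    have h2 := clif_ind_sSup_ind {V : Submodule K A | St N V ∧ IsoN N V U}
      (fun y => g • y ∈ (isoM N (gm g U) : Submodule K A)) (by
        intro V hV z hz
        have h1 : (gm g V : Submodule K A) ≤ isoM N (gm g U) :=
          le_sSup ⟨clif_ind_gm_St hs hN g hV.1, clif_ind_key hs hN g hV.2⟩
        apply h1
        rw [(gm_stable hs V).1, inv_smul_smul]
        exact hz) (by rw [smul_zero]; exact Submodule.zero_mem _) (by
        intro a b ha hb
        rw [smul_add]; exact Submodule.add_mem _ ha hb) _ h1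
    simpa using h2
  have hne : ∀ g ∈ s, ∀ h ∈ s, g ≠ h → isotypicComponent ↥(opR K (A := A) N) A ↥(W g) ≠
      isotypicComponent ↥(opR K (A := A) N) A ↥(W h) := by
    intro g hg h hh hgh heq
    haveI := hsimple g
    haveI := hsimple h
    have hle : W h ≤ isotypicComponent ↥(opR K (A := A) N) A ↥(W g) := by
      rw [heq]
      exact (W h).le_isotypicComponent
    have h1 := isIsotypicOfType_submodule_iff.mp
      (.isotypicComponent ↥(opR K (A := A) N) A ↥(W g)) _ hle
    have h2 := (op_iso N (gm h U) (gm g U) (hgst h) (hgst g) (W h) (W g) (hW h) (hW g)).2 h1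
    have h3 := clif_ind_key hs hN g⁻¹ h2
    rw [← clif_ind_gm_mul hs, ← clif_ind_gm_mul hs, inv_mul_cancel, clif_ind_gm_one hs] at h3
    exact hsL g hg h hh hgh ((hL _).2 h3)
  classical
  have hsp : f g = -∑ h ∈ s.erase g, f h := by
    rw [← Finset.add_sum_erase s f hg] at hsum
    exact eq_neg_of_add_eq_zero_left hsum
  have hdis := sSupIndep_isotypicComponents ↥(opR K (A := A) N) A
    (show isotypicComponent ↥(opR K (A := A) N) A ↥(W g) ∈ _ from ⟨W g, hsimple g, rfl⟩)
  rw [Submodule.disjoint_def] at hdis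
  refine hdis (f g) (hfX g hg) ?_
  rw [hsp]
  refine Submodule.neg_mem _ (Submodule.sum_mem _ fun h hh => ?_)
  have hh' := Finset.mem_erase.1 hh
  refine (le_sSup ?_ : isotypicComponent ↥(opR K (A := A) N) A ↥(W h) ≤ _) (hfX h hh'.2)
  refine ⟨⟨W h, hsimple h, rfl⟩, ?_⟩
  intro heq
  exact hne h hh'.2 g hg hh'.1 heq

end Pool.Agent.Helper294.HallM
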