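import Pool.Agent.Helper294.HallM.Defs
import Pool.Agent.Helper294.HallM.GmStable

set_option autoImplicit false

namespace Pool.Agent.Helper294.HallM

open Module Pool.Agent.Helper946.HC


theorem ind_noe {K G A : Type} [DivisionRing K] [Group G] [AddCommGroup A] [Module K A]
    [DistribMulAction G A] (hs : ∀ g : G, Semi K (ac g : A ≃+ A)) (L : Subgroup G)
    (M : Submodule K A) (hM : St L M) (hi : Ind L M)
    (hN : NoethFor (Set.univ : Set G) (⊤ : Submodule K A)) : NoethFor (L : Set G) M := by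
  intro f hf hst
  have hstL : ∀ n, ∀ g ∈ L, ∀ x ∈ f n, g • x ∈ f n := fun n => (hst n).2
  have hmem : ∀ n (g : G) (x : A), x ∈ (gm g (f n) : Submodule K A) ↔ g⁻¹ • x ∈ f n :=
    fun n => (gm_stable hs (f n)).1
  have hFmono : Monotone (fun n => ⨆ g : G, (gm g (f n) : Submodule K A)) := by
    intro a b hab
    refine iSup_mono fun g x hx => ?_
    rw [hmem] at hx ⊢
    exact hf hab hx
  obtain ⟨N, hNN⟩ := hN (fun n => ⨆ g : G, (gm g (f n) : Submodule K A)) hFmono
    (fun n => ⟨le_top, fun g _ x hx => (gm_stable hs (f n)).2.1 g (Subgroup.mem_top g) x hx⟩)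
  refine ⟨N, fun m hm => le_antisymm ?_ (hf hm)⟩
  intro x hx
  have hxM : x ∈ M := (hst m).1 hx
  have hx1 : x ∈ ⨆ g : G, (gm g (f m) : Submodule K A) := (gm_stable hs (f m)).2.2 hx
  rw [show (⨆ g : G, (gm g (f m) : Submodule K A)) = ⨆ g : G, (gm g (f N) : Submodule K A) from
    hNN m hm] at hx1
  have hle : (⨆ g : G, (gm g (f N) : Submodule K A)) ≤
      ⨆ c : G ⧸ L, (gm (Quotient.out c) (f N) : Submodule K A) := by
    refine iSup_le fun g => ?_
    refine le_trans ?_ (le_iSup (fun c : G ⧸ L => (gm (Quotient.out c) (f N) : Submodule K A))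
      (QuotientGroup.mk g))
    intro y hy
    rw [hmem] at hy ⊢
    have h1 : (Quotient.out (QuotientGroup.mk g : G ⧸ L))⁻¹ * g ∈ L :=
      QuotientGroup.eq.1 (QuotientGroup.out_eq' (QuotientGroup.mk g : G ⧸ L))
    have h2 := hstL N _ h1 _ hy
    rwa [← mul_smul, mul_assoc, mul_inv_cancel, mul_one] at h2
  have hx2 := hle hx1
  rw [Submodule.mem_iSup_iff_exists_finsupp] at hx2
  obtain ⟨φ, hφ, hsum⟩ := hx2
  classical
  let c0 : G ⧸ L := QuotientGroup.mk 1
  have hc0 : Quotient.out c0 ∈ L := by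
    have h1 : (Quotient.out (QuotientGroup.mk 1 : G ⧸ L))⁻¹ * 1 ∈ L :=
      QuotientGroup.eq.1 (QuotientGroup.out_eq' (QuotientGroup.mk 1 : G ⧸ L))
    rw [mul_one] at h1
    exact (inv_mem_iff).1 h1
  have hinj : Function.Injective (Quotient.out : G ⧸ L → G) := Quotient.out_injective
  have key := hi ((insert c0 φ.support).image Quotient.out)
    (fun g => φ (QuotientGroup.mk g) - (if (QuotientGroup.mk g : G ⧸ L) = c0 then x else 0))
    (by
      intro g hg h hh hgh hL
      obtain ⟨c, _, rfl⟩ := Finset.mem_image.1 hg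
      obtain ⟨d, _, rfl⟩ := Finset.mem_image.1 hh
      apply hgh
      have := QuotientGroup.eq.2 hL
      rw [QuotientGroup.out_eq', QuotientGroup.out_eq'] at this
      rw [this])
    (by
      intro g hg
      obtain ⟨c, _, rfl⟩ := Finset.mem_image.1 hg
      simp only [QuotientGroup.out_eq']
      rw [smul_sub]
      refine M.sub_mem ?_ ?_
      · exact (hst N).1 ((hmem N _ _).1 (hφ c))
      · split_ifs with h
        · rw [h]
          exact hM _ (inv_mem hc0) _ hxM
        · rw [smul_zero]; exact M.zero_mem)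
    (by
      rw [Finset.sum_image (fun a _ b _ h => hinj h)]
      simp only [QuotientGroup.out_eq']
      rw [Finset.sum_sub_distrib, Finset.sum_ite_eq', if_pos (Finset.mem_insert_self _ _)]
      rw [sub_eq_zero, ← hsum, Finsupp.sum]
      refine (Finset.sum_subset (Finset.subset_insert _ _) ?_).symm
      intro c _ hc
      exact Finsupp.notMem_support_iff.1 hc)
    (Quotient.out c0) (Finset.mem_image_of_mem _ (Finset.mem_insert_self _ _))
  simp only [QuotientGroup.out_eq', if_true] at key
  have h3 := (hmem N _ _).1 (hφ c0)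
  rw [sub_eq_zero.1 key] at h3
  have h4 := hstL N _ hc0 _ h3
  rwa [smul_inv_smul] at h4

end Pool.Agent.Helper294.HallM
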