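import Pool.Agent.Helper294.HallM.Defs
import Pool.Agent.Helper294.HallM.FgOfNoe

set_option autoImplicit false

namespace Pool.Agent.Helper294.HallM

open Module Pool.Agent.Helper946.HC


theorem sub_sys {K G A Q : Type} [DivisionRing K] [Group G] [AddCommGroup A] [Module K A]
    [DistribMulAction G A] [Group Q] {ρ : G →* Q}
    (hN : NoethFor (Set.univ : Set G) (⊤ : Submodule K A)) (hS : Sys K G A Q ρ)
    (B : Submodule K A) (hB : St (⊤ : Subgroup G) B) :
    ∃ (_ : DistribMulAction G ↥B), (∀ (g : G) (x : ↥B), ((g • x : ↥B) : A) = g • (x : A)) ∧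
      Sys K G ↥B Q ρ := by
  classical
  have hB' : ∀ (g : G) (x : A), x ∈ B → g • x ∈ B := fun g x hx => hB g (Subgroup.mem_top g) x hx
  let act : DistribMulAction G ↥B :=
    { smul := fun g x => ⟨g • (x : A), hB' g x x.2⟩
      one_smul := fun x => Subtype.ext (one_smul G (x : A))
      mul_smul := fun g h x => Subtype.ext (mul_smul g h (x : A))
      smul_zero := fun g => Subtype.ext (smul_zero g)
      smul_add := fun g x y => Subtype.ext (smul_add g (x : A) (y : A)) }
  have hcoe : ∀ (g : G) (x : ↥B), ((g • x : ↥B) : A) = g • (x : A) := fun _ _ => rfl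
  refine ⟨act, hcoe, ?_, ?_, ?_⟩
  · intro g
    obtain ⟨σ, hσ⟩ := hS.semi g
    refine ⟨σ, fun k x => Subtype.ext ?_⟩
    exact hσ k (x : A)
  · intro g hg
    obtain ⟨c, hc⟩ := hS.scal g hg
    exact ⟨c, fun a => Subtype.ext (hc a)⟩
  · have hNB : NoethFor ((⊤ : Subgroup G) : Set G) B := by
      intro f hf h
      exact hN f hf fun n => ⟨le_top, fun g _ x hx => (h n).2 g (Subgroup.mem_top g) x hx⟩
    obtain ⟨S, hS1, hS2⟩ := fg_of_noe hS.semi ⊤ B hB hNB
    refine ⟨S.subtype (fun x => x ∈ B), ?_⟩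
    have key : Submodule.span K {x : A | ∃ g ∈ (⊤ : Subgroup G), ∃ s ∈ S, x = g • s} ≤
        (Submodule.span K {x : ↥B | ∃ g : G, ∃ s ∈ S.subtype (fun x => x ∈ B), x = g • s}).map B.subtype := by
      rw [Submodule.span_le]
      rintro _ ⟨g, -, s, hs, rfl⟩
      refine ⟨g • (⟨s, hS1 s hs⟩ : ↥B), Submodule.subset_span ⟨g, ⟨s, hS1 s hs⟩, ?_, rfl⟩, rfl⟩
      rw [Finset.mem_subtype]
      exact hs
    rw [eq_top_iff]
    intro x _
    have hx : (x : A) ∈ Submodule.span K {x : A | ∃ g ∈ (⊤ : Subgroup G), ∃ s ∈ S, x = g • s} := by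
      rw [← hS2]; exact x.2
    obtain ⟨z, hz, hzx⟩ := key hx
    have : z = x := Subtype.ext hzx
    rw [← this]
    exact hz

end Pool.Agent.Helper294.HallM
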