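import Pool.Agent.Helper294.HallM.Defs

set_option autoImplicit false

namespace Pool.Agent.Helper294.HallM

open Module Pool.Agent.Helper946.HC


theorem tors_restrict {K G A Q : Type} [DivisionRing K] [Group G] [AddCommGroup A] [Module K A]
    [DistribMulAction G A] [Group Q] (ρ : G →* Q) {r : ℕ}
    (ε : Multiplicative (Fin r → ℤ) →* Q) (B : Submodule K A) [DistribMulAction G ↥B]
    (hc : ∀ (g : G) (x : ↥B), ((g • x : ↥B) : A) = g • (x : A)) (x : ↥B)
    (hx : Tors (K := K) ρ ε (x : A)) : Tors (K := K) ρ ε x := by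
  obtain ⟨F, v, hv, g, hg, hmem⟩ := hx
  refine ⟨F, v, hv, g, hg, ?_⟩
  have hmap : (tr ρ ε (F : Set (Fin r → ℤ)) (x : A) : Submodule K A) =
      (tr ρ ε (F : Set (Fin r → ℤ)) x : Submodule K ↥B).map B.subtype := by
    unfold tr
    rw [Submodule.map_span]
    congr 1
    ext y
    constructor
    · rintro ⟨h, f, hf, hhf, rfl⟩
      exact ⟨h • x, ⟨h, f, hf, hhf, rfl⟩, hc h x⟩
    · rintro ⟨z, ⟨h, f, hf, hhf, rfl⟩, rfl⟩
      exact ⟨h, f, hf, hhf, hc h x⟩
  rw [hmap, ← hc g x] at hmem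
  obtain ⟨z, hz, hzx⟩ := Submodule.mem_map.1 hmem
  have h1 : z = g • x := Subtype.ext hzx
  rw [← h1]
  exact hz

end Pool.Agent.Helper294.HallM
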