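import Pool.Agent.Helper294.HallM.Defs

set_option autoImplicit false

namespace Pool.Agent.Helper294.HallM

open Module Pool.Agent.Helper946.HC


theorem tors_growth_lexlt {r : ℕ} (x y : Fin r → ℤ) :
    toLex x < toLex y ↔ ∃ i, (∀ j, j < i → x j = y j) ∧ x i < y i := Iff.rfl

theorem tors_growth_main {K A : Type} [DivisionRing K] [AddCommGroup A] [Module K A] {r : ℕ}
    (b : (Fin r → ℤ) → A) (D : Finset (Fin r → ℤ))
    (hD : ∀ δ ∈ D, toLex δ < toLex (0 : Fin r → ℤ))
    (hb : ∀ v, b v ∈ Submodule.span K (b '' ((fun δ => v + δ) '' (D : Set (Fin r → ℤ))))) :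
    ∃ C : ℕ, ∀ n : ℕ,
      finrank K (Submodule.span K (b '' {v | ∀ i, 0 ≤ v i ∧ v i ≤ (n : ℤ)})) ≤
        C * (n + 1) ^ (r - 1) := by
  classical
  obtain ⟨c, hc⟩ : ∃ c : ℕ, ∀ δ ∈ D, ∀ i, |δ i| ≤ (c : ℤ) := by
    refine ⟨∑ δ ∈ D, ∑ i, (δ i).natAbs, ?_⟩
    intro δ hδ i
    have h1 : (δ i).natAbs ≤ ∑ i, (δ i).natAbs :=
      Finset.single_le_sum (f := fun i => (δ i).natAbs) (fun _ _ => Nat.zero_le _)
        (Finset.mem_univ i)
    have h2 : ∑ i, (δ i).natAbs ≤ ∑ δ ∈ D, ∑ i, (δ i).natAbs :=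
      Finset.single_le_sum (f := fun δ : Fin r → ℤ => ∑ i, (δ i).natAbs)
        (fun _ _ => Nat.zero_le _) hδ
    have h3 := h1.trans h2
    rw [Int.abs_eq_natAbs]
    exact_mod_cast h3
  refine ⟨r * (2 * c), ?_⟩
  intro n
  set Box : Finset (Fin r → ℤ) := Fintype.piFinset (fun _ => Finset.Icc 0 (n : ℤ)) with hBox
  have hBm : ∀ v, v ∈ Box ↔ ∀ i, 0 ≤ v i ∧ v i ≤ (n : ℤ) := by
    intro v
    rw [hBox, Fintype.mem_piFinset]
    simp only [Finset.mem_Icc]
  set NI : Finset (Fin r → ℤ) := Box.filter (fun v => ∃ i, v i < c ∨ (n : ℤ) - c < v i) with hNI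
  set W : Submodule K A := Submodule.span K ((NI.image b : Finset A) : Set A) with hW
  have hspan : ∀ v ∈ Box, b v ∈ W := by
    by_contra hcon
    push Not at hcon
    obtain ⟨v1, hv1, hv1W⟩ := hcon
    obtain ⟨v0, hv0, hmin⟩ := Finset.exists_min_image (Box.filter (fun v => b v ∉ W))
      (fun v => toLex v) ⟨v1, Finset.mem_filter.2 ⟨hv1, hv1W⟩⟩
    rw [Finset.mem_filter] at hv0
    obtain ⟨hv0B, hv0W⟩ := hv0
    apply hv0W
    have hin : ∀ i, (c : ℤ) ≤ v0 i ∧ v0 i ≤ (n : ℤ) - c := by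
      intro i
      by_contra hi
      apply hv0W
      apply Submodule.subset_span
      rw [Finset.mem_coe, Finset.mem_image]
      refine ⟨v0, ?_, rfl⟩
      rw [hNI, Finset.mem_filter]
      refine ⟨hv0B, i, ?_⟩
      rcases not_and_or.1 hi with h | h
      · left; linarith [not_le.1 h]
      · right; linarith [not_le.1 h]
    refine (Submodule.span_le.2 ?_) (hb v0)
    rintro _ ⟨_, ⟨δ, hδ, rfl⟩, rfl⟩
    by_contra hWn
    have hlt : toLex (v0 + δ) < toLex v0 := by
      have h1 := hD δ hδ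
      rw [tors_growth_lexlt] at h1 ⊢
      obtain ⟨i, h2, h3⟩ := h1
      refine ⟨i, fun j hj => ?_, ?_⟩
      · have := h2 j hj
        simp only [Pi.zero_apply] at this
        rw [Pi.add_apply, this, add_zero]
      · simp only [Pi.zero_apply] at h3
        rw [Pi.add_apply]
        linarith
    have hBδ : v0 + δ ∈ Box := by
      rw [hBm]
      intro i
      have h1 := hc δ hδ i
      rw [abs_le] at h1
      have h2 := hin i
      rw [Pi.add_apply]
      constructor <;> linarith [h1.1, h1.2, h2.1, h2.2]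
    have h4 := hmin (v0 + δ) (Finset.mem_filter.2 ⟨hBδ, hWn⟩)
    exact absurd hlt (not_lt.2 h4)
  have hle : Submodule.span K (b '' {v | ∀ i, 0 ≤ v i ∧ v i ≤ (n : ℤ)}) ≤ W := by
    rw [Submodule.span_le]
    rintro _ ⟨v, hv, rfl⟩
    exact hspan v ((hBm v).2 hv)
  have hcard : NI.card ≤ r * (2 * c) * (n + 1) ^ (r - 1) := by
    let T : Fin r → Finset (Fin r → ℤ) := fun i =>
      Fintype.piFinset (Function.update (fun _ => Finset.Icc 0 (n : ℤ)) i
        (Finset.Ico 0 (c : ℤ) ∪ Finset.Ioc ((n : ℤ) - c) n))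
    have hsub : NI ⊆ Finset.univ.biUnion T := by
      intro v hv
      rw [hNI, Finset.mem_filter, hBm] at hv
      obtain ⟨hv1, i, hv2⟩ := hv
      rw [Finset.mem_biUnion]
      refine ⟨i, Finset.mem_univ _, ?_⟩
      simp only [T]
      rw [Fintype.mem_piFinset]
      intro j
      by_cases hj : j = i
      · subst hj
        rw [Function.update_self, Finset.mem_union, Finset.mem_Ico, Finset.mem_Ioc]
        rcases hv2 with h | h
        · exact Or.inl ⟨(hv1 j).1, h⟩
        · exact Or.inr ⟨h, (hv1 j).2⟩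
      · rw [Function.update_of_ne hj, Finset.mem_Icc]
        exact hv1 j
    have hT : ∀ i, (T i).card ≤ 2 * c * (n + 1) ^ (r - 1) := by
      intro i
      simp only [T]
      rw [Fintype.card_piFinset, ← Finset.mul_prod_erase _ _ (Finset.mem_univ i),
        Function.update_self]
      have h1 : ∏ j ∈ Finset.univ.erase i, (Function.update (fun _ => Finset.Icc 0 (n : ℤ)) i
        (Finset.Ico 0 (c : ℤ) ∪ Finset.Ioc ((n : ℤ) - c) n) j).card = (n + 1) ^ (r - 1) := by
        rw [Finset.prod_congr rfl (g := fun _ => n + 1), Finset.prod_const,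
          Finset.card_erase_of_mem (Finset.mem_univ i), Finset.card_univ, Fintype.card_fin]
        intro j hj
        rw [Function.update_of_ne (Finset.ne_of_mem_erase hj), Int.card_Icc]
        omega
      rw [h1]
      refine Nat.mul_le_mul_right _ ?_
      refine (Finset.card_union_le _ _).trans ?_
      rw [Int.card_Ico, Int.card_Ioc]
      omega
    calc NI.card ≤ (Finset.univ.biUnion T).card := Finset.card_le_card hsub
      _ ≤ ∑ i, (T i).card := Finset.card_biUnion_le
      _ ≤ ∑ _i : Fin r, 2 * c * (n + 1) ^ (r - 1) := Finset.sum_le_sum (fun i _ => hT i)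
      _ = r * (2 * c) * (n + 1) ^ (r - 1) := by
        rw [Finset.sum_const, Finset.card_univ, Fintype.card_fin, smul_eq_mul]
        ring
  calc finrank K (Submodule.span K (b '' {v | ∀ i, 0 ≤ v i ∧ v i ≤ (n : ℤ)}))
      ≤ finrank K W := Submodule.finrank_mono hle
    _ ≤ (NI.image b).card := finrank_span_finset_le_card _
    _ ≤ NI.card := Finset.card_image_le
    _ ≤ _ := hcard

theorem tors_growth {K G A Q : Type} [DivisionRing K] [Group G] [AddCommGroup A] [Module K A]
    [DistribMulAction G A] [Group Q] {ρ : G →* Q} (hρ : Function.Surjective ρ)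
    (hs : ∀ g : G, Semi K (ac g : A ≃+ A))
    (hsc : ∀ g : G, ρ g = 1 → ∃ c : K, ∀ a : A, g • a = c • a) {r : ℕ} (hr : 0 < r)
    (ε : Multiplicative (Fin r → ℤ) →* Q) (hinj : Function.Injective ε) (a : A)
    (ha : Tors (K := K) ρ ε a) :
    ∃ C : ℕ, ∀ n : ℕ,
      finrank K (tr ρ ε {v | ∀ i, 0 ≤ v i ∧ v i ≤ (n : ℤ)} a : Submodule K A) ≤
        C * (n + 1) ^ (r - 1) := by
  classical
  choose y hy using fun v : Fin r → ℤ => hρ (ε (Multiplicative.ofAdd v))
  have hfact : ∀ g g' : G, ρ g = ρ g' → ∃ c : K, g • a = c • (g' • a) := by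
    intro g g' hgg
    obtain ⟨c, hc⟩ := hsc (g'⁻¹ * g) (by rw [map_mul, map_inv, hgg, inv_mul_cancel])
    obtain ⟨σ, hσ⟩ := hs g'
    refine ⟨σ c, ?_⟩
    have h1 : g • a = g' • ((g'⁻¹ * g) • a) := by
      rw [← mul_smul, mul_inv_cancel_left]
    rw [h1, hc a]
    exact hσ c a
  have hmul : ∀ (g : G) (w v : Fin r → ℤ), ρ g = ε (Multiplicative.ofAdd w) →
      ρ (g * y v) = ρ (y (w + v)) := by
    intro g w v hg
    rw [map_mul, hg, hy, hy, ← map_mul]
    rfl
  obtain ⟨F, v, hvF, g, hg, hga⟩ := ha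
  have htr : ∀ S : Set (Fin r → ℤ), (tr ρ ε S a : Submodule K A) ≤
      Submodule.span K ((fun v => y v • a) '' S) := by
    intro S
    unfold tr
    rw [Submodule.span_le]
    rintro _ ⟨g', f, hf, hgf, rfl⟩
    obtain ⟨c, hc⟩ := hfact g' (y f) (by rw [hgf, hy])
    rw [hc]
    exact Submodule.smul_mem _ _ (Submodule.subset_span ⟨f, hf, rfl⟩)
  have hnli : ¬ LinearIndependent K (fun v => y v • a) := by
    intro hli
    have h1 := hli.notMem_span_image (s := (F : Set (Fin r → ℤ))) (x := v) (by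
      rw [Finset.mem_coe]; exact hvF)
    apply h1
    obtain ⟨c, hc⟩ := hfact (y v) g (by rw [hg, hy])
    rw [hc]
    exact Submodule.smul_mem _ _ (htr _ hga)
  rw [not_linearIndependent_iff] at hnli
  obtain ⟨s, k, hsum, i0, hi0, hk0⟩ := hnli
  obtain ⟨f0, hf0, hmax⟩ := Finset.exists_max_image (s.filter (fun i => k i ≠ 0))
      (fun v => toLex v) ⟨i0, Finset.mem_filter.2 ⟨hi0, hk0⟩⟩
  set S := (s.filter (fun i => k i ≠ 0)).erase f0 with hS
  have hkf0 : k f0 ≠ 0 := (Finset.mem_filter.1 hf0).2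
  have hbf0 : y f0 • a ∈ Submodule.span K ((fun v => y v • a) '' (S : Set (Fin r → ℤ))) := by
    have h1 : ∑ i ∈ s.filter (fun i => k i ≠ 0), k i • (y i • a) = 0 := by
      rw [← hsum]
      apply Finset.sum_filter_of_ne
      intro i _ hne h0
      apply hne
      rw [h0, zero_smul]
    rw [← Finset.add_sum_erase _ _ hf0] at h1
    have h2 : y f0 • a = (k f0)⁻¹ • (-∑ i ∈ S, k i • (y i • a)) := by
      rw [← eq_neg_of_add_eq_zero_left h1, smul_smul, inv_mul_cancel₀ hkf0, one_smul]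
    rw [h2]
    refine Submodule.smul_mem _ _ (Submodule.neg_mem _ (Submodule.sum_mem _ ?_))
    intro i hi
    exact Submodule.smul_mem _ _ (Submodule.subset_span ⟨i, hi, rfl⟩)
  set D : Finset (Fin r → ℤ) := S.image (fun x => x - f0) with hDdef
  obtain ⟨C, hC⟩ := tors_growth_main (K := K) (fun v => y v • a) D (by
    intro δ hδ
    rw [hDdef, Finset.mem_image] at hδ
    obtain ⟨x, hx, rfl⟩ := hδ
    rw [hS, Finset.mem_erase] at hx
    have h1 : toLex x < toLex f0 := lt_of_le_of_ne (hmax x hx.2) (fun h => hx.1 (toLex.injective h))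
    rw [tors_growth_lexlt] at h1 ⊢
    obtain ⟨i, h2, h3⟩ := h1
    refine ⟨i, fun j hj => ?_, ?_⟩
    · simp [h2 j hj]
    · simp only [Pi.sub_apply, Pi.zero_apply]
      linarith) (by
    intro w
    set g1 := y (w - f0) with hg1
    have hg1ρ : ρ g1 = ε (Multiplicative.ofAdd (w - f0)) := hy _
    have h1 : ∀ x ∈ Submodule.span K ((fun v => y v • a) '' (S : Set (Fin r → ℤ))),
        g1 • x ∈ Submodule.span K ((fun v => y v • a) ''
          ((fun δ => w + δ) '' (D : Set (Fin r → ℤ)))) := by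
      intro x hx
      induction hx using Submodule.span_induction with
      | mem x hx =>
        obtain ⟨t, ht, rfl⟩ := hx
        obtain ⟨c, hc⟩ := hfact (g1 * y t) (y ((w - f0) + t)) (hmul g1 (w - f0) t hg1ρ)
        rw [show (fun v => y v • a) t = y t • a from rfl, ← mul_smul, hc]
        refine Submodule.smul_mem _ _ (Submodule.subset_span ⟨(w - f0) + t, ?_, rfl⟩)
        refine ⟨t - f0, ?_, ?_⟩
        · rw [hDdef, Finset.mem_coe, Finset.mem_image]
          exact ⟨t, ht, rfl⟩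
        · show w + (t - f0) = w - f0 + t
          abel
      | zero => rw [smul_zero]; exact Submodule.zero_mem _
      | add x x' _ _ h h' => rw [smul_add]; exact Submodule.add_mem _ h h'
      | smul c x _ h =>
        obtain ⟨σ, hσ⟩ := hs g1
        have h2 : g1 • (c • x) = σ c • (g1 • x) := hσ c x
        rw [h2]
        exact Submodule.smul_mem _ _ h
    obtain ⟨c, hc⟩ := hfact (y w) (g1 * y f0) (by
      rw [hmul g1 (w - f0) f0 hg1ρ, sub_add_cancel])
    show y w • a ∈ _
    rw [hc, mul_smul]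
    exact Submodule.smul_mem _ _ (h1 _ hbf0))
  refine ⟨C, fun n => le_trans ?_ (hC n)⟩
  have hfin : FiniteDimensional K (Submodule.span K ((fun v => y v • a) ''
      {v : Fin r → ℤ | ∀ i, 0 ≤ v i ∧ v i ≤ (n : ℤ)})) := by
    apply FiniteDimensional.span_of_finite
    apply Set.Finite.image
    have : {v : Fin r → ℤ | ∀ i, 0 ≤ v i ∧ v i ≤ (n : ℤ)} ⊆
        ((Fintype.piFinset (fun _ => Finset.Icc 0 (n : ℤ)) : Finset (Fin r → ℤ)) :
          Set (Fin r → ℤ)) := by
      intro v hv
      rw [Finset.mem_coe, Fintype.mem_piFinset]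
      intro i
      rw [Finset.mem_Icc]
      exact hv i
    exact (Finset.finite_toSet _).subset this
  exact Submodule.finrank_mono (htr _)

end Pool.Agent.Helper294.HallM
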