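import Pool.Agent.Helper294.HallM.Defs

set_option autoImplicit false

namespace Pool.Agent.Helper294.HallM

open Module Pool.Agent.Helper946.HC


theorem tors_of_small_fd {K G A Q : Type} [DivisionRing K] [Group G] [AddCommGroup A] [Module K A]
    [DistribMulAction G A] [Group Q] {ρ : G →* Q}
    (hs : ∀ g : G, Semi K (ac g : A ≃+ A))
    (hsc : ∀ g : G, ρ g = 1 → ∃ c : K, ∀ a : A, g • a = c • a) {r : ℕ}
    (ε : Multiplicative (Fin r → ℤ) →* Q) (a : A) (y : (Fin r → ℤ) → G)
    (hy : ∀ v, ρ (y v) = ε (Multiplicative.ofAdd v)) (F : Finset (Fin r → ℤ)) :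
    FiniteDimensional K (tr ρ ε (F : Set (Fin r → ℤ)) a : Submodule K A) := by
  have hle : (tr ρ ε (F : Set (Fin r → ℤ)) a : Submodule K A) ≤
      Submodule.span K ((fun v => y v • a) '' (F : Set (Fin r → ℤ))) := by
    unfold tr
    rw [Submodule.span_le]
    rintro _ ⟨g, v, hv, hg, rfl⟩
    have hz : ρ ((y v)⁻¹ * g) = 1 := by
      rw [map_mul, map_inv, hy v, hg, inv_mul_cancel]
    obtain ⟨c, hc⟩ := hsc _ hz
    obtain ⟨σ, hσ⟩ := hs (y v)
    have h1 : g • a = σ c • (y v • a) := by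
      have h2 : g • a = y v • (((y v)⁻¹ * g) • a) := by
        rw [← mul_smul, mul_inv_cancel_left]
      rw [h2, hc a]
      exact hσ c a
    rw [h1]
    exact Submodule.smul_mem _ _ (Submodule.subset_span ⟨v, hv, rfl⟩)
  haveI : FiniteDimensional K
      (Submodule.span K ((fun v => y v • a) '' (F : Set (Fin r → ℤ)))) :=
    FiniteDimensional.span_of_finite K ((Finset.finite_toSet F).image _)
  exact Submodule.finiteDimensional_of_le hle

theorem tors_of_small {K G A Q : Type} [DivisionRing K] [Group G] [AddCommGroup A] [Module K A]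
    [DistribMulAction G A] [Group Q] {ρ : G →* Q} (hρ : Function.Surjective ρ)
    (hs : ∀ g : G, Semi K (ac g : A ≃+ A))
    (hsc : ∀ g : G, ρ g = 1 → ∃ c : K, ∀ a : A, g • a = c • a) {r : ℕ}
    (ε : Multiplicative (Fin r → ℤ) →* Q) (a : A) (n : ℕ)
    (h : finrank K (tr ρ ε {v | ∀ i, 0 ≤ v i ∧ v i ≤ (n : ℤ)} a : Submodule K A) <
      (n + 1) ^ r) : Tors (K := K) ρ ε a := by
  classical
  by_contra hT
  choose y hy using fun v : Fin r → ℤ => hρ (ε (Multiplicative.ofAdd v))
  set B : Finset (Fin r → ℤ) := Fintype.piFinset fun _ => Finset.Icc 0 (n : ℤ) with hB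
  have hBS : (B : Set (Fin r → ℤ)) = {v | ∀ i, 0 ≤ v i ∧ v i ≤ (n : ℤ)} := by
    ext v
    rw [Finset.mem_coe, hB, Fintype.mem_piFinset]
    exact ⟨fun h i => Finset.mem_Icc.1 (h i), fun h i => Finset.mem_Icc.2 (h i)⟩
  have hcard : B.card = (n + 1) ^ r := by
    rw [hB, Fintype.card_piFinset]
    simp
  rw [← hBS] at h
  haveI := tors_of_small_fd (K := K) hs hsc ε a y hy B
  have hmem : ∀ v : B, y v • a ∈ (tr ρ ε (B : Set (Fin r → ℤ)) a : Submodule K A) := by
    intro v
    exact Submodule.subset_span ⟨y v, v, v.2, hy v, rfl⟩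
  have hli : LinearIndependent K (fun v : B => y v • a) := by
    rw [linearIndependent_iff_notMem_span]
    intro v hv
    apply hT
    refine ⟨B.erase v, v, Finset.notMem_erase _ _, y v, hy v, ?_⟩
    refine (Submodule.span_le.2 ?_ : Submodule.span K _ ≤ _) hv
    rintro _ ⟨w, hw, rfl⟩
    refine Submodule.subset_span ⟨y w, w, ?_, hy w, rfl⟩
    rw [Finset.mem_coe, Finset.mem_erase]
    exact ⟨fun h => hw.2 (Subtype.ext h), w.2⟩
  have hli' : LinearIndependent K (fun v : B =>
      (⟨y v • a, hmem v⟩ : (tr ρ ε (B : Set (Fin r → ℤ)) a : Submodule K A))) :=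
    LinearIndependent.of_comp (Submodule.subtype _) hli
  have := hli'.fintype_card_le_finrank
  rw [Fintype.card_coe, hcard] at this
  omega

end Pool.Agent.Helper294.HallM
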