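import Pool.Agent.Helper294.HallM.Defs
import Pool.Agent.Helper294.HX.HCPoly
import Pool.Agent.Helper294.HallM.TorsGrowth
import Pool.Agent.Helper294.HallM.TorsOfSmall

set_option autoImplicit false

namespace Pool.Agent.Helper294.HallM

open Module Pool.Agent.Helper946.HC


theorem tors_sub_semi {K G A : Type} [DivisionRing K] [Group G] [AddCommGroup A] [Module K A]
    [DistribMulAction G A] (hs : ∀ g : G, Semi K (ac g : A ≃+ A)) (g : G) :
    ∃ σ : K ≃+* K, ∀ (k : K) (x : A), g • (k • x) = σ k • (g • x) := hs g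

theorem tors_sub_fin {K G A Q : Type} [DivisionRing K] [Group G] [AddCommGroup A] [Module K A]
    [DistribMulAction G A] [Group Q] {ρ : G →* Q} (hρ : Function.Surjective ρ)
    (hsc : ∀ g : G, ρ g = 1 → ∃ c : K, ∀ a : A, g • a = c • a) {r : ℕ}
    (ε : Multiplicative (Fin r → ℤ) →* Q) (a : A) (F : Set (Fin r → ℤ)) (hF : F.Finite) :
    FiniteDimensional K (tr ρ ε F a : Submodule K A) := by
  choose y hy using hρ
  have hle : (tr ρ ε F a : Submodule K A) ≤
      Submodule.span K ((fun v => y (ε (Multiplicative.ofAdd v)) • a) '' F) := by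
    unfold tr
    rw [Submodule.span_le]
    rintro _ ⟨g, f, hf, hgf, rfl⟩
    have h1 : ρ (g * (y (ε (Multiplicative.ofAdd f)))⁻¹) = 1 := by
      rw [map_mul, map_inv, hy, hgf, mul_inv_cancel]
    obtain ⟨c, hc⟩ := hsc _ h1
    have h2 : g • a = c • (y (ε (Multiplicative.ofAdd f)) • a) := by
      rw [← hc, smul_smul, inv_mul_cancel_right]
    rw [h2]
    exact Submodule.smul_mem _ _ (Submodule.subset_span ⟨f, hf, rfl⟩)
  haveI := FiniteDimensional.span_of_finite K (hF.image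
    (fun v => y (ε (Multiplicative.ofAdd v)) • a))
  exact Submodule.finiteDimensional_of_le hle

theorem tors_sub_box {r : ℕ} (n : ℕ) :
    ({v | ∀ i, 0 ≤ v i ∧ v i ≤ (n : ℤ)} : Set (Fin r → ℤ)).Finite := by
  have : ({v | ∀ i, 0 ≤ v i ∧ v i ≤ (n : ℤ)} : Set (Fin r → ℤ)) =
      Set.Icc (fun _ => 0) (fun _ => (n : ℤ)) := by
    ext v
    simp only [Set.mem_setOf_eq, Set.mem_Icc, Pi.le_def]
    exact ⟨fun h => ⟨fun i => (h i).1, fun i => (h i).2⟩, fun h i => ⟨h.1 i, h.2 i⟩⟩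
  rw [this]
  exact Set.finite_Icc _ _

theorem tors_sub_zero {K G A Q : Type} [DivisionRing K] [Group G] [AddCommGroup A] [Module K A]
    [DistribMulAction G A] [Group Q] (ρ : G →* Q) {r : ℕ}
    (ε : Multiplicative (Fin r → ℤ) →* Q) : Tors (K := K) ρ ε (0 : A) := by
  refine ⟨∅, 0, by simp, 1, ?_, ?_⟩
  · rw [map_one, ofAdd_zero, map_one]
  · rw [smul_zero]; exact Submodule.zero_mem _

theorem tors_sub_smul {K G A Q : Type} [DivisionRing K] [Group G] [AddCommGroup A] [Module K A]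
    [DistribMulAction G A] [Group Q] {ρ : G →* Q}
    (hs : ∀ g : G, Semi K (ac g : A ≃+ A)) {r : ℕ}
    (ε : Multiplicative (Fin r → ℤ) →* Q) (k : K) (a : A) (h : Tors (K := K) ρ ε a) :
    Tors (K := K) ρ ε (k • a) := by
  by_cases hk : k = 0
  · rw [hk, zero_smul]; exact tors_sub_zero ρ ε
  obtain ⟨F, v, hv, g, hg, hmem⟩ := h
  refine ⟨F, v, hv, g, hg, ?_⟩
  have hle : (tr ρ ε (F : Set (Fin r → ℤ)) a : Submodule K A) ≤ tr ρ ε F (k • a) := by
    unfold tr
    rw [Submodule.span_le]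
    rintro _ ⟨g', f, hf, hgf, rfl⟩
    obtain ⟨σ, hσ⟩ := tors_sub_semi hs g'
    have h1 : g' • a = (σ k)⁻¹ • (g' • (k • a)) := by
      rw [hσ, smul_smul, inv_mul_cancel₀, one_smul]
      exact (map_ne_zero_iff σ σ.injective).2 hk
    rw [h1]
    exact Submodule.smul_mem _ _ (Submodule.subset_span ⟨g', f, hf, hgf, rfl⟩)
  obtain ⟨σ, hσ⟩ := tors_sub_semi hs g
  rw [hσ]
  exact Submodule.smul_mem _ _ (hle hmem)

theorem tors_sub_add {K G A Q : Type} [DivisionRing K] [Group G] [AddCommGroup A] [Module K A]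
    [DistribMulAction G A] [Group Q] {ρ : G →* Q} (hρ : Function.Surjective ρ)
    (hs : ∀ g : G, Semi K (ac g : A ≃+ A))
    (hsc : ∀ g : G, ρ g = 1 → ∃ c : K, ∀ a : A, g • a = c • a) {r : ℕ} (hr : 0 < r)
    (ε : Multiplicative (Fin r → ℤ) →* Q) (hinj : Function.Injective ε) (a b : A)
    (ha : Tors (K := K) ρ ε a) (hb : Tors (K := K) ρ ε b) : Tors (K := K) ρ ε (a + b) := by
  obtain ⟨C1, h1⟩ := tors_growth hρ hs hsc hr ε hinj a ha
  obtain ⟨C2, h2⟩ := tors_growth hρ hs hsc hr ε hinj b hb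
  set n := C1 + C2 with hn
  apply tors_of_small hρ hs hsc ε (a + b) n
  haveI f1 := tors_sub_fin (K := K) hρ hsc ε a _ (tors_sub_box (r := r) n)
  haveI f2 := tors_sub_fin (K := K) hρ hsc ε b _ (tors_sub_box (r := r) n)
  have hle : (tr ρ ε {v | ∀ i, 0 ≤ v i ∧ v i ≤ (n : ℤ)} (a + b) : Submodule K A) ≤
      tr ρ ε {v | ∀ i, 0 ≤ v i ∧ v i ≤ (n : ℤ)} a ⊔
        tr ρ ε {v | ∀ i, 0 ≤ v i ∧ v i ≤ (n : ℤ)} b := by
    conv_lhs => unfold tr
    rw [Submodule.span_le]
    rintro _ ⟨g', f, hf, hgf, rfl⟩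
    rw [smul_add]
    exact Submodule.add_mem_sup (Submodule.subset_span ⟨g', f, hf, hgf, rfl⟩)
      (Submodule.subset_span ⟨g', f, hf, hgf, rfl⟩)
  have h3 := Submodule.finrank_mono hle
  have h4 := Submodule.finrank_add_le_finrank_add_finrank
    (tr ρ ε {v | ∀ i, 0 ≤ v i ∧ v i ≤ (n : ℤ)} a : Submodule K A)
    (tr ρ ε {v | ∀ i, 0 ≤ v i ∧ v i ≤ (n : ℤ)} b)
  have h5 := h1 n
  have h6 := h2 n
  obtain ⟨s, rfl⟩ : ∃ s, r = s + 1 := ⟨r - 1, by omega⟩
  rw [Nat.add_sub_cancel] at h5 h6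
  have h7 : 0 < (n + 1) ^ s := by positivity
  rw [pow_succ]
  nlinarith

theorem tors_sub_stab {K G A Q : Type} [DivisionRing K] [Group G] [AddCommGroup A] [Module K A]
    [DistribMulAction G A] [Group Q] {ρ : G →* Q}
    (hs : ∀ g : G, Semi K (ac g : A ≃+ A)) {r : ℕ}
    (ε : Multiplicative (Fin r → ℤ) →* Q) (hinj : Function.Injective ε)
    (hn : ε.range.Normal) (h : G) (a : A) (ha : Tors (K := K) ρ ε a) :
    Tors (K := K) ρ ε (h • a) := by
  classical
  obtain ⟨M, hM⟩ := conj_mat ε hinj hn (ρ h)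
  obtain ⟨F, v, hv, g, hg, hmem⟩ := ha
  obtain ⟨σ, hσ⟩ := tors_sub_semi hs h
  refine ⟨F.image M, M v, ?_, h * g * h⁻¹, ?_, ?_⟩
  · intro hmv
    rw [Finset.mem_image] at hmv
    obtain ⟨f, hf, hfv⟩ := hmv
    exact hv (M.injective hfv ▸ hf)
  · rw [map_mul, map_mul, map_inv, hg, hM]
  · have e : (h * g * h⁻¹) • (h • a) = h • (g • a) := by
      rw [smul_smul, smul_smul, inv_mul_cancel_right]
    rw [e]
    have key : ∀ y ∈ (tr ρ ε (F : Set (Fin r → ℤ)) a : Submodule K A),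
        h • y ∈ (tr ρ ε ((F.image M : Finset _) : Set (Fin r → ℤ)) (h • a) : Submodule K A) := by
      intro y hy
      unfold tr at hy
      induction hy using Submodule.span_induction with
      | mem y hy =>
        obtain ⟨g', f, hf, hgf, rfl⟩ := hy
        apply Submodule.subset_span
        refine ⟨h * g' * h⁻¹, M f, ?_, ?_, ?_⟩
        · exact Finset.mem_coe.2 (Finset.mem_image_of_mem M hf)
        · rw [map_mul, map_mul, map_inv, hgf, hM]
        · rw [smul_smul, smul_smul, inv_mul_cancel_right]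
      | zero => rw [smul_zero]; exact Submodule.zero_mem _
      | add y z _ _ ihy ihz => rw [smul_add]; exact Submodule.add_mem _ ihy ihz
      | smul k y _ ih => rw [hσ]; exact Submodule.smul_mem _ _ ih
    exact key _ hmem

theorem tors_sub {K G A Q : Type} [DivisionRing K] [Group G] [AddCommGroup A] [Module K A]
    [DistribMulAction G A] [Group Q] {ρ : G →* Q} (hρ : Function.Surjective ρ)
    (hs : ∀ g : G, Semi K (ac g : A ≃+ A))
    (hsc : ∀ g : G, ρ g = 1 → ∃ c : K, ∀ a : A, g • a = c • a) {r : ℕ} (hr : 0 < r)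
    (ε : Multiplicative (Fin r → ℤ) →* Q) (hinj : Function.Injective ε)
    (hn : ε.range.Normal) :
    ∃ T : Submodule K A, (∀ a, a ∈ T ↔ Tors (K := K) ρ ε a) ∧ St (⊤ : Subgroup G) T := by
  refine ⟨{ carrier := {a | Tors (K := K) ρ ε a}
            zero_mem' := tors_sub_zero ρ ε
            add_mem' := fun {a b} ha hb => tors_sub_add hρ hs hsc hr ε hinj a b ha hb
            smul_mem' := fun k a ha => tors_sub_smul hs ε k a ha }, fun a => Iff.rfl, ?_⟩
  intro g _ x hx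
  exact tors_sub_stab hs ε hinj hn g x hx

end Pool.Agent.Helper294.HallM
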