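import Pool.Agent.Helper294.HallM.Defs
import Pool.Agent.Helper294.HX.HCRad

set_option autoImplicit false

namespace Pool.Agent.Helper294.HallM

open Module Pool.Agent.Helper946.HC


theorem base_fin {Q : Type} [Group Q] [Finite Q] : MainFor Q := by
  intro K G A _ _ _ _ _ ρ hsys
  obtain ⟨S, hS⟩ := hsys.fg
  classical
  let gq : Q → G := fun q => if h : ∃ g, ρ g = q then h.choose else 1
  have hgq : ∀ g, ρ (gq (ρ g)) = ρ g := by
    intro g
    have h : ∃ g', ρ g' = ρ g := ⟨g, rfl⟩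
    simp only [gq, dif_pos h]
    exact h.choose_spec
  let T : Set A := Set.range (fun p : Q × S => gq p.1 • (p.2 : A))
  have hT : T.Finite := Set.finite_range _
  have hspan : Submodule.span K T = ⊤ := by
    rw [eq_top_iff, ← hS, Submodule.span_le]
    rintro x ⟨g, s, hs, rfl⟩
    obtain ⟨c, hc⟩ := hsys.scal ((gq (ρ g))⁻¹ * g) (by rw [map_mul, map_inv, hgq, inv_mul_cancel])
    obtain ⟨σ, hσ⟩ := hsys.semi (gq (ρ g))
    have h1 : g • s = σ c • (gq (ρ g) • s) := by
      have h2 : g • s = gq (ρ g) • (((gq (ρ g))⁻¹ * g) • s) := by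
        rw [smul_smul, mul_inv_cancel_left]
      rw [h2, hc s]
      exact hσ c s
    rw [h1]
    exact Submodule.smul_mem _ _ (Submodule.subset_span ⟨(ρ g, ⟨s, hs⟩), rfl⟩)
  have hfin : Module.Finite K A := ⟨⟨hT.toFinset, by rw [Set.Finite.coe_toFinset, hspan]⟩⟩
  exact ⟨1, finrank K A, fun g W hW _ => bdd_small (Submodule.finrank_le W)⟩

end Pool.Agent.Helper294.HallM
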