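import Pool.Agent.Helper294.HallC.Defs
import Pool.Agent.Helper294.HX.HCDefs

set_option autoImplicit false

namespace Pool.Agent.Helper294.HallM

theorem bridge {Q : Type} [Group Q] (h : Pool.Agent.Helper946.HC.MainFor Q) :
    Pool.Agent.Helper294.HallC.MainFor Q := by
  intro K G A _ _ _ _ _ ρ hS
  exact h K G A ρ ⟨hS.semi, hS.scal, hS.fg⟩

theorem pc_bridge {Q : Type} [Group Q] (h : Pool.Agent.Helper294.HallC.PC Q) :
    Pool.Agent.Helper946.HC.PC Q := h

end Pool.Agent.Helper294.HallM
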