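import Pool.Agent.Helper294.HallM.Defs
import Pool.Agent.Helper294.HX.HCRad
import Pool.Agent.Helper294.HX.HCPoly
import Pool.Agent.Helper294.HX.PHChain
import Pool.Agent.Helper294.HallM.OreModel

set_option autoImplicit false

namespace Pool.Agent.Helper294.HallM

open Module Pool.Agent.Helper946.PH3
open Pool.Agent.Helper946.HC hiding Cross


theorem case1_iter {G A : Type} [Group G] [AddCommGroup A] [DistribMulAction G A] (g : G)
    (n : ℕ) (x : A) : (ac (g ^ n) : A ≃+ A) x = (⇑(ac g : A ≃+ A))^[n] x := by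
  induction n generalizing x with
  | zero => show g ^ 0 • x = x; rw [pow_zero, one_smul]
  | succ n ih =>
    rw [Function.iterate_succ_apply]
    rw [← ih]
    show g ^ (n + 1) • x = g ^ n • (g • x)
    rw [pow_succ, mul_smul]

theorem case1_span {K' G A' : Type} [DivisionRing K'] [Group G] [AddCommGroup A'] [Module K' A']
    [DistribMulAction G A'] (g : G) (hs : Semi K' (ac g : A' ≃+ A')) (S : Set A')
    (hS : ∀ ξ ∈ S, g • ξ ∈ S) (ξ : A') (hξ : ξ ∈ Submodule.span K' S) :
    g • ξ ∈ Submodule.span K' S := by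
  obtain ⟨σ, hσ⟩ := hs
  induction hξ using Submodule.span_induction with
  | mem y hy => exact Submodule.subset_span (hS y hy)
  | zero => rw [smul_zero]; exact zero_mem _
  | add y z _ _ hy hz => rw [smul_add]; exact add_mem hy hz
  | smul k y _ hy =>
    have := hσ k y
    have e : g • (k • y) = σ k • (g • y) := this
    rw [e]
    exact Submodule.smul_mem _ _ hy

theorem case1_fd {K K' A' : Type} [DivisionRing K] [DivisionRing K'] [AddCommGroup A']
    [Module K A'] [Module K' A'] (ι : K →+* K') (hι : ∀ (k : K) (ξ : A'), k • ξ = ι k • ξ)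
    (W : Submodule K A') [FiniteDimensional K W] :
    FiniteDimensional K' (Submodule.span K' (W : Set A')) := by
  obtain ⟨S, hS⟩ := (Module.Finite.iff_fg (N := W)).mp inferInstance
  have h1 : ∀ ξ ∈ W, ξ ∈ Submodule.span K' (S : Set A') := by
    intro ξ hξ
    rw [← hS] at hξ
    induction hξ using Submodule.span_induction with
    | mem y hy => exact Submodule.subset_span hy
    | zero => exact zero_mem _
    | add y z _ _ hy hz => exact add_mem hy hz
    | smul k y _ hy => rw [hι]; exact Submodule.smul_mem _ _ hy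
  have h2 : Submodule.span K' (W : Set A') = Submodule.span K' (S : Set A') := by
    apply le_antisymm
    · rw [Submodule.span_le]; exact h1
    · apply Submodule.span_mono
      intro y hy
      have : y ∈ Submodule.span K (S : Set A') := Submodule.subset_span hy
      rw [hS] at this
      exact this
  rw [h2]
  exact Module.Finite.span_finset K' S

theorem case1 {K G A Q : Type} [DivisionRing K] [Group G] [AddCommGroup A] [Module K A]
    [DistribMulAction G A] [Group Q] {ρ : G →* Q} (hρ : Function.Surjective ρ)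
    (hS : Sys K G A Q ρ) {r : ℕ} (hr : 0 < r)
    (ε : Multiplicative (Fin r → ℤ) →* Q) (hinj : Function.Injective ε) [hn : ε.range.Normal]
    (hm : MainFor (Q ⧸ ε.range))
    (htf : ∀ a : A, a ≠ 0 → ¬ Tors (K := K) ρ ε a) (hA : Nontrivial A) : TProp K G A := by
  obtain ⟨K', A', _, _, _, _, _, ι, x, i, hi, hig, hik, hι, hC, hSys, hAct⟩ :=
    ore_model hρ hS hr ε hinj htf hA
  obtain ⟨l, d, hT⟩ := hm K' G A' _ hSys
  refine ⟨l * (d + 1) ^ r, (3 ^ r).factorial * d, ?_⟩
  intro g W hfin hst
  set m := (3 ^ r).factorial with hmdef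
  obtain ⟨Mg, hMg⟩ := conj_mat ε hinj hn (ρ g)
  obtain ⟨M, hM⟩ := conj_mat ε hinj hn (ρ (g ^ m))
  have hit : ∀ (n : ℕ) v, ρ (g ^ n) * ε (Multiplicative.ofAdd v) * (ρ (g ^ n))⁻¹
      = ε (Multiplicative.ofAdd ((⇑Mg)^[n] v)) := by
    intro n
    induction n with
    | zero => intro v; simp
    | succ n ih =>
      intro v
      rw [Function.iterate_succ_apply, ← ih, ← hMg, pow_succ, map_mul]
      group
  have hMv : ∀ v, M v = (⇑Mg)^[m] v := by
    intro v
    have h1 := hM v
    rw [hit m v] at h1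
    exact (Multiplicative.ofAdd.injective (hinj h1)).symm
  have hM3 : ∀ v, ∃ w, M v = v + 3 • w := by
    intro v
    rw [hMv]
    exact mod3 r Mg v
  have hA' := hAct (g ^ m) M hM
  -- the action of `h` on `A`
  have hsth : Stable (ac (g ^ m) : A ≃+ A) W := stable_pow hst m (case1_iter g m)
  -- the subspace `W'`
  let il : A →ₗ[K] A' :=
    { toFun := i, map_add' := i.map_add, map_smul' := fun k a => hik k a }
  let W' : Submodule K A' := W.map il
  have hW' : ∀ y, y ∈ W' ↔ ∃ a ∈ W, i a = y := fun y => Submodule.mem_map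
  have hfin' : FiniteDimensional K W' := inferInstance
  have hinvW' : ∀ ξ ∈ W', (g ^ m) • ξ ∈ W' := by
    intro ξ hξ
    obtain ⟨a, ha, rfl⟩ := (hW' ξ).mp hξ
    refine (hW' _).mpr ⟨(g ^ m) • a, (hsth a).mpr ha, hig _ _⟩
  have hinvW'' : ∀ ξ ∈ W', (g ^ m)⁻¹ • ξ ∈ W' := by
    intro ξ hξ
    obtain ⟨a, ha, rfl⟩ := (hW' ξ).mp hξ
    refine (hW' _).mpr ⟨(g ^ m)⁻¹ • a, ?_, hig _ _⟩
    apply (hsth _).mp
    show (g ^ m) • ((g ^ m)⁻¹ • a) ∈ W
    rw [smul_inv_smul]; exact ha
  have hstW' : Stable (ac (g ^ m) : A' ≃+ A') W' := by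
    intro ξ
    constructor
    · intro h1
      have h2 := hinvW'' _ h1
      have e : (g ^ m)⁻¹ • ((ac (g ^ m) : A' ≃+ A') ξ) = ξ := inv_smul_smul (g ^ m) ξ
      rw [e] at h2
      exact h2
    · exact fun h1 => hinvW' ξ h1
  have hfS : FiniteDimensional K' (Submodule.span K' (W' : Set A')) := case1_fd ι hι W'
  have hstS : Stable (ac (g ^ m) : A' ≃+ A') (Submodule.span K' (W' : Set A')) := by
    intro ξ
    constructor
    · intro h1
      have h2 := case1_span (g ^ m)⁻¹ (hSys.semi _) (W' : Set A') hinvW'' _ h1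
      have e : (g ^ m)⁻¹ • ((ac (g ^ m) : A' ≃+ A') ξ) = ξ := inv_smul_smul (g ^ m) ξ
      rw [e] at h2
      exact h2
    · exact fun h1 => case1_span (g ^ m) (hSys.semi _) (W' : Set A') hinvW' ξ h1
  have hb := hT (g ^ m) _ hfS hstS
  have hb' := descent r K K' (Fin r → ℤ) ι x hC (Module.finrank_fin_fun ℤ) A' hι
    (ac (g ^ m) : A' ≃+ A') M hA' hM3 l d W' hstW' hb
  have hbA : Bdd (ac (g ^ m) : A ≃+ A) (l * (d + 1) ^ r) d W := by
    apply bdd_of_maps hsth
    intro a ha ha0
    refine ⟨K, A', inferInstance, inferInstance, inferInstance, RingEquiv.refl K, i,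
      (ac (g ^ m) : A' ≃+ A'), W', ?_, ?_, ?_, hW', hb', ?_⟩
    · obtain ⟨σ, σ0, h1, h2, h3⟩ := hA'
      refine ⟨σ0, fun k ξ => ?_⟩
      rw [hι, h1, h2, ← hι]
    · intro k b _
      exact hik k b
    · intro b _
      refine ⟨1, one_ne_zero, ?_⟩
      rw [one_smul]
      exact hig _ _
    · intro h0
      apply ha0
      apply hi
      rw [h0, map_zero]
  exact bdd_pow (hS.semi g) hst (Nat.factorial_pos _) (case1_iter g m) hbA

end Pool.Agent.Helper294.HallM
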