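import Pool.Agent.Helper294.HallM.Defs

set_option autoImplicit false

namespace Pool.Agent.Helper294.HallM

open Module Pool.Agent.Helper946.HC


/-- restriction of scalars of a submodule through `κ` -/
def cl_hull_res {K R A : Type} [DivisionRing K] [Ring R] [AddCommGroup A] [Module K A]
    [Module R A] (κ : K →+* R) (hκ : ∀ (k : K) (a : A), k • a = κ k • a) (m : Submodule R A) :
    Submodule K A where
  carrier := m
  add_mem' := fun hx hy => m.add_mem hx hy
  zero_mem' := m.zero_mem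
  smul_mem' := fun k x hx => by
    rw [hκ]
    exact m.smul_mem _ hx

theorem cl_hull_iso {K R A : Type} [DivisionRing K] [Ring R] [AddCommGroup A] [Module K A]
    [Module R A] (κ : K →+* R) (hκ : ∀ (k : K) (a : A), k • a = κ k • a) (U : Submodule R A)
    (U₀ : Submodule K A) (hU₀ : ∀ x, x ∈ U₀ ↔ x ∈ U) (hfd : FiniteDimensional K U₀)
    (m : Submodule R A) (f : ↥m ≃ₗ[R] ↥U) : FiniteDimensional K (cl_hull_res κ hκ m) := by
  let φ : ↥(cl_hull_res κ hκ m) →ₗ[K] ↥U₀ :=
    { toFun := fun x => ⟨(f ⟨x.1, x.2⟩ : ↥U), (hU₀ _).mpr (f ⟨x.1, x.2⟩).2⟩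
      map_add' := by
        intro x y
        apply Subtype.ext
        show ((f (⟨x.1, x.2⟩ + ⟨y.1, y.2⟩) : ↥U) : A) = _
        rw [map_add]
        rfl
      map_smul' := by
        intro k x
        apply Subtype.ext
        have h1 : (⟨(k • x).1, (k • x).2⟩ : ↥m) = κ k • (⟨x.1, x.2⟩ : ↥m) := by
          apply Subtype.ext
          show k • x.1 = κ k • x.1
          exact hκ k x.1
        show ((f ⟨(k • x).1, (k • x).2⟩ : ↥U) : A) = k • ((f ⟨x.1, x.2⟩ : ↥U) : A)
        rw [h1, map_smul, hκ]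
        rfl }
  apply Module.Finite.of_injective φ
  intro x y hxy
  have h1 : ((f ⟨x.1, x.2⟩ : ↥U) : A) = ((f ⟨y.1, y.2⟩ : ↥U) : A) :=
    congrArg (fun z : ↥U₀ => (z : A)) hxy
  have h2 := f.injective (Subtype.ext h1)
  exact Subtype.ext (congrArg Subtype.val h2)

theorem cl_hull_sup {K R A : Type} [DivisionRing K] [Ring R] [AddCommGroup A] [Module K A]
    [Module R A] (κ : K →+* R) (hκ : ∀ (k : K) (a : A), k • a = κ k • a) (m n : Submodule R A)
    (hm : FiniteDimensional K (cl_hull_res κ hκ m)) (hn : FiniteDimensional K (cl_hull_res κ hκ n)) :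
    FiniteDimensional K (cl_hull_res κ hκ (m ⊔ n)) := by
  have hle : cl_hull_res κ hκ (m ⊔ n) ≤ cl_hull_res κ hκ m ⊔ cl_hull_res κ hκ n := by
    intro x hx
    have hx' : x ∈ m ⊔ n := hx
    obtain ⟨a, ha, b, hb, rfl⟩ := Submodule.mem_sup.mp hx'
    exact Submodule.mem_sup.mpr ⟨a, ha, b, hb, rfl⟩
  exact Submodule.finiteDimensional_of_le hle

theorem cl_hull_bot {K R A : Type} [DivisionRing K] [Ring R] [AddCommGroup A] [Module K A]
    [Module R A] (κ : K →+* R) (hκ : ∀ (k : K) (a : A), k • a = κ k • a) :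
    FiniteDimensional K (cl_hull_res κ hκ (⊥ : Submodule R A)) := by
  have hle : cl_hull_res κ hκ (⊥ : Submodule R A) ≤ ⊥ := by
    intro x hx
    have hx' : x ∈ (⊥ : Submodule R A) := hx
    exact (Submodule.mem_bot K).mpr ((Submodule.mem_bot R).mp hx')
  exact Submodule.finiteDimensional_of_le hle

theorem cl_hull {K R A : Type} [DivisionRing K] [Ring R] [AddCommGroup A] [Module K A]
    [Module R A] (κ : K →+* R) (hκ : ∀ (k : K) (a : A), k • a = κ k • a) (U : Submodule R A)
    (U₀ : Submodule K A) (hU₀ : ∀ x, x ∈ U₀ ↔ x ∈ U) (hfd : FiniteDimensional K U₀)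
    (W : Submodule K A) (hWfd : FiniteDimensional K W)
    (hW : ∀ x ∈ W, x ∈ isotypicComponent R A ↥U) :
    ∃ W₁ : Submodule K A, FiniteDimensional K W₁ ∧ W ≤ W₁ ∧
      (∀ x ∈ W₁, x ∈ isotypicComponent R A ↥U) ∧
      ∀ x, x ∈ W₁ ↔ x ∈ Submodule.span R (W : Set A) := by
  have h1 : ∀ x ∈ isotypicComponent R A ↥U, ∃ N : Submodule R A, x ∈ N ∧
      FiniteDimensional K (cl_hull_res κ hκ N) := by
    intro x hx
    unfold isotypicComponent at hx
    rw [sSup_eq_iSup'] at hx
    refine Submodule.iSup_induction (p := fun i : {m : Submodule R A | Nonempty (↥m ≃ₗ[R] ↥U)} =>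
      (i : Submodule R A)) (motive := fun x => ∃ N : Submodule R A, x ∈ N ∧
      FiniteDimensional K (cl_hull_res κ hκ N)) hx ?_ ?_ ?_
    · rintro ⟨m, ⟨f⟩⟩ y hy
      exact ⟨m, hy, cl_hull_iso κ hκ U U₀ hU₀ hfd m f⟩
    · exact ⟨⊥, Submodule.zero_mem _, cl_hull_bot κ hκ⟩
    · rintro y z ⟨N1, hy, hN1⟩ ⟨N2, hz, hN2⟩
      exact ⟨N1 ⊔ N2, Submodule.add_mem _ (Submodule.mem_sup_left hy) (Submodule.mem_sup_right hz),
        cl_hull_sup κ hκ N1 N2 hN1 hN2⟩
  have h2 : ∀ S : Finset A, (∀ x ∈ S, x ∈ isotypicComponent R A ↥U) → ∃ N : Submodule R A,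
      (∀ x ∈ S, x ∈ N) ∧ FiniteDimensional K (cl_hull_res κ hκ N) := by
    classical
    intro S
    induction S using Finset.induction_on with
    | empty => exact fun _ => ⟨⊥, by simp, cl_hull_bot κ hκ⟩
    | insert a S _ ih =>
      intro hS
      obtain ⟨N1, h3, h4⟩ := ih (fun x hx => hS x (Finset.mem_insert_of_mem hx))
      obtain ⟨N2, h5, h6⟩ := h1 a (hS a (Finset.mem_insert_self a S))
      refine ⟨N1 ⊔ N2, ?_, cl_hull_sup κ hκ N1 N2 h4 h6⟩
      intro x hx
      rcases Finset.mem_insert.mp hx with rfl | hx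
      · exact Submodule.mem_sup_right h5
      · exact Submodule.mem_sup_left (h3 x hx)
  obtain ⟨S, hS⟩ := (Module.Finite.iff_fg).mp hWfd
  obtain ⟨N, hN1, hN2⟩ := h2 S (fun x hx => hW x (by
    rw [← hS]; exact Submodule.subset_span hx))
  have hWN : W ≤ cl_hull_res κ hκ N := by
    rw [← hS, Submodule.span_le]
    intro x hx
    exact hN1 x hx
  have hspan : Submodule.span R (W : Set A) ≤ N := Submodule.span_le.mpr (fun x hx => hWN hx)
  refine ⟨cl_hull_res κ hκ (Submodule.span R (W : Set A)), ?_, ?_, ?_, ?_⟩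
  · have hle : cl_hull_res κ hκ (Submodule.span R (W : Set A)) ≤ cl_hull_res κ hκ N := fun x hx => hspan hx
    exact Submodule.finiteDimensional_of_le hle
  · intro x hx
    exact Submodule.subset_span (s := (W : Set A)) hx
  · intro x hx
    have : Submodule.span R (W : Set A) ≤ isotypicComponent R A ↥U := Submodule.span_le.mpr (fun x hx => hW x hx)
    exact this hx
  · intro x
    exact Iff.rfl

end Pool.Agent.Helper294.HallM
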