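import Pool.Agent.Helper294.HallM.Defs
import Pool.Agent.Helper294.HX.HCRad
import Pool.Agent.Helper294.HallM.ClDim
import Pool.Agent.Helper294.HallM.ClFd
import Pool.Agent.Helper294.HallM.ClHull
import Pool.Agent.Helper294.HallM.ClMem
import Pool.Agent.Helper294.HallM.ClSurj

set_option autoImplicit false

namespace Pool.Agent.Helper294.HallM

open Module Pool.Agent.Helper946.HC



/-- an `R`-submodule as a `K`-subspace -/
def cl_transfer_res {K R A : Type} [DivisionRing K] [Ring R] [AddCommGroup A] [Module K A]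
    [Module R A] (κ : K →+* R) (hκ : ∀ (k : K) (a : A), k • a = κ k • a) (V : Submodule R A) :
    Submodule K A where
  carrier := {x | x ∈ V}
  zero_mem' := V.zero_mem
  add_mem' := fun ha hb => V.add_mem ha hb
  smul_mem' := fun k x hx => by
    show k • x ∈ V
    rw [hκ]
    exact V.smul_mem _ hx

/-- the maps with values in `V` -/
def cl_transfer_T {R A K₂ : Type} [Ring R] [AddCommGroup A] [Module R A] (U : Submodule R A)
    [DivisionRing K₂] [Module K₂ (↥U →ₗ[R] A)] (e : K₂ ≃+* (Module.End R ↥U)ᵐᵒᵖ)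
    (he : ∀ (k : K₂) (f : ↥U →ₗ[R] A) (x : ↥U), (k • f) x = f ((e k).unop x))
    (V : Submodule R A) : Submodule K₂ (↥U →ₗ[R] A) where
  carrier := {f | ∀ x, f x ∈ V}
  zero_mem' := fun _ => V.zero_mem
  add_mem' := fun ha hb x => V.add_mem (ha x) (hb x)
  smul_mem' := fun k f hf x => by
    rw [he]
    exact hf _

theorem cl_transfer_sup_ind {R A K₂ : Type} [Ring R] [AddCommGroup A] [Module R A]
    (U : Submodule R A) [DivisionRing K₂] [Module K₂ (↥U →ₗ[R] A)]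
    (T₁ : Submodule K₂ (↥U →ₗ[R] A)) (P : A → Prop)
    (h1 : ∀ f ∈ T₁, ∀ y, P (f y)) (h0 : P 0) (hadd : ∀ a b, P a → P b → P (a + b))
    (x : A) (hx : x ∈ ⨆ h ∈ T₁, LinearMap.range h) : P x := by
  rw [iSup_subtype'] at hx
  induction hx using Submodule.iSup_induction' with
  | mem i x hx =>
    obtain ⟨y, rfl⟩ := hx
    exact h1 i.1 i.2 y
  | zero => exact h0
  | add a b _ _ ha hb => exact hadd a b ha hb

theorem cl_transfer_mem {R A K₂ : Type} [Ring R] [AddCommGroup A] [Module R A]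
    (U : Submodule R A) [DivisionRing K₂] [Module K₂ (↥U →ₗ[R] A)]
    (T₁ : Submodule K₂ (↥U →ₗ[R] A)) (f : ↥U →ₗ[R] A) (hf : f ∈ T₁) (y : ↥U) :
    f y ∈ ⨆ h ∈ T₁, LinearMap.range h := by
  have : LinearMap.range f ≤ ⨆ h ∈ T₁, LinearMap.range h :=
    le_iSup₂_of_le f hf le_rfl
  exact this ⟨y, rfl⟩

theorem cl_transfer_le {R A K₂ : Type} [Ring R] [AddCommGroup A] [Module R A]
    (U : Submodule R A) [DivisionRing K₂] [Module K₂ (↥U →ₗ[R] A)]
    (T₁ : Submodule K₂ (↥U →ₗ[R] A)) (V : Submodule R A) (h : ∀ f ∈ T₁, ∀ y, f y ∈ V) :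
    (⨆ h ∈ T₁, LinearMap.range h) ≤ V := by
  refine iSup₂_le fun f hf => ?_
  rintro _ ⟨y, rfl⟩
  exact h f hf y

theorem cl_transfer_stab {R G G' A K₂ : Type} [Ring R] [Group G] [Group G']
    [AddCommGroup A] [Module R A] [DistribMulAction G A] (U : Submodule R A)
    (p : G' →* G) (q : G' → (↥U ≃+ ↥U))
    [DistribMulAction G' (↥U →ₗ[R] A)]
    (hact : ∀ (γ : G') (f : ↥U →ₗ[R] A) (x : ↥U), (γ • f) x = p γ • f ((q γ).symm x))
    [DivisionRing K₂] [Module K₂ (↥U →ₗ[R] A)] (T₁ : Submodule K₂ (↥U →ₗ[R] A))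
    (γ : G') (hs : ∀ f ∈ T₁, γ • f ∈ T₁) (x : A) (hx : x ∈ ⨆ h ∈ T₁, LinearMap.range h) :
    p γ • x ∈ ⨆ h ∈ T₁, LinearMap.range h := by
  refine cl_transfer_sup_ind U T₁ (fun x => p γ • x ∈ ⨆ h ∈ T₁, LinearMap.range h) ?_ ?_ ?_ x hx
  · intro f hf y
    have h1 := hact γ f (q γ y)
    rw [AddEquiv.symm_apply_apply] at h1
    show p γ • f y ∈ _
    rw [← h1]
    exact cl_transfer_mem U T₁ _ (hs f hf) _
  · show p γ • (0 : A) ∈ _
    rw [smul_zero]
    exact Submodule.zero_mem _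
  · intro a b ha hb
    show p γ • (a + b) ∈ _
    rw [smul_add]
    exact Submodule.add_mem _ ha hb

theorem cl_transfer_span {R G A : Type} [Ring R] [Group G]
    [AddCommGroup A] [Module R A] [DistribMulAction G A]
    (hnorm : ∀ (g : G) (r : R), ∃ r' : R, ∀ a : A, g • (r • a) = r' • (g • a)) (g : G)
    (S : Set A) (hS : ∀ x ∈ S, g • x ∈ S) (x : A) (hx : x ∈ Submodule.span R S) :
    g • x ∈ Submodule.span R S := by
  induction hx using Submodule.span_induction with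
  | mem x hx => exact Submodule.subset_span (hS x hx)
  | zero => rw [smul_zero]; exact Submodule.zero_mem _
  | add a b _ _ ha hb => rw [smul_add]; exact Submodule.add_mem _ ha hb
  | smul r x _ hx =>
    obtain ⟨r', hr'⟩ := hnorm g r
    rw [hr']
    exact Submodule.smul_mem _ _ hx

theorem cl_transfer {K R G G' A K₂ : Type} [DivisionRing K] [Ring R] [Group G] [Group G']
    [AddCommGroup A] [Module K A] [Module R A] [DistribMulAction G A]
    (hs : ∀ g : G, Semi K (ac g : A ≃+ A))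
    (κ : K →+* R) (hκ : ∀ (k : K) (a : A), k • a = κ k • a)
    (hnorm : ∀ (g : G) (r : R), ∃ r' : R, ∀ a : A, g • (r • a) = r' • (g • a))
    (U : Submodule R A) (hU : IsSimpleModule R ↥U) (U₀ : Submodule K A)
    (hU₀ : ∀ x, x ∈ U₀ ↔ x ∈ U) (hfd : FiniteDimensional K U₀)
    (p : G' →* G) (q : G' → (↥U ≃+ ↥U))
    (hq : ∀ γ δ x, q (γ * δ) x = q γ (q δ x)) (hc : ∀ γ, Cpt U (p γ) (q γ))
    (hp : Function.Surjective p)
    [DistribMulAction G' (↥U →ₗ[R] A)]
    (hact : ∀ (γ : G') (f : ↥U →ₗ[R] A) (x : ↥U), (γ • f) x = p γ • f ((q γ).symm x))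
    [DivisionRing K₂] [Module K₂ (↥U →ₗ[R] A)] (e : K₂ ≃+* (Module.End R ↥U)ᵐᵒᵖ)
    (he : ∀ (k : K₂) (f : ↥U →ₗ[R] A) (x : ↥U), (k • f) x = f ((e k).unop x))
    (hT : TProp K₂ G' (↥U →ₗ[R] A)) :
    ∃ l d : ℕ, ∀ (g : G) (W : Submodule K A), (∀ x ∈ W, x ∈ isotypicComponent R A ↥U) →
      FiniteDimensional K W → Stable (ac g) W → Bdd (ac g : A ≃+ A) l d W := by
  classical
  obtain ⟨l, d, hT⟩ := hT
  refine ⟨l, finrank K U₀ * d, ?_⟩
  intro g W hWM hWf hWs
  obtain ⟨W₁, hW₁f, hWW₁, hW₁M, hW₁⟩ := cl_hull κ hκ U U₀ hU₀ hfd W hWf hWM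
  obtain ⟨γ, rfl⟩ := hp g
  -- the hull is stable
  have hWs1 : ∀ x ∈ (W : Set A), p γ • x ∈ (W : Set A) := fun x hx => (hWs x).2 hx
  have hWs2 : ∀ x ∈ (W : Set A), (p γ)⁻¹ • x ∈ (W : Set A) := by
    intro x hx
    apply (hWs _).1
    show p γ • ((p γ)⁻¹ • x) ∈ W
    rw [smul_inv_smul]
    exact hx
  have hW₁s : Stable (ac (p γ)) W₁ := by
    intro x
    show p γ • x ∈ W₁ ↔ x ∈ W₁
    rw [hW₁, hW₁]
    constructor
    · intro h
      have := cl_transfer_span hnorm (p γ)⁻¹ _ hWs2 _ h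
      rwa [inv_smul_smul] at this
    · exact cl_transfer_span hnorm (p γ) _ hWs1 x
  set V₁ : Submodule R A := Submodule.span R (W : Set A) with hV₁
  have hV₁M : V₁ ≤ isotypicComponent R A ↥U := fun x hx => hW₁M x ((hW₁ x).2 hx)
  set T₁ : Submodule K₂ (↥U →ₗ[R] A) := cl_transfer_T U e he V₁ with hT₁
  have hT₁m : ∀ f, f ∈ T₁ ↔ ∀ x, f x ∈ V₁ := fun _ => Iff.rfl
  have hT₁f : FiniteDimensional K₂ T₁ :=
    cl_fd κ hκ U hU e he V₁ W₁ hW₁ hW₁f T₁ hT₁m
  let Φ : Submodule K₂ (↥U →ₗ[R] A) → Submodule R A := fun T => ⨆ h ∈ T, LinearMap.range h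
  let F : Submodule K₂ (↥U →ₗ[R] A) → Submodule K A := fun T => cl_transfer_res κ hκ (Φ T)
  have hF : ∀ T x, x ∈ F T ↔ x ∈ ⨆ h ∈ T, LinearMap.range h := fun _ _ => Iff.rfl
  have hmono : ∀ T T' : Submodule K₂ (↥U →ₗ[R] A), T ≤ T' → Φ T ≤ Φ T' := by
    intro T T' h
    exact cl_transfer_le U T _ fun f hf y => cl_transfer_mem U T' f (h hf) y
  have hsurj : ∀ V : Submodule R A, V ≤ isotypicComponent R A ↥U →
      Φ (cl_transfer_T U e he V) = V := by
    intro V hV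
    apply le_antisymm
    · exact cl_transfer_le U _ _ fun f hf y => hf y
    · have h1 := cl_surj U hU V hV
      intro x hx
      rw [h1] at hx
      have h2 : (⨆ h ∈ {h : ↥U →ₗ[R] A | LinearMap.range h ≤ V}, LinearMap.range h) ≤
          Φ (cl_transfer_T U e he V) := by
        refine iSup₂_le fun f hf => ?_
        rintro _ ⟨y, rfl⟩
        have hf' : f ∈ cl_transfer_T U e he V := fun z => hf ⟨z, rfl⟩
        exact cl_transfer_mem U (cl_transfer_T U e he V) f hf' y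
      exact h2 hx
  have hinv : ∀ T : Submodule K₂ (↥U →ₗ[R] A), Stable (ac γ) T → ∀ f ∈ T, γ⁻¹ • f ∈ T := by
    intro T hT f hf
    apply (hT _).1
    show γ • (γ⁻¹ • f) ∈ T
    rw [smul_inv_smul]
    exact hf
  have hFs : ∀ T : Submodule K₂ (↥U →ₗ[R] A), Stable (ac γ) T → Stable (ac (p γ)) (F T) := by
    intro T hT x
    show p γ • x ∈ F T ↔ x ∈ F T
    rw [hF, hF]
    constructor
    · intro h
      have := cl_transfer_stab U p q hact T γ⁻¹ (hinv T hT) _ h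
      rw [map_inv, inv_smul_smul] at this
      exact this
    · exact cl_transfer_stab U p q hact T γ (fun f hf => (hT f).2 hf) x
  have hT₁s : Stable (ac γ) T₁ := by
    intro f
    show γ • f ∈ T₁ ↔ f ∈ T₁
    rw [hT₁m, hT₁m]
    have hV₁s : ∀ x, p γ • x ∈ V₁ ↔ x ∈ V₁ := by
      intro x
      rw [← hW₁, ← hW₁]
      exact hW₁s x
    constructor
    · intro h x
      have := h (q γ x)
      rw [hact, AddEquiv.symm_apply_apply, hV₁s] at this
      exact this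
    · intro h x
      rw [hact, hV₁s]
      exact h _
  have hdim : ∀ T : Submodule K₂ (↥U →ₗ[R] A), T ≤ T₁ → FiniteDimensional K (F T) ∧
      finrank K (F T) = finrank K₂ T * finrank K U₀ := by
    intro T hT
    have : FiniteDimensional K₂ T := Submodule.finiteDimensional_of_le hT
    exact cl_dim κ hκ U hU U₀ hU₀ hfd e he T this (F T) (hF T)
  -- the claim
  have claim : ∀ T₂ : Submodule K₂ (↥U →ₗ[R] A), T₂ ≤ T₁ → Stable (ac γ) T₂ →
      rad (ac (p γ)) (finrank K U₀ * d) (F T₂) ≤ F (rad (ac γ) d T₂) := by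
    intro T₂ hT₂ hT₂s x hx
    have h1 : ∀ T₃ : Submodule K₂ (↥U →ₗ[R] A), T₃ ≤ T₂ → Stable (ac γ) T₃ →
        finrank K₂ T₂ ≤ finrank K₂ T₃ + d → x ∈ Φ T₃ := by
      intro T₃ a b c
      have hx' := hx
      unfold rad at hx'
      rw [Submodule.mem_sInf] at hx'
      refine hx' (F T₃) ⟨?_, hFs T₃ b, ?_⟩
      · intro y hy
        exact hmono T₃ T₂ a hy
      · rw [(hdim T₂ hT₂).2, (hdim T₃ (a.trans hT₂)).2]
        calc finrank K₂ T₂ * finrank K U₀ ≤ (finrank K₂ T₃ + d) * finrank K U₀ :=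
              Nat.mul_le_mul_right _ c
          _ = finrank K₂ T₃ * finrank K U₀ + finrank K U₀ * d := by ring
    set V' : Submodule R A := ⨅ T₃ ∈ {T₃ : Submodule K₂ (↥U →ₗ[R] A) | T₃ ≤ T₂ ∧
      Stable (ac γ) T₃ ∧ finrank K₂ T₂ ≤ finrank K₂ T₃ + d}, Φ T₃ with hV'
    have hxV : x ∈ V' := by
      rw [hV', Submodule.mem_iInf]
      intro T₃
      rw [Submodule.mem_iInf]
      rintro ⟨a, b, c⟩
      exact h1 T₃ a b c
    have hV'le : ∀ T₃ : Submodule K₂ (↥U →ₗ[R] A), T₃ ≤ T₂ → Stable (ac γ) T₃ →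
        finrank K₂ T₂ ≤ finrank K₂ T₃ + d → V' ≤ Φ T₃ := by
      intro T₃ a b c
      exact iInf₂_le_of_le T₃ ⟨a, b, c⟩ le_rfl
    have hV'M : V' ≤ isotypicComponent R A ↥U := by
      refine (hV'le T₂ le_rfl hT₂s (Nat.le_add_right _ _)).trans (le_trans ?_ hV₁M)
      exact cl_transfer_le U T₂ V₁ fun f hf y => (hT₁m f).1 (hT₂ hf) y
    have h2 : cl_transfer_T U e he V' ≤ rad (ac γ) d T₂ := by
      intro f hf
      unfold rad
      rw [Submodule.mem_sInf]
      rintro T₃ ⟨a, b, c⟩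
      exact cl_mem U hU e he T₃ f fun y => hV'le T₃ a b c (hf y)
    rw [hF]
    have h3 : x ∈ Φ (cl_transfer_T U e he V') := by
      rw [hsurj V' hV'M]
      exact hxV
    exact hmono _ _ h2 h3
  have iter : ∀ k : ℕ, (rad (ac (p γ)) (finrank K U₀ * d))^[k] (F T₁) ≤
      F ((rad (ac γ) d)^[k] T₁) := by
    intro k
    induction k with
    | zero => exact le_rfl
    | succ k ih =>
      rw [Function.iterate_succ_apply', Function.iterate_succ_apply']
      have hk := radi_le k d hT₁s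
      have hf := (hdim _ hk.1).1
      exact (rad_mono le_rfl ih (radi_le k _ (hFs T₁ hT₁s)).2).trans (claim _ hk.1 hk.2)
  have hFT₁ : F T₁ = W₁ := by
    ext x
    rw [hF, hW₁]
    have := hsurj V₁ hV₁M
    show x ∈ Φ T₁ ↔ x ∈ V₁
    rw [hT₁, this]
  have hbot : (rad (ac γ) d)^[l] T₁ = ⊥ := hT γ T₁ hT₁f hT₁s
  have hfin := iter l
  rw [hbot, hFT₁] at hfin
  have hFbot : F ⊥ ≤ ⊥ := by
    intro x hx
    rw [hF] at hx
    rw [Submodule.mem_bot]
    refine cl_transfer_sup_ind U ⊥ (fun x => x = 0) ?_ rfl ?_ x hx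
    · intro f hf y
      rw [Submodule.mem_bot] at hf
      rw [hf]; rfl
    · rintro a b rfl rfl
      exact add_zero _
  have hB : Bdd (ac (p γ) : A ≃+ A) l (finrank K U₀ * d) W₁ := le_bot_iff.1 (hfin.trans hFbot)
  exact bdd_mono le_rfl le_rfl hWW₁ hWs hW₁s hB

end Pool.Agent.Helper294.HallM
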