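import Pool.Agent.Helper294.HallM.Defs
import Pool.Agent.Helper294.HallM.ClAct
import Pool.Agent.Helper294.HallM.ClField
import Pool.Agent.Helper294.HallM.ClGroup
import Pool.Agent.Helper294.HallM.ClSys
import Pool.Agent.Helper294.HallM.ClTransfer

set_option autoImplicit false

namespace Pool.Agent.Helper294.HallM

open Module Pool.Agent.Helper946.HC


/-- the Clifford step, ring form. -/
theorem cliff {K R G A Q' : Type} [DivisionRing K] [Ring R] [Group G]
    [AddCommGroup A] [Module K A] [Module R A] [DistribMulAction G A] [Group Q']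
    (hs : ∀ g : G, Semi K (ac g : A ≃+ A))
    (κ : K →+* R) (hκ : ∀ (k : K) (a : A), k • a = κ k • a)
    (hnorm : ∀ (g : G) (r : R), ∃ r' : R, ∀ a : A, g • (r • a) = r' • (g • a))
    (U : Submodule R A) (hU : IsSimpleModule R ↥U) (U₀ : Submodule K A)
    (hU₀ : ∀ x, x ∈ U₀ ↔ x ∈ U) (hfd : FiniteDimensional K U₀)
    (hex : ∀ g : G, ∃ α : ↥U ≃+ ↥U, Cpt U g α)
    (ρ' : G →* Q') (hm : MainFor Q')
    (hker : ∀ g, ρ' g = 1 → ∃ r : R, ∀ a : A, g • a = r • a)
    (S : Finset A) (hSM : ∀ s ∈ S, s ∈ isotypicComponent R A ↥U)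
    (hspan : ∀ x ∈ isotypicComponent R A ↥U,
      x ∈ Submodule.span K {y : A | ∃ g : G, ∃ s ∈ S, y = g • s}) :
    ∃ l d : ℕ, ∀ (g : G) (W : Submodule K A), (∀ x ∈ W, x ∈ isotypicComponent R A ↥U) →
      FiniteDimensional K W → Stable (ac g) W → Bdd (ac g : A ≃+ A) l d W := by
  obtain ⟨K₂, i1, i2, e, he⟩ := cl_field U hU
  obtain ⟨G', i3, p, q, hq, hc, hex2⟩ := cl_group hnorm U
  have hp : Function.Surjective p := by
    intro g
    obtain ⟨α, hα⟩ := hex g
    obtain ⟨γ, h1, _⟩ := hex2 g α hα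
    exact ⟨γ, h1⟩
  obtain ⟨i4, hact⟩ := cl_act hnorm U p q hq hc
  have hsys := cl_sys κ hκ hnorm U hU p q hq hc hp hact e he ρ' hker S hSM hspan
  have hT := hm K₂ G' _ _ hsys
  exact cl_transfer hs κ hκ hnorm U hU U₀ hU₀ hfd p q hq hc hp hact e he hT

end Pool.Agent.Helper294.HallM
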