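import Pool.Agent.Helper294.HallM.Defs
import Pool.Agent.Helper294.HallM.Cliff
import Pool.Agent.Helper294.HallM.FgOfNoe
import Pool.Agent.Helper294.HallM.GmStable
import Pool.Agent.Helper294.HallM.OpComp
import Pool.Agent.Helper294.HallM.OpNorm
import Pool.Agent.Helper294.HallM.OpSub

set_option autoImplicit false

namespace Pool.Agent.Helper294.HallM

open Module Pool.Agent.Helper946.HC


theorem clif_T_gmSt {K G A : Type} [DivisionRing K] [Group G] [AddCommGroup A] [Module K A]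
    [DistribMulAction G A] (hs : ∀ g : G, Semi K (ac g : A ≃+ A)) (N : Subgroup G) (hN : N.Normal)
    (U : Submodule K A) (hU : St N U) (g : G) : St N (gm g U : Submodule K A) := by
  intro n hn x hx
  rw [(gm_stable hs U).1] at hx ⊢
  have h1 : g⁻¹ • n • x = (g⁻¹ * n * g) • (g⁻¹ • x) := by
    simp only [← mul_smul]
    congr 1
    group
  rw [h1]
  exact hU _ (by simpa using hN.conj_mem n hn g⁻¹) _ hx

theorem clif_T_comm {K G A : Type} [DivisionRing K] [Group G] [AddCommGroup A] [Module K A]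
    [DistribMulAction G A] (N : Subgroup G) (V U : Submodule K A) (hV : St N V)
    (f : V ≃ₗ[K] U)
    (hf : ∀ n ∈ N, ∀ x y : V, (y : A) = n • (x : A) → (f y : A) = n • (f x : A))
    (φ : AddMonoid.End A) (hφ : φ ∈ opR K (A := A) N) :
    ∀ y : V, ∃ z : V, (z : A) = φ (y : A) ∧ (f z : A) = φ (f y : A) := by
  unfold opR at hφ
  induction hφ using Subring.closure_induction with
  | mem φ h =>
    rcases h with ⟨k, hk⟩ | ⟨n, hn, hk⟩
    · intro y
      refine ⟨k • y, ?_, ?_⟩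
      · rw [hk]; rfl
      · rw [map_smul, hk]; rfl
    · intro y
      refine ⟨⟨n • (y : A), hV n hn _ y.2⟩, ?_, ?_⟩
      · rw [hk]
      · rw [hf n hn y ⟨n • (y : A), hV n hn _ y.2⟩ rfl, hk]
  | zero =>
    intro y
    refine ⟨0, ?_, ?_⟩
    · simp
    · simp
  | one =>
    intro y
    exact ⟨y, rfl, rfl⟩
  | add a b ha hb iha ihb =>
    intro y
    obtain ⟨z1, h1, h2⟩ := iha y
    obtain ⟨z2, h3, h4⟩ := ihb y
    refine ⟨z1 + z2, ?_, ?_⟩
    · rw [Submodule.coe_add, h1, h3]; rfl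
    · rw [map_add, Submodule.coe_add, h2, h4]; rfl
  | neg a ha iha =>
    intro y
    obtain ⟨z1, h1, h2⟩ := iha y
    refine ⟨-z1, ?_, ?_⟩
    · rw [Submodule.coe_neg, h1]; rfl
    · rw [map_neg, Submodule.coe_neg, h2]; rfl
  | mul a b ha hb iha ihb =>
    intro y
    obtain ⟨z1, h1, h2⟩ := ihb y
    obtain ⟨z2, h3, h4⟩ := iha z1
    refine ⟨z2, ?_, ?_⟩
    · rw [h3, h1]; rfl
    · rw [h4, h2]; rfl

theorem clif_T {K G A Q' : Type} [DivisionRing K] [Group G] [AddCommGroup A] [Module K A]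
    [DistribMulAction G A] [Group Q'] (hs : ∀ g : G, Semi K (ac g : A ≃+ A)) (ρ' : G →* Q')
    (hm : MainFor Q') (U : Submodule K A) (h0 : U ≠ ⊥) (hfd : FiniteDimensional K U)
    (hU : St ρ'.ker U) (hmin : ∀ V ≤ U, St ρ'.ker V → V = ⊥ ∨ V = U) (L : Subgroup G)
    (hNL : ρ'.ker ≤ L) (hL : ∀ g, g ∈ L ↔ IsoN ρ'.ker (gm g U) U)
    (hst : St L (isoM ρ'.ker U : Submodule K A))
    (hN : NoethFor (L : Set G) (isoM ρ'.ker U : Submodule K A)) :
    TOn L (isoM ρ'.ker U : Submodule K A) := by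
  obtain ⟨o1, o2, ⟨κ, hκ⟩, o4⟩ := op_sub (K := K) (A := A) ρ'.ker
  obtain ⟨U', hU'⟩ := o1 U hU
  have hsimple : IsSimpleModule ↥(opR K (A := A) ρ'.ker) ↥U' := by
    rw [isSimpleModule_iff_isAtom]
    constructor
    · intro e
      apply h0
      rw [eq_bot_iff]
      intro x hx
      have hx' := (hU' x).2 hx
      rw [e, Submodule.mem_bot] at hx'
      rw [hx']
      exact Submodule.zero_mem _
    · intro V' hV'
      obtain ⟨V, hVst, hVm⟩ := o2 V'
      have hle : V ≤ U := fun x hx => (hU' x).1 (hV'.le ((hVm x).1 hx))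
      rcases hmin V hle hVst with e | e
      · rw [eq_bot_iff]
        intro x hx
        have hx' := (hVm x).2 hx
        rw [e, Submodule.mem_bot] at hx'
        rw [hx']
        exact Submodule.zero_mem _
      · exfalso
        apply hV'.ne
        ext x
        rw [← hVm x, hU' x, e]
  obtain ⟨S, hS1, hS2⟩ := fg_of_noe hs L (isoM ρ'.ker U : Submodule K A) hst hN
  have hex : ∀ g : ↥L, ∃ α : ↥U' ≃+ ↥U', Cpt U' g α := by
    intro g
    obtain ⟨f, hf⟩ := (hL (g : G)).1 g.2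
    have hgm := (gm_stable hs U).1
    have hVst := clif_T_gmSt hs ρ'.ker ρ'.normal_ker U hU (g : G)
    have mem1 : ∀ x : ↥U', (g : G) • (x : A) ∈ (gm (g : G) U : Submodule K A) := by
      intro x
      rw [hgm, inv_smul_smul]
      exact (hU' _).1 x.2
    have mem2 : ∀ x : ↥(gm (g : G) U : Submodule K A), (g : G)⁻¹ • (x : A) ∈ U' := by
      intro x
      exact (hU' _).2 ((hgm _ _).1 x.2)
    let e1 : ↥U' ≃+ ↥(gm (g : G) U : Submodule K A) :=
      { toFun := fun x => ⟨(g : G) • (x : A), mem1 x⟩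
        invFun := fun x => ⟨(g : G)⁻¹ • (x : A), mem2 x⟩
        left_inv := fun x => Subtype.ext (inv_smul_smul _ _)
        right_inv := fun x => Subtype.ext (smul_inv_smul _ _)
        map_add' := fun x y => Subtype.ext (smul_add _ _ _) }
    let e3 : ↥U ≃+ ↥U' :=
      { toFun := fun x => ⟨(x : A), (hU' _).2 x.2⟩
        invFun := fun x => ⟨(x : A), (hU' _).1 x.2⟩
        left_inv := fun x => rfl
        right_inv := fun x => rfl
        map_add' := fun x y => rfl }
    refine ⟨e1.trans (f.toAddEquiv.trans e3), ?_⟩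
    intro r r' hrr x
    apply Subtype.ext
    obtain ⟨z, hz1, hz2⟩ := clif_T_comm ρ'.ker (gm (g : G) U : Submodule K A) U hVst f hf
      (r' : AddMonoid.End A) r'.2 (e1 x)
    have hz : z = e1 (r • x) := by
      apply Subtype.ext
      rw [hz1]
      exact (hrr (x : A)).symm
    rw [hz] at hz2
    exact hz2
  obtain ⟨l, d, hld⟩ := cliff (G := ↥L) (Q' := Q') (fun g => by
      obtain ⟨σ, hσ⟩ := hs (g : G)
      exact ⟨σ, fun k x => hσ k x⟩) κ hκ
    (fun g r => op_norm hs ρ'.ker ρ'.normal_ker (g : G) r) U' hsimple U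
    (fun x => (hU' x).symm) hfd hex (ρ'.comp L.subtype) hm
    (fun g hg => o4 (g : G) hg) S
    (fun s hs' => (op_comp ρ'.ker U hU U' hU' s).2 (hS1 s hs'))
    (fun x hx => by
      have hx1 := (op_comp ρ'.ker U hU U' hU' x).1 hx
      rw [hS2] at hx1
      refine Submodule.span_mono ?_ hx1
      rintro y ⟨g, hg, s, hs', rfl⟩
      exact ⟨⟨g, hg⟩, s, hs', rfl⟩)
  refine ⟨l, d, ?_⟩
  intro g hg W hW hWfd hWst
  exact hld ⟨g, hg⟩ W (fun x hx => (op_comp ρ'.ker U hU U' hU' x).2 (hW hx)) hWfd hWst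

end Pool.Agent.Helper294.HallM
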