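import Pool.Agent.Helper294.HallM.Defs
import Pool.Agent.Helper294.HallM.GmStable

set_option autoImplicit false

namespace Pool.Agent.Helper294.HallM

open Module Pool.Agent.Helper946.HC


theorem ind_proj_sum {K G A : Type} [DivisionRing K] [Group G] [AddCommGroup A] [Module K A]
    [DistribMulAction G A] (hs : ∀ g : G, Semi K (ac g : A ≃+ A)) (L : Subgroup G)
    (M : Submodule K A) (hi : Ind L M) [DecidableEq (G ⧸ L)] (x : Π₀ c : G ⧸ L, (gm (Quotient.out c) M : Submodule K A))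
    (hx : DFinsupp.lsum ℕ (fun c : G ⧸ L => (gm (Quotient.out c) M : Submodule K A).subtype) x = 0) :
    x = 0 := by
  classical
  have hmem := (gm_stable hs M).1
  have hout : ∀ c : G ⧸ L, ((Quotient.out c : G) : G ⧸ L) = c := fun c => QuotientGroup.out_eq' c
  obtain ⟨xf, hxf⟩ : ∃ xf : G ⧸ L → A, ∀ c, xf c = ((x c : (gm (Quotient.out c) M : Submodule K A)) : A) :=
    ⟨_, fun c => rfl⟩
  have hxm : ∀ c, (Quotient.out c : G)⁻¹ • xf c ∈ M := by
    intro c
    rw [hxf]
    exact (hmem _ _).mp (x c).2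
  have h1 := hi (x.support.image (fun c : G ⧸ L => (Quotient.out c : G)))
    (fun g => xf (g : G ⧸ L))
    (by
      intro g hg h hh hgh hc
      rw [Finset.mem_image] at hg hh
      obtain ⟨a, _, rfl⟩ := hg
      obtain ⟨b, _, rfl⟩ := hh
      apply hgh
      have := (QuotientGroup.eq (s := L)).mpr hc
      rw [hout, hout] at this
      rw [this])
    (by
      intro g hg
      rw [Finset.mem_image] at hg
      obtain ⟨a, _, rfl⟩ := hg
      rw [hout a]
      exact hxm a)
    (by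
      rw [Finset.sum_image]
      · rw [DFinsupp.lsum_apply_apply, DFinsupp.sumAddHom_apply] at hx
        rw [DFinsupp.sum] at hx
        refine Eq.trans ?_ hx
        refine Finset.sum_congr rfl fun a _ => ?_
        rw [hout a, hxf]
        rfl
      · intro a _ b _ hab
        have := congrArg (fun g : G => (g : G ⧸ L)) hab
        simpa only [hout] using this)
  ext c
  by_cases hc : c ∈ x.support
  · have h2 := h1 _ (Finset.mem_image_of_mem _ hc)
    rw [hout c, hxf] at h2
    rw [h2]; rfl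
  · rw [DFinsupp.notMem_support_iff] at hc
    rw [hc]; rfl

theorem ind_proj {K G A : Type} [DivisionRing K] [Group G] [AddCommGroup A] [Module K A]
    [DistribMulAction G A] (hs : ∀ g : G, Semi K (ac g : A ≃+ A)) (L : Subgroup G)
    (M : Submodule K A) (hM : St L M) (hi : Ind L M) :
    ∃ π : G → (↥(⨆ g : G, (gm g M : Submodule K A)) →ₗ[K] A),
      (∀ g x, g⁻¹ • π g x ∈ M) ∧
      (∀ g h, g⁻¹ * h ∈ L → π g = π h) ∧
      (∀ g h, ∀ x : ↥(⨆ g : G, (gm g M : Submodule K A)), h⁻¹ • (x : A) ∈ M →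
        (g⁻¹ * h ∈ L → π g x = x) ∧ (g⁻¹ * h ∉ L → π g x = 0)) ∧
      (∀ x, (∀ g, π g x = 0) → x = 0) ∧
      (∀ x, ∃ s : Finset G, ∀ g, (∀ h ∈ s, h⁻¹ * g ∉ L) → π g x = 0) := by
  classical
  have hmem := (gm_stable hs M).1
  have hout : ∀ c : G ⧸ L, ((Quotient.out c : G) : G ⧸ L) = c := fun c => QuotientGroup.out_eq' c
  -- translates depend on the coset only
  have hcos : ∀ (g h : G) (x : A), g⁻¹ * h ∈ L → g⁻¹ • x ∈ M → h⁻¹ • x ∈ M := by
    intro g h x hgh hx
    have e1 : h⁻¹ • x = (g⁻¹ * h)⁻¹ • (g⁻¹ • x) := by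
      rw [← mul_smul]; congr 1; group
    rw [e1]
    exact hM _ (inv_mem hgh) _ hx
  have hcos' : ∀ (g h : G) (x : A), (g : G ⧸ L) = (h : G ⧸ L) → g⁻¹ • x ∈ M → h⁻¹ • x ∈ M :=
    fun g h x hgh hx => hcos g h x (QuotientGroup.eq.mp hgh) hx
  set N : G ⧸ L → Submodule K A := fun c => gm (Quotient.out c) M with hN
  have hNmem : ∀ (g : G) (x : A), x ∈ N (g : G ⧸ L) ↔ g⁻¹ • x ∈ M := by
    intro g x
    simp only [hN]
    rw [hmem]
    exact ⟨hcos' _ _ x (hout _), hcos' _ _ x (hout _).symm⟩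
  set Φ : (Π₀ c, N c) →ₗ[K] A := DFinsupp.lsum ℕ (fun c => (N c).subtype) with hΦ
  have hinj : Function.Injective Φ := by
    rw [← LinearMap.ker_eq_bot, LinearMap.ker_eq_bot']
    intro x hx
    exact ind_proj_sum hs L M hi x hx
  have hrange : LinearMap.range Φ = ⨆ g : G, (gm g M : Submodule K A) := by
    rw [hΦ, ← Submodule.iSup_eq_range_dfinsupp_lsum]
    apply le_antisymm
    · exact iSup_le fun c => le_iSup (fun g : G => (gm g M : Submodule K A)) (Quotient.out c)
    · refine iSup_le fun g => ?_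
      refine le_trans ?_ (le_iSup N (g : G ⧸ L))
      intro x hx
      rw [hNmem]
      exact (hmem g x).mp hx
  let e : (Π₀ c, N c) ≃ₗ[K] ↥(⨆ g : G, (gm g M : Submodule K A)) :=
    (LinearEquiv.ofInjective Φ hinj).trans (LinearEquiv.ofEq _ _ hrange)
  have he : ∀ y, ((e y : ↥(⨆ g : G, (gm g M : Submodule K A))) : A) = Φ y := fun y => rfl
  refine ⟨fun g => (N (g : G ⧸ L)).subtype ∘ₗ (DFinsupp.lapply (g : G ⧸ L)) ∘ₗ e.symm.toLinearMap,
    ?_, ?_, ?_, ?_, ?_⟩
  · intro g x
    have := (e.symm x (g : G ⧸ L)).2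
    rw [hNmem] at this
    exact this
  · intro g h hgh
    have : (g : G ⧸ L) = (h : G ⧸ L) := QuotientGroup.eq.mpr hgh
    show (N (g : G ⧸ L)).subtype ∘ₗ (DFinsupp.lapply (g : G ⧸ L)) ∘ₗ e.symm.toLinearMap =
      (N (h : G ⧸ L)).subtype ∘ₗ (DFinsupp.lapply (h : G ⧸ L)) ∘ₗ e.symm.toLinearMap
    rw [this]
  · intro g h x hx
    have hxN : (x : A) ∈ N (h : G ⧸ L) := (hNmem h x).mpr hx
    have e1 : e.symm x = DFinsupp.single (h : G ⧸ L) ⟨(x : A), hxN⟩ := by
      rw [LinearEquiv.symm_apply_eq]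
      apply Subtype.ext
      rw [he, hΦ, DFinsupp.lsum_single]
      rfl
    have e2 : ∀ c : G ⧸ L, ((e.symm x c : N c) : A) = if c = (h : G ⧸ L) then (x : A) else 0 := by
      intro c
      rw [e1]
      split_ifs with hc
      · subst hc
        rw [DFinsupp.single_eq_same]
      · rw [DFinsupp.single_eq_of_ne hc]
        rfl
    constructor
    · intro hgh
      have hc : (g : G ⧸ L) = (h : G ⧸ L) := QuotientGroup.eq.mpr hgh
      show ((e.symm x (g : G ⧸ L) : N (g : G ⧸ L)) : A) = x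
      rw [e2, if_pos hc]
    · intro hgh
      have hc : (g : G ⧸ L) ≠ (h : G ⧸ L) := fun h' => hgh (QuotientGroup.eq.mp h')
      show ((e.symm x (g : G ⧸ L) : N (g : G ⧸ L)) : A) = 0
      rw [e2, if_neg hc]
  · intro x hx
    have : e.symm x = 0 := by
      ext c
      have h1 := hx (Quotient.out c)
      have h2 : ((e.symm x ((Quotient.out c : G) : G ⧸ L) : N _) : A) = 0 := h1
      rw [hout c] at h2
      rw [h2]; rfl
    simpa using this
  · intro x
    refine ⟨(e.symm x).support.image (fun c : G ⧸ L => (Quotient.out c : G)), ?_⟩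
    intro g hg
    show ((e.symm x (g : G ⧸ L) : N (g : G ⧸ L)) : A) = 0
    by_contra hne
    have hc : (g : G ⧸ L) ∈ (e.symm x).support := by
      rw [DFinsupp.mem_support_iff]
      intro h0
      apply hne
      rw [h0]; rfl
    apply hg _ (Finset.mem_image_of_mem _ hc)
    rw [← QuotientGroup.eq, hout]

end Pool.Agent.Helper294.HallM
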