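import Pool.Agent.Helper294.HallM.Defs
import Pool.Agent.Helper294.HX.HCRad
import Pool.Agent.Helper294.HX.HCPoly
import Pool.Agent.Helper294.HallM.GmStable
import Pool.Agent.Helper294.HallM.IndProj

set_option autoImplicit false

namespace Pool.Agent.Helper294.HallM

open Module Pool.Agent.Helper946.HC


theorem ind_bdd_iso {G Q : Type} [Group G] [Group Q] {ρ : G →* Q} (L : Subgroup G)
    (hL : ρ.ker ≤ L) (e : ℕ)
    (he : ∀ v : Q, (∃ n : ℕ, 0 < n ∧ v ^ n ∈ L.map ρ) → v ^ e ∈ L.map ρ)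
    (v : G) (h : ∃ n : ℕ, 0 < n ∧ v ^ n ∈ L) : v ^ e ∈ L := by
  obtain ⟨n, hn, hv⟩ := h
  have h1 := he (ρ v) ⟨n, hn, by rw [← map_pow]; exact Subgroup.mem_map_of_mem ρ hv⟩
  rw [← map_pow] at h1
  obtain ⟨y, hy, hyv⟩ := Subgroup.mem_map.mp h1
  have h2 : y⁻¹ * v ^ e ∈ ρ.ker := by
    rw [MonoidHom.mem_ker, map_mul, map_inv, hyv, inv_mul_cancel]
  have h3 := L.mul_mem hy (hL h2)
  rwa [mul_inv_cancel_left] at h3

theorem ind_bdd_fd {K A : Type} [DivisionRing K] [AddCommGroup A] [Module K A]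
    (W W₂ : Submodule K A) [FiniteDimensional K W] (φ : A →+ A) (τ : K ≃+* K)
    (hφ : ∀ (k : K) (x : A), φ (k • x) = τ k • φ x)
    (hW₂ : ∀ y, y ∈ W₂ ↔ ∃ x ∈ W, φ x = y) : FiniteDimensional K W₂ := by
  classical
  have hfg : W.FG := (Submodule.fg_top W).mp (Module.Finite.fg_top)
  obtain ⟨S, hS⟩ := hfg
  have h : W₂.FG := by
    refine ⟨S.image φ, ?_⟩
    apply le_antisymm
    · rw [Submodule.span_le]
      intro y hy
      simp only [Finset.coe_image, Set.mem_image, Finset.mem_coe] at hy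
      obtain ⟨x, hx, rfl⟩ := hy
      refine (hW₂ _).mpr ⟨x, ?_, rfl⟩
      rw [← hS]; exact Submodule.subset_span hx
    · intro y hy
      obtain ⟨x, hx, rfl⟩ := (hW₂ y).mp hy
      rw [← hS] at hx
      induction hx using Submodule.span_induction with
      | mem x hx =>
        apply Submodule.subset_span
        simp only [Finset.coe_image, Set.mem_image, Finset.mem_coe]
        exact ⟨x, hx, rfl⟩
      | zero => rw [map_zero]; exact Submodule.zero_mem _
      | add x y hx' hy' ihx ihy =>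
        rw [map_add]
        refine Submodule.add_mem _ (ihx ?_) (ihy ?_)
        · exact (hW₂ _).mpr ⟨x, by rw [← hS]; exact hx', rfl⟩
        · exact (hW₂ _).mpr ⟨y, by rw [← hS]; exact hy', rfl⟩
      | smul k x hx' ihx =>
        rw [hφ]
        refine Submodule.smul_mem _ _ (ihx ?_)
        exact (hW₂ _).mpr ⟨x, by rw [← hS]; exact hx', rfl⟩
  exact Module.Finite.of_fg h

theorem ind_bdd {K G A Q : Type} [DivisionRing K] [Group G] [AddCommGroup A] [Module K A]
    [DistribMulAction G A] [Group Q] {ρ : G →* Q} (hQ : PC Q)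
    (hs : ∀ g : G, Semi K (ac g : A ≃+ A)) (L : Subgroup G) (hL : ρ.ker ≤ L)
    (M : Submodule K A) (hM : St L M) (hi : Ind L M) (hT : TOn L M) :
    TOn (⊤ : Subgroup G) (⨆ g : G, (gm g M : Submodule K A)) := by
  classical
  obtain ⟨π, hπM, hπc, hπv, hπi, hπf⟩ := ind_proj hs L M hM hi
  obtain ⟨l, d, hld⟩ := hT
  obtain ⟨hgm, hBst, hMB⟩ := gm_stable hs M
  obtain ⟨e, he, hel⟩ := iso_exp hQ (L.map ρ)
  have hB' : ∀ (g : G) (x : A), x ∈ (⨆ g : G, (gm g M : Submodule K A)) →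
      g • x ∈ (⨆ g : G, (gm g M : Submodule K A)) := fun g x hx => hBst g trivial x hx
  -- equivariance
  have heq : ∀ (g c : G) (x : A) (hx : x ∈ (⨆ g : G, (gm g M : Submodule K A))),
      π (g * c) ⟨g • x, hB' g x hx⟩ = g • π c ⟨x, hx⟩ := by
    intro g c x hx
    have key : ∃ hx : x ∈ (⨆ g : G, (gm g M : Submodule K A)),
        π (g * c) ⟨g • x, hB' g x hx⟩ = g • π c ⟨x, hx⟩ := by
      refine Submodule.iSup_induction (fun g : G => (gm g M : Submodule K A))
        (motive := fun x => ∃ hx : x ∈ (⨆ g : G, (gm g M : Submodule K A)),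
        π (g * c) ⟨g • x, hB' g x hx⟩ = g • π c ⟨x, hx⟩) hx ?_ ?_ ?_
      · intro h x hxh
        have hxB : x ∈ (⨆ g : G, (gm g M : Submodule K A)) :=
          (le_iSup (fun g : G => (gm g M : Submodule K A)) h) hxh
        refine ⟨hxB, ?_⟩
        have h1 : h⁻¹ • x ∈ M := (hgm h x).mp hxh
        have h2 : (g * h)⁻¹ • (g • x) ∈ M := by
          rw [mul_inv_rev, mul_smul, inv_smul_smul]; exact h1
        have h3 := hπv c h ⟨x, hxB⟩ h1
        have h4 := hπv (g * c) (g * h) ⟨g • x, hB' g x hxB⟩ h2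
        have h5 : (g * c)⁻¹ * (g * h) = c⁻¹ * h := by group
        rw [h5] at h4
        by_cases hc : c⁻¹ * h ∈ L
        · rw [h4.1 hc, h3.1 hc]
        · rw [h4.2 hc, h3.2 hc, smul_zero]
      · refine ⟨Submodule.zero_mem _, ?_⟩
        have e1 : (⟨g • (0 : A), hB' g 0 (Submodule.zero_mem _)⟩ :
            ↥(⨆ g : G, (gm g M : Submodule K A))) = 0 := by
          apply Subtype.ext; simp
        have e2 : (⟨(0 : A), Submodule.zero_mem _⟩ :
            ↥(⨆ g : G, (gm g M : Submodule K A))) = 0 := rfl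
        rw [e1, e2, map_zero, map_zero, smul_zero]
      · rintro x y ⟨hx, ex⟩ ⟨hy, ey⟩
        refine ⟨Submodule.add_mem _ hx hy, ?_⟩
        have e1 : (⟨g • (x + y), hB' g _ (Submodule.add_mem _ hx hy)⟩ :
            ↥(⨆ g : G, (gm g M : Submodule K A))) = ⟨g • x, hB' g x hx⟩ + ⟨g • y, hB' g y hy⟩ := by
          apply Subtype.ext; simp [smul_add]
        have e2 : (⟨x + y, Submodule.add_mem _ hx hy⟩ :
            ↥(⨆ g : G, (gm g M : Submodule K A))) = ⟨x, hx⟩ + ⟨y, hy⟩ := rfl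
        rw [e1, e2, map_add, map_add, ex, ey, smul_add]
    obtain ⟨_, h⟩ := key
    exact h
  refine ⟨l, e * d, ?_⟩
  intro g _ W hWB hWfd hW
  haveI := hWfd
  have hWg : ∀ x ∈ W, g • x ∈ W := fun x hx => (hW x).mpr hx
  have hWgk : ∀ (k : ℕ), ∀ x ∈ W, g ^ k • x ∈ W := by
    intro k
    induction k with
    | zero => intro x hx; simpa using hx
    | succ k ih => intro x hx; rw [pow_succ', mul_smul]; exact hWg _ (ih x hx)
  -- finite set of cosets
  obtain ⟨F, hF⟩ : ∃ F : Finset G, ∀ c : G, (∀ h ∈ F, h⁻¹ * c ∉ L) →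
      ∀ x (hx : x ∈ W), π c ⟨x, hWB hx⟩ = 0 := by
    have hfg : W.FG := (Submodule.fg_top W).mp (Module.Finite.fg_top)
    obtain ⟨S, hS⟩ := hfg
    have hSW : ∀ x ∈ S, x ∈ W := by
      intro x hx; rw [← hS]; exact Submodule.subset_span hx
    choose s hs' using hπf
    refine ⟨S.attach.biUnion fun x => s ⟨x.1, hWB (hSW x.1 x.2)⟩, ?_⟩
    intro c hc x hx
    have hsub : W ≤ Submodule.map (⨆ g : G, (gm g M : Submodule K A)).subtype
        (LinearMap.ker (π c)) := by
      rw [← hS, Submodule.span_le]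
      intro y hy
      refine ⟨⟨y, hWB (hSW y hy)⟩, ?_, rfl⟩
      show π c _ = 0
      apply hs'
      intro h hh
      apply hc
      rw [Finset.mem_biUnion]
      exact ⟨⟨y, hy⟩, Finset.mem_attach _ _, hh⟩
    obtain ⟨z, hz, hzx⟩ := hsub hx
    have : (⟨x, hWB hx⟩ : ↥(⨆ g : G, (gm g M : Submodule K A))) = z := Subtype.ext hzx.symm
    rw [this]; exact hz
  have hcl : ∀ (c : G) (x : A) (hx : x ∈ W), π c ⟨x, hWB hx⟩ ≠ 0 → c⁻¹ * g ^ e * c ∈ L := by
    intro c x hx hne
    have hk : ∀ k : ℕ, ∃ h : F, (h : G)⁻¹ * (g ^ k * c) ∈ L := by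
      intro k
      by_contra hcon
      push Not at hcon
      have h0 := hF (g ^ k * c) (fun h hh => hcon ⟨h, hh⟩) (g ^ k • x) (hWgk k x hx)
      have h1 := heq (g ^ k) c x (hWB hx)
      have h2 : π (g ^ k * c) ⟨g ^ k • x, hB' (g ^ k) x (hWB hx)⟩ = 0 := h0
      rw [h2] at h1
      have h3 : π c ⟨x, hWB hx⟩ = 0 := by
        have := congrArg (fun z => (g ^ k)⁻¹ • z) h1
        simp only [smul_zero, inv_smul_smul] at this
        exact this.symm
      exact hne h3
    choose h hh using hk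
    obtain ⟨i, j, hij, hhij⟩ := Finite.exists_ne_map_eq_of_infinite h
    have main : ∀ i j : ℕ, i < j → h i = h j → (c⁻¹ * g * c) ^ e ∈ L := by
      intro i j hlt hhij
      apply ind_bdd_iso L hL e hel
      refine ⟨j - i, Nat.sub_pos_of_lt hlt, ?_⟩
      have h1 := L.mul_mem (L.inv_mem (hh i)) (hh j)
      rw [← hhij] at h1
      have h2 : ((h i : G)⁻¹ * (g ^ i * c))⁻¹ * ((h i : G)⁻¹ * (g ^ j * c)) = (c⁻¹ * g * c) ^ (j - i) := by
        have h3 : g ^ j = g ^ i * g ^ (j - i) := by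
          rw [← pow_add]; congr 1; omega
        have h4 : (c⁻¹ * g * c) ^ (j - i) = c⁻¹ * g ^ (j - i) * c := by
          have := conj_pow (i := j - i) (a := c⁻¹) (b := g)
          rw [inv_inv] at this
          exact this
        rw [h3, h4]; group
      rw [h2] at h1
      exact h1
    have h5 : (c⁻¹ * g * c) ^ e ∈ L := by
      rcases lt_or_gt_of_ne hij with hlt | hlt
      · exact main i j hlt hhij
      · exact main j i hlt hhij.symm
    have h4 : (c⁻¹ * g * c) ^ e = c⁻¹ * g ^ e * c := by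
      have := conj_pow (i := e) (a := c⁻¹) (b := g)
      rw [inv_inv] at this
      exact this
    rwa [h4] at h5
  have hpow : ∀ (n : ℕ) (x : A), (ac (g ^ n) : A ≃+ A) x = (⇑(ac g : A ≃+ A))^[n] x := by
    intro n
    induction n with
    | zero => intro x; simp
    | succ n ih =>
      intro x
      rw [Function.iterate_succ_apply', ← ih]
      show g ^ (n + 1) • x = g • (g ^ n • x)
      rw [pow_succ', mul_smul]
  have hWe : Stable (ac (g ^ e) : A ≃+ A) W := stable_pow hW e (hpow e)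
  refine bdd_pow (hs g) hW he (hpow e) ?_
  refine bdd_of_maps hWe l d ?_
  intro x hx hx0
  obtain ⟨c, hc⟩ : ∃ c : G, π c ⟨x, hWB hx⟩ ≠ 0 := by
    by_contra hcon
    push Not at hcon
    have := hπi ⟨x, hWB hx⟩ hcon
    exact hx0 (congrArg Subtype.val this)
  have hcL : c⁻¹ * g ^ e * c ∈ L := hcl c x hx hc
  obtain ⟨p, hp⟩ := LinearMap.exists_extend (π c)
  have hp' : ∀ (y : A) (hy : y ∈ (⨆ g : G, (gm g M : Submodule K A))), p y = π c ⟨y, hy⟩ := by
    intro y hy
    rw [← hp]; rfl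
  obtain ⟨τ, hτ⟩ := hs c⁻¹
  let φ : A →+ A := (ac c⁻¹ : A ≃+ A).toAddMonoidHom.comp p.toAddMonoidHom
  have hφ : ∀ y, φ y = c⁻¹ • p y := fun y => rfl
  have hφk : ∀ (k : K) (y : A), φ (k • y) = τ k • φ y := by
    intro k y
    rw [hφ, hφ, map_smul]
    exact hτ k (p y)
  let W₂ : Submodule K A :=
    { carrier := {y | ∃ x ∈ W, φ x = y}
      add_mem' := by
        rintro _ _ ⟨a, ha, rfl⟩ ⟨b, hb, rfl⟩
        exact ⟨a + b, W.add_mem ha hb, map_add φ a b⟩
      zero_mem' := ⟨0, W.zero_mem, map_zero φ⟩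
      smul_mem' := by
        rintro k _ ⟨a, ha, rfl⟩
        refine ⟨τ.symm k • a, W.smul_mem _ ha, ?_⟩
        rw [hφk, RingEquiv.apply_symm_apply] }
  have hW₂ : ∀ y, y ∈ W₂ ↔ ∃ x ∈ W, φ x = y := fun y => Iff.rfl
  have hcomm : ∀ y ∈ W, φ (g ^ e • y) = (c⁻¹ * g ^ e * c) • φ y := by
    intro y hy
    have h1 : π c = π (g ^ e * c) := hπc c (g ^ e * c) (by rw [← mul_assoc]; exact hcL)
    rw [hφ, hφ, hp' _ (hB' (g ^ e) y (hWB hy)), h1, heq (g ^ e) c y (hWB hy), hp' y (hWB hy)]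
    simp only [mul_smul, smul_inv_smul]
  refine ⟨K, A, inferInstance, inferInstance, inferInstance, τ, φ, ac (c⁻¹ * g ^ e * c), W₂,
    hs _, ?_, ?_, hW₂, ?_, ?_⟩
  · intro k y _
    exact hφk k y
  · intro y hy
    refine ⟨1, one_ne_zero, ?_⟩
    rw [one_smul]
    exact hcomm y hy
  · apply hld _ hcL W₂
    · rintro _ ⟨y, hy, rfl⟩
      rw [hφ, hp' y (hWB hy)]
      exact hπM c _
    · exact ind_bdd_fd W W₂ φ τ hφk hW₂
    · intro y
      constructor
      · rintro ⟨a, ha, hay⟩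
        have h1 : (g ^ e)⁻¹ • a ∈ W := by
          apply (hWe _).mp
          show g ^ e • ((g ^ e)⁻¹ • a) ∈ W
          rw [smul_inv_smul]; exact ha
        refine ⟨(g ^ e)⁻¹ • a, h1, ?_⟩
        have h2 := hcomm _ h1
        rw [smul_inv_smul, hay] at h2
        exact ((ac (c⁻¹ * g ^ e * c) : A ≃+ A).injective h2).symm
      · rintro ⟨a, ha, rfl⟩
        exact ⟨g ^ e • a, hWgk e a ha, hcomm a ha⟩
  · rw [hφ, hp' x (hWB hx)]
    intro h0
    apply hc
    have := congrArg (fun z => c • z) h0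
    simpa using this

end Pool.Agent.Helper294.HallM
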