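import Pool.Agent.Helper294.HallM.Defs
import Pool.Agent.Helper294.HallM.ClifInd
import Pool.Agent.Helper294.HallM.ClifL
import Pool.Agent.Helper294.HallM.ClifMin
import Pool.Agent.Helper294.HallM.ClifT
import Pool.Agent.Helper294.HallM.GmStable
import Pool.Agent.Helper294.HallM.IndBdd
import Pool.Agent.Helper294.HallM.IndNoe
import Pool.Agent.Helper294.HallM.SysNoe

set_option autoImplicit false

namespace Pool.Agent.Helper294.HallM

open Module Pool.Agent.Helper946.HC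


theorem case2a {K G A Q : Type} [DivisionRing K] [Group G] [AddCommGroup A] [Module K A]
    [DistribMulAction G A] [Group Q] {ρ : G →* Q} (hQ : PC Q) (hρ : Function.Surjective ρ)
    (hS : Sys K G A Q ρ) (E : Subgroup Q) [E.Normal] (hm : MainFor (Q ⧸ E))
    (U₀ : Submodule K A) (h0 : U₀ ≠ ⊥) (hfd : FiniteDimensional K U₀)
    (hst : St (E.comap ρ) U₀) :
    ∃ B : Submodule K A, B ≠ ⊥ ∧ St (⊤ : Subgroup G) B ∧ TOn (⊤ : Subgroup G) B := by
  set ρ' : G →* Q ⧸ E := (QuotientGroup.mk' E).comp ρ with hρ'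
  have hker : ρ'.ker = E.comap ρ := by
    rw [hρ', ← MonoidHom.comap_ker, QuotientGroup.ker_mk']
  have hkle : ρ.ker ≤ ρ'.ker := by
    intro g hg
    rw [MonoidHom.mem_ker] at hg ⊢
    rw [hρ', MonoidHom.comp_apply, hg, map_one]
  obtain ⟨U, hUle, hU0, hUfd, hUst, hmin⟩ := clif_min ρ'.ker U₀ h0 hfd (by rw [hker]; exact hst)
  obtain ⟨L, hNL, hL, hLst, hUL⟩ := clif_L hS.semi ρ'.ker inferInstance U hUst
  have hInd := clif_ind hS.semi ρ'.ker inferInstance U hU0 hUst hmin L hL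
  have hnoe := ind_noe hS.semi L (isoM ρ'.ker U) hLst hInd (sys_noe hQ hρ hS)
  have hT := clif_T hS.semi ρ' hm U hU0 hUfd hUst hmin L hNL hL hLst hnoe
  have hB := ind_bdd hQ hS.semi L (hkle.trans hNL) (isoM ρ'.ker U) hLst hInd hT
  obtain ⟨-, g2, g3⟩ := gm_stable hS.semi (isoM ρ'.ker U : Submodule K A)
  refine ⟨_, ?_, g2, hB⟩
  intro h
  rw [h] at g3
  apply hU0
  rw [eq_bot_iff]
  exact hUL.trans g3

end Pool.Agent.Helper294.HallM
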