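import Pool.Agent.Helper294.HallM.Defs
import Pool.Agent.Helper294.HX.HCCase2b

set_option autoImplicit false

namespace Pool.Agent.Helper294.HallM

open Module Pool.Agent.Helper946.HC

theorem case2b {K G A Q : Type} [DivisionRing K] [Group G] [AddCommGroup A] [Module K A]
    [DistribMulAction G A] [Group Q] {ρ : G →* Q} (hρ : Function.Surjective ρ)
    (hS : Sys K G A Q ρ) {r : ℕ} {ε : Multiplicative (Fin r → ℤ) →* Q} (hP : Plinth Q r ε)
    (hA : Nontrivial A) (htors : ∀ w : A, Tors (K := K) ρ ε w)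
    (hno : ∀ W : Submodule K A, FiniteDimensional K W → St (ε.range.comap ρ) W → W = ⊥) :
    ∃ (L : Subgroup G) (M : Submodule K A), ρ.ker ≤ L ∧ (L.map ρ).index = 0 ∧ M ≠ ⊥ ∧
      St L M ∧ Ind L M := by
  obtain ⟨L, M, h1, h2, h3, h4, h5, -⟩ :=
    Pool.Agent.Helper946.S4.case2b_full hρ hS hP htors hno
  exact ⟨L, M, h1, h2, h3, h4, h5⟩

end Pool.Agent.Helper294.HallM
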