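import Pool.Agent.Helper294.HX.HCDefs
import Pool.Agent.Helper294.HX.PHDefs

set_option autoImplicit false

namespace Pool.Agent.Helper294.HallM

open Module Pool.Agent.Helper946.HC

/-- independence of the translates of `M` over the cosets of `L`. -/
def Ind {K G A : Type} [DivisionRing K] [Group G] [AddCommGroup A] [Module K A]
    [DistribMulAction G A] (L : Subgroup G) (M : Submodule K A) : Prop :=
  ∀ (s : Finset G) (f : G → A), (∀ g ∈ s, ∀ h ∈ s, g ≠ h → g⁻¹ * h ∉ L) →
    (∀ g ∈ s, g⁻¹ • f g ∈ M) → ∑ g ∈ s, f g = 0 → ∀ g ∈ s, f g = 0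

/-- the main property for systems with surjective `ρ`. -/
def MainS (Q : Type) [Group Q] : Prop :=
  ∀ (K G A : Type) [DivisionRing K] [Group G] [AddCommGroup A] [Module K A]
    [DistribMulAction G A] (ρ : G →* Q), Function.Surjective ρ → Sys K G A Q ρ → TProp K G A

/-- nonzero systems contain a nonzero bounded stable subspace. -/
def LocFor (Q : Type) [Group Q] : Prop :=
  ∀ (K G A : Type) [DivisionRing K] [Group G] [AddCommGroup A] [Module K A]
    [DistribMulAction G A] (ρ : G →* Q), Function.Surjective ρ → Sys K G A Q ρ → Nontrivial A →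
    ∃ B : Submodule K A, B ≠ ⊥ ∧ St (⊤ : Subgroup G) B ∧ TOn (⊤ : Subgroup G) B

/-- `N`-equivariant isomorphism of subspaces. -/
def IsoN {K G A : Type} [DivisionRing K] [Group G] [AddCommGroup A] [Module K A]
    [DistribMulAction G A] (N : Subgroup G) (U V : Submodule K A) : Prop :=
  ∃ f : U ≃ₗ[K] V, ∀ n ∈ N, ∀ x y : U, (y : A) = n • (x : A) → (f y : A) = n • (f x : A)

/-- the sum of the subspaces isomorphic to `U`. -/
def isoM {K G A : Type} [DivisionRing K] [Group G] [AddCommGroup A] [Module K A]
    [DistribMulAction G A] (N : Subgroup G) (U : Submodule K A) : Submodule K A :=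
  sSup {V | St N V ∧ IsoN N V U}

/-- the ring of operators generated by the scalars and the group elements in `N`. -/
def opR (K : Type) {G A : Type} [DivisionRing K] [Group G] [AddCommGroup A] [Module K A]
    [DistribMulAction G A] (N : Subgroup G) : Subring (AddMonoid.End A) :=
  Subring.closure ({x | ∃ k : K, ∀ a : A, x a = k • a} ∪ {x | ∃ n ∈ N, ∀ a : A, x a = n • a})

/-- `α` is an automorphism of `U` twisting the operators in the same way as `g`. -/
def Cpt {R G A : Type} [Ring R] [Group G] [AddCommGroup A] [Module R A] [DistribMulAction G A]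
    (U : Submodule R A) (g : G) (α : ↥U ≃+ ↥U) : Prop :=
  ∀ r r' : R, (∀ a : A, g • (r • a) = r' • (g • a)) → ∀ x : ↥U, α (r • x) = r' • α x

end Pool.Agent.Helper294.HallM
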