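import Pool.Agent.Helper294.HallM.Defs
import Pool.Agent.Helper294.HX.HCRad

set_option autoImplicit false

namespace Pool.Agent.Helper294.HallM

open Module Pool.Agent.Helper946.HC


theorem fi_step_iter {G A : Type} [Group G] [AddCommGroup A] [DistribMulAction G A] (g : G) (m : ℕ)
    (x : A) : (⇑(ac g : A ≃+ A))^[m] x = g ^ m • x := by
  induction m generalizing x with
  | zero => simp
  | succ m ih =>
    rw [Function.iterate_succ_apply, ih]
    show g ^ m • (g • x) = _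
    rw [smul_smul, pow_succ]

theorem fi_step_pow {G : Type} [Group G] (H : Subgroup G) (h : H.index ≠ 0) (g : G) :
    g ^ (H.index).factorial ∈ H := by
  obtain ⟨n, hn0, hn1, hn2⟩ := Subgroup.exists_pow_mem_of_index_ne_zero h g
  obtain ⟨k, hk⟩ := Nat.dvd_factorial hn0 hn1
  rw [hk, pow_mul]
  exact H.pow_mem hn2 k

theorem fi_step {Q : Type} [Group Q] (Q₁ : Subgroup Q) (hfi : Q₁.index ≠ 0) (h : MainS ↥Q₁) :
    MainS Q := by
  intro K G A _ _ _ _ _ ρ hρ hsys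
  obtain ⟨G₁, hG₁⟩ : ∃ G₁ : Subgroup G, G₁ = Q₁.comap ρ := ⟨_, rfl⟩
  have hidx : G₁.index ≠ 0 := by
    rw [hG₁, Subgroup.index_comap_of_surjective Q₁ hρ]
    exact hfi
  have hmem : ∀ g : ↥G₁, ρ (g : G) ∈ Q₁ := by
    rintro ⟨g, hg⟩
    rw [hG₁] at hg
    exact hg
  let ρ₁ : ↥G₁ →* ↥Q₁ := (ρ.comp G₁.subtype).codRestrict Q₁ hmem
  have hρ₁ : Function.Surjective ρ₁ := by
    intro q
    obtain ⟨g, hg⟩ := hρ q
    have hg1 : g ∈ G₁ := by
      rw [hG₁, Subgroup.mem_comap, hg]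
      exact q.2
    exact ⟨⟨g, hg1⟩, Subtype.ext hg⟩
  have hac : ∀ g : ↥G₁, (ac g : A ≃+ A) = ac (g : G) := fun g => AddEquiv.ext fun x => rfl
  have hsys₁ : Sys K ↥G₁ A ↥Q₁ ρ₁ := by
    refine ⟨?_, ?_, ?_⟩
    · intro g
      rw [hac]
      exact hsys.semi _
    · intro g hg
      have h1 : ρ (g : G) = 1 := congrArg Subtype.val hg
      obtain ⟨c, hc⟩ := hsys.scal _ h1
      exact ⟨c, hc⟩
    · obtain ⟨S, hS⟩ := hsys.fg
      haveI : G₁.FiniteIndex := ⟨hidx⟩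
      haveI : Finite (G ⧸ G₁) := Subgroup.finite_quotient_of_finiteIndex
      have hfin : {a : A | ∃ q : G ⧸ G₁, ∃ s ∈ S, a = (q.out)⁻¹ • s}.Finite := by
        have h1 : {a : A | ∃ q : G ⧸ G₁, ∃ s ∈ S, a = (q.out)⁻¹ • s} =
            ⋃ q : G ⧸ G₁, (fun s => (q.out)⁻¹ • s) '' (S : Set A) := by
          ext a
          simp only [Set.mem_setOf_eq, Set.mem_iUnion, Set.mem_image, Finset.mem_coe]
          constructor
          · rintro ⟨q, s, hs, rfl⟩
            exact ⟨q, s, hs, rfl⟩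
          · rintro ⟨q, s, hs, rfl⟩
            exact ⟨q, s, hs, rfl⟩
        rw [h1]
        exact Set.finite_iUnion fun q => S.finite_toSet.image _
      refine ⟨hfin.toFinset, ?_⟩
      rw [eq_top_iff, ← hS]
      apply Submodule.span_mono
      rintro x ⟨g, s, hs, rfl⟩
      obtain ⟨q, hq⟩ : ∃ q : G ⧸ G₁, q = ((g⁻¹ : G) : G ⧸ G₁) := ⟨_, rfl⟩
      have h2 : (q.out)⁻¹ * g⁻¹ ∈ G₁ := by
        rw [← QuotientGroup.eq]
        rw [← hq]
        exact Quotient.out_eq' q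
      have h3 : g * q.out ∈ G₁ := by
        have := G₁.inv_mem h2
        rwa [mul_inv_rev, inv_inv, inv_inv] at this
      refine ⟨⟨g * q.out, h3⟩, (q.out)⁻¹ • s, ?_, ?_⟩
      · rw [Set.Finite.mem_toFinset]
        exact ⟨q, s, hs, rfl⟩
      · show g • s = (g * q.out) • ((q.out)⁻¹ • s)
        rw [smul_smul]
        congr 1
        group
  obtain ⟨l, d, hld⟩ := h K ↥G₁ A ρ₁ hρ₁ hsys₁
  refine ⟨l, (G₁.index).factorial * d, fun g W hfd hW => ?_⟩
  have hu' : ∀ x, (ac (⟨g ^ (G₁.index).factorial, fi_step_pow G₁ hidx g⟩ : ↥G₁) : A ≃+ A) x =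
      (⇑(ac g : A ≃+ A))^[(G₁.index).factorial] x := by
    intro x
    rw [fi_step_iter]
    rfl
  have hst : Stable (ac (⟨g ^ (G₁.index).factorial, fi_step_pow G₁ hidx g⟩ : ↥G₁) : A ≃+ A) W :=
    stable_pow hW _ hu'
  exact bdd_pow (hsys.semi g) hW (Nat.factorial_pos _) hu' (hld _ W hfd hst)

end Pool.Agent.Helper294.HallM
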