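import Pool.Agent.Helper294.HallM.Defs
import Pool.Agent.Helper294.HX.HCRad

set_option autoImplicit false

namespace Pool.Agent.Helper294.HallM

open Module Pool.Agent.Helper946.HC


theorem ton_ext {K G A A₂ : Type} [DivisionRing K] [Group G] [AddCommGroup A] [Module K A]
    [DistribMulAction G A] [AddCommGroup A₂] [Module K A₂] [DistribMulAction G A₂]
    (hs : ∀ g : G, Semi K (ac g : A ≃+ A)) (hs₂ : ∀ g : G, Semi K (ac g : A₂ ≃+ A₂))
    (B : Submodule K A) (hTB : TOn (⊤ : Subgroup G) B)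
    (π : A →ₗ[K] A₂) (hπ : LinearMap.ker π = B) (heq : ∀ (g : G) (a : A), π (g • a) = g • π a)
    (C : Submodule K A₂) (hC : TOn (⊤ : Subgroup G) C) :
    TOn (⊤ : Subgroup G) (C.comap π) := by
  obtain ⟨l₁, d₁, h₁⟩ := hTB
  obtain ⟨l₂, d₂, h₂⟩ := hC
  refine ⟨l₂ + l₁, max d₁ d₂, ?_⟩
  intro g hg W hWC hfd hW
  have hW' : ∀ x, g • x ∈ W ↔ x ∈ W := hW
  have hB : ∀ x : A, g • x ∈ B ↔ x ∈ B := by
    intro x
    rw [← hπ, LinearMap.mem_ker, LinearMap.mem_ker, heq]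
    constructor
    · intro h
      have := congrArg (fun z => g⁻¹ • z) h
      simpa using this
    · intro h
      rw [h, smul_zero]
  have hW₂C : W.map π ≤ C := Submodule.map_le_iff_le_comap.2 hWC
  have hfd₂ : FiniteDimensional K (W.map π) := inferInstance
  have hst₂ : Stable (ac g : A₂ ≃+ A₂) (W.map π) := by
    intro y
    show g • y ∈ W.map π ↔ y ∈ W.map π
    constructor
    · rintro ⟨x, hx, hxy⟩
      refine ⟨g⁻¹ • x, ?_, ?_⟩
      · rw [SetLike.mem_coe, ← hW' (g⁻¹ • x), smul_inv_smul]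
        exact hx
      · rw [heq, hxy, inv_smul_smul]
    · rintro ⟨x, hx, rfl⟩
      exact ⟨g • x, (hW' x).2 hx, heq g x⟩
  have hb₂ : Bdd (ac g : A₂ ≃+ A₂) l₂ (max d₁ d₂) (W.map π) :=
    bdd_mono le_rfl (le_max_right _ _) le_rfl hst₂ hst₂ (h₂ g hg _ hW₂C hfd₂ hst₂)
  have hfd₁ : FiniteDimensional K (W ⊓ B : Submodule K A) :=
    Submodule.finiteDimensional_of_le inf_le_left
  have hst₁ : Stable (ac g : A ≃+ A) (W ⊓ B) := by
    intro x
    show g • x ∈ W ⊓ B ↔ x ∈ W ⊓ B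
    rw [Submodule.mem_inf, Submodule.mem_inf, hW', hB]
  have hb₁ : Bdd (ac g : A ≃+ A) l₁ (max d₁ d₂) (W ⊓ B) :=
    bdd_mono le_rfl (le_max_left _ _) le_rfl hst₁ hst₁ (h₁ g hg _ inf_le_right hfd₁ hst₁)
  refine bdd_ext (RingEquiv.refl K) π.toAddMonoidHom (hs₂ g) hW ?_ ?_ (W.map π) ?_ l₂ (max d₁ d₂)
    hb₂ (W ⊓ B) ?_ l₁ hb₁
  · intro k x _
    exact π.map_smul k x
  · intro x _
    refine ⟨1, one_ne_zero, ?_⟩
    rw [one_smul]
    exact heq g x
  · intro y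
    exact Submodule.mem_map
  · intro x
    rw [Submodule.mem_inf, ← hπ, LinearMap.mem_ker]
    rfl

end Pool.Agent.Helper294.HallM
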