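import Pool.Agent.Helper294.HallM.Defs
import Pool.Agent.Helper294.HallM.QuotSys
import Pool.Agent.Helper294.HallM.SysNoe
import Pool.Agent.Helper294.HallM.TonExt

set_option autoImplicit false

namespace Pool.Agent.Helper294.HallM

open Module Pool.Agent.Helper946.HC


theorem loc {Q : Type} [Group Q] (hQ : PC Q) (h : LocFor Q) : MainS Q := by
  intro K G A _ _ _ _ _ ρ hρ hS
  have hN := sys_noe hQ hρ hS
  by_contra hT
  have hstep : ∀ B : {B : Submodule K A // St (⊤ : Subgroup G) B ∧ TOn (⊤ : Subgroup G) B},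
      ∃ B' : {B : Submodule K A // St (⊤ : Subgroup G) B ∧ TOn (⊤ : Subgroup G) B},
        B.1 < B'.1 := by
    rintro ⟨B, hB1, hB2⟩
    have hBtop : B ≠ ⊤ := by
      rintro rfl
      apply hT
      obtain ⟨l, d, hld⟩ := hB2
      exact ⟨l, d, fun g W hW hst => hld g (Subgroup.mem_top g) W le_top hW hst⟩
    obtain ⟨A₂, i1, i2, i3, π, hπs, hπk, hπe, hS₂⟩ := quot_sys hS B hB1
    have hnt : Nontrivial A₂ := by
      by_contra hn
      rw [not_nontrivial_iff_subsingleton] at hn
      apply hBtop
      rw [← hπk]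
      rw [eq_top_iff]
      intro x _
      rw [LinearMap.mem_ker]
      exact Subsingleton.elim _ _
    obtain ⟨C, hC0, hC1, hC2⟩ := h K G A₂ ρ hρ hS₂ hnt
    have hT2 := ton_ext hS.semi hS₂.semi B hB2 π hπk hπe C hC2
    refine ⟨⟨C.comap π, ?_, hT2⟩, ?_⟩
    · intro g hg x hx
      rw [Submodule.mem_comap] at hx ⊢
      rw [hπe]
      exact hC1 g hg _ hx
    · refine lt_of_le_of_ne ?_ ?_
      · intro x hx
        change x ∈ C.comap π
        rw [Submodule.mem_comap]
        have : x ∈ LinearMap.ker π := by rw [hπk]; exact hx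
        rw [LinearMap.mem_ker] at this
        rw [this]
        exact C.zero_mem
      · intro he
        apply hC0
        rw [eq_bot_iff]
        intro c hc
        obtain ⟨a, rfl⟩ := hπs c
        have ha : a ∈ C.comap π := by rw [Submodule.mem_comap]; exact hc
        have hab : a ∈ B := by
          have he' : B = C.comap π := he
          rw [he']; exact ha
        rw [← hπk, LinearMap.mem_ker] at hab
        rw [hab]
        exact Submodule.zero_mem _
  choose nx hnx using hstep
  have hbot : St (⊤ : Subgroup G) (⊥ : Submodule K A) ∧ TOn (⊤ : Subgroup G) (⊥ : Submodule K A) := by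
    refine ⟨?_, 0, 0, ?_⟩
    · intro g _ x hx
      rw [Submodule.mem_bot] at hx ⊢
      rw [hx, smul_zero]
    · intro g _ W hW _ _
      change W = ⊥
      exact le_bot_iff.mp hW
  let f : ℕ → {B : Submodule K A // St (⊤ : Subgroup G) B ∧ TOn (⊤ : Subgroup G) B} :=
    fun n => nx^[n] ⟨⊥, hbot⟩
  have hf : ∀ n, (f n).1 < (f (n + 1)).1 := by
    intro n
    have : f (n + 1) = nx (f n) := by
      simp only [f]
      rw [Function.iterate_succ_apply']
    rw [this]
    exact hnx _
  have hmono : StrictMono (fun n => (f n).1) := strictMono_nat_of_lt_succ hf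
  obtain ⟨n, hn⟩ := hN (fun n => (f n).1) hmono.monotone
    (fun n => ⟨le_top, fun g _ x hx => (f n).2.1 g (Subgroup.mem_top g) x hx⟩)
  have h1 := hn (n + 1) (Nat.le_succ n)
  exact absurd h1 (ne_of_gt (hf n))

end Pool.Agent.Helper294.HallM
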