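import Pool.Agent.Helper294.HallM.Defs
import Pool.Agent.Helper294.HX.HCRad

set_option autoImplicit false

namespace Pool.Agent.Helper294.HallM

open Module Pool.Agent.Helper946.HC


theorem ton_map_radstable {K M : Type} [DivisionRing K] [AddCommGroup M] [Module K M]
    (u : M ≃+ M) (d : ℕ) (W : Submodule K M) : Stable u (rad u d W) := by
  intro x
  unfold rad
  rw [Submodule.mem_sInf, Submodule.mem_sInf]
  constructor
  · intro h V hV
    exact (hV.2.1 x).1 (h V hV)
  · intro h V hV
    exact (hV.2.1 x).2 (h V hV)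

theorem ton_map_finrank {K A : Type} [DivisionRing K] [AddCommGroup A] [Module K A]
    (B : Submodule K A) (V : Submodule K ↥B) : finrank K (V.map B.subtype) = finrank K V :=
  (Submodule.equivMapOfInjective B.subtype B.injective_subtype V).symm.finrank_eq

theorem ton_map_stable {K G A : Type} [DivisionRing K] [Group G] [AddCommGroup A] [Module K A]
    [DistribMulAction G A] (B : Submodule K A) [DistribMulAction G ↥B]
    (hc : ∀ (g : G) (x : ↥B), ((g • x : ↥B) : A) = g • (x : A)) (g : G) (V : Submodule K ↥B) :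
    Stable (ac g : A ≃+ A) (V.map B.subtype) ↔ Stable (ac g : ↥B ≃+ ↥B) V := by
  have hmem : ∀ x : ↥B, (x : A) ∈ V.map B.subtype ↔ x ∈ V := by
    intro x
    constructor
    · rintro ⟨y, hy, hyx⟩
      have : y = x := Subtype.ext hyx
      rw [← this]; exact hy
    · intro hx
      exact ⟨x, hx, rfl⟩
  constructor
  · intro h x
    have h1 := h (x : A)
    change g • (x : A) ∈ _ ↔ _ at h1
    rw [← hc, hmem, hmem] at h1
    exact h1
  · intro h a
    change g • a ∈ _ ↔ _
    constructor
    · rintro ⟨y, hy, hya⟩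
      have h1 : a = ((g⁻¹ • y : ↥B) : A) := by
        rw [hc]
        have : (y : A) = g • a := hya
        rw [this, inv_smul_smul]
      rw [h1, hmem]
      have h2 := h (g⁻¹ • y)
      change g • (g⁻¹ • y) ∈ V ↔ _ at h2
      rw [smul_inv_smul] at h2
      exact h2.1 hy
    · rintro ⟨y, hy, hya⟩
      have h1 : g • a = ((g • y : ↥B) : A) := by
        rw [hc]
        have : (y : A) = a := hya
        rw [this]
      rw [h1, hmem]
      exact (h y).2 hy

theorem ton_map_step {K G A : Type} [DivisionRing K] [Group G] [AddCommGroup A] [Module K A]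
    [DistribMulAction G A] (B : Submodule K A) [DistribMulAction G ↥B]
    (hc : ∀ (g : G) (x : ↥B), ((g • x : ↥B) : A) = g • (x : A)) (g : G) (d : ℕ)
    (W : Submodule K ↥B) (hW : Stable (ac g : ↥B ≃+ ↥B) W) :
    rad (ac g : A ≃+ A) d (W.map B.subtype) = (rad (ac g : ↥B ≃+ ↥B) d W).map B.subtype := by
  have hmem : ∀ (V : Submodule K ↥B) (x : ↥B), (x : A) ∈ V.map B.subtype ↔ x ∈ V := by
    intro V x
    constructor
    · rintro ⟨y, hy, hyx⟩
      have : y = x := Subtype.ext hyx
      rw [← this]; exact hy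
    · intro hx
      exact ⟨x, hx, rfl⟩
  ext a
  constructor
  · intro ha
    unfold rad at ha
    rw [Submodule.mem_sInf] at ha
    have h1 : a ∈ W.map B.subtype :=
      ha _ ⟨le_rfl, (ton_map_stable B hc g W).2 hW, Nat.le_add_right _ _⟩
    obtain ⟨x, hx, rfl⟩ := h1
    refine ⟨x, ?_, rfl⟩
    change x ∈ rad (ac g : ↥B ≃+ ↥B) d W
    unfold rad
    rw [Submodule.mem_sInf]
    rintro V ⟨hV1, hV2, hV3⟩
    have h2 := ha (V.map B.subtype) ⟨Submodule.map_mono hV1, (ton_map_stable B hc g V).2 hV2, by
      rw [ton_map_finrank, ton_map_finrank]; exact hV3⟩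
    exact (hmem V x).1 h2
  · rintro ⟨x, hx, rfl⟩
    change x ∈ rad (ac g : ↥B ≃+ ↥B) d W at hx
    unfold rad at hx ⊢
    rw [Submodule.mem_sInf] at hx ⊢
    rintro V ⟨hV1, hV2, hV3⟩
    have hVB : V ≤ B := hV1.trans (Submodule.map_subtype_le B W)
    have hVm : (V.comap B.subtype).map B.subtype = V := by
      rw [Submodule.map_comap_subtype]
      exact inf_eq_right.2 hVB
    have h2 := hx (V.comap B.subtype) ⟨?_, ?_, ?_⟩
    · exact h2
    · intro y hy
      have : (y : A) ∈ W.map B.subtype := hV1 hy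
      exact (hmem W y).1 this
    · rw [← ton_map_stable B hc g, hVm]
      exact hV2
    · rw [← ton_map_finrank B W, ← ton_map_finrank B (V.comap B.subtype), hVm]
      exact hV3

theorem ton_map_iter {K G A : Type} [DivisionRing K] [Group G] [AddCommGroup A] [Module K A]
    [DistribMulAction G A] (B : Submodule K A) [DistribMulAction G ↥B]
    (hc : ∀ (g : G) (x : ↥B), ((g • x : ↥B) : A) = g • (x : A)) (g : G) (d : ℕ) (l : ℕ) :
    ∀ (W : Submodule K ↥B) (_ : Stable (ac g : ↥B ≃+ ↥B) W),
    (rad (ac g : A ≃+ A) d)^[l] (W.map B.subtype) =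
      ((rad (ac g : ↥B ≃+ ↥B) d)^[l] W).map B.subtype := by
  induction l with
  | zero => intro W hW; rfl
  | succ n ih =>
    intro W hW
    rw [Function.iterate_succ_apply, Function.iterate_succ_apply, ton_map_step B hc g d W hW]
    exact ih _ (ton_map_radstable _ _ _)

theorem ton_map {K G A : Type} [DivisionRing K] [Group G] [AddCommGroup A] [Module K A]
    [DistribMulAction G A] (hs : ∀ g : G, Semi K (ac g : A ≃+ A)) (L : Subgroup G)
    (B : Submodule K A) [DistribMulAction G ↥B]
    (hc : ∀ (g : G) (x : ↥B), ((g • x : ↥B) : A) = g • (x : A)) (C : Submodule K ↥B)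
    (hC : TOn L C) : TOn L (C.map B.subtype) := by
  obtain ⟨l, d, h⟩ := hC
  refine ⟨l, d, ?_⟩
  intro g hg W hWC hWfd hWst
  have hWB : W ≤ B := hWC.trans (Submodule.map_subtype_le B C)
  have hWm : (W.comap B.subtype).map B.subtype = W := by
    rw [Submodule.map_comap_subtype]
    exact inf_eq_right.2 hWB
  have h1 : Stable (ac g : ↥B ≃+ ↥B) (W.comap B.subtype) := by
    rw [← ton_map_stable B hc g, hWm]
    exact hWst
  have h2 : W.comap B.subtype ≤ C := by
    intro y hy
    obtain ⟨z, hz, hzy⟩ : (y : A) ∈ C.map B.subtype := hWC hy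
    have : z = y := Subtype.ext hzy
    rw [← this]; exact hz
  have h3 : FiniteDimensional K (W.comap B.subtype) := by
    have h4 : FiniteDimensional K ((W.comap B.subtype).map B.subtype) := by
      rw [hWm]; exact hWfd
    exact Module.Finite.equiv
      (Submodule.equivMapOfInjective B.subtype B.injective_subtype (W.comap B.subtype)).symm
  have h5 := h g hg (W.comap B.subtype) h2 h3 h1
  unfold Bdd at h5 ⊢
  rw [← hWm, ton_map_iter B hc g d l _ h1, h5, Submodule.map_bot]
end Pool.Agent.Helper294.HallM
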