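import Pool.Agent.Helper294.HallM.Defs
import Pool.Agent.Helper294.HX.HCRad

set_option autoImplicit false

namespace Pool.Agent.Helper294.HallM

open Module Pool.Agent.Helper946.HC


section ton_of_main_aux

variable {K A : Type} [DivisionRing K] [AddCommGroup A] [Module K A]

theorem ton_of_main_mem (M : Submodule K A) (V' : Submodule K M) (x : A) :
    x ∈ V'.map M.subtype ↔ ∃ h : x ∈ M, (⟨x, h⟩ : M) ∈ V' := by
  constructor
  · rintro ⟨y, hy, rfl⟩
    exact ⟨y.2, hy⟩
  · rintro ⟨h, hx⟩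
    exact ⟨⟨x, h⟩, hx, rfl⟩

theorem ton_of_main_stable (M : Submodule K A) (u : A ≃+ A) (u' : M ≃+ M)
    (hu : ∀ x : M, ((u' x : M) : A) = u x) (hM' : ∀ x, u x ∈ M ↔ x ∈ M) (V' : Submodule K M) :
    Stable u (V'.map M.subtype) ↔ Stable u' V' := by
  have key : ∀ (x : A) (h : x ∈ M) (h' : u x ∈ M), (⟨u x, h'⟩ : M) = u' ⟨x, h⟩ := by
    intro x h h'
    exact Subtype.ext (hu ⟨x, h⟩).symm
  constructor
  · intro hs x
    have h1 := hs x
    rw [ton_of_main_mem, ton_of_main_mem] at h1
    have h2 : u x ∈ M := (hM' x).2 x.2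
    constructor
    · intro h
      obtain ⟨_, h3⟩ := h1.1 ⟨h2, by rw [key x x.2 h2]; exact h⟩
      exact h3
    · intro h
      obtain ⟨h4, h3⟩ := h1.2 ⟨x.2, h⟩
      rw [key x x.2 h4] at h3
      exact h3
  · intro hs x
    rw [ton_of_main_mem, ton_of_main_mem]
    constructor
    · rintro ⟨h, h1⟩
      have h2 : x ∈ M := (hM' x).1 h
      rw [key x h2 h] at h1
      exact ⟨h2, (hs _).1 h1⟩
    · rintro ⟨h, h1⟩
      have h2 : u x ∈ M := (hM' x).2 h
      exact ⟨h2, by rw [key x h h2]; exact (hs _).2 h1⟩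

theorem ton_of_main_finrank (M : Submodule K A) (V' : Submodule K M) :
    finrank K (V'.map M.subtype) = finrank K V' :=
  (Submodule.equivMapOfInjective M.subtype M.injective_subtype V').symm.finrank_eq

theorem ton_of_main_rad_stable {N : Type} [AddCommGroup N] [Module K N] (u : N ≃+ N) (d : ℕ)
    (W : Submodule K N) : Stable u (rad u d W) := by
  intro x
  unfold rad
  simp only [Submodule.mem_sInf]
  constructor
  · intro h V hV
    exact (hV.2.1 x).1 (h V hV)
  · intro h V hV
    exact (hV.2.1 x).2 (h V hV)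

theorem ton_of_main_rad (M : Submodule K A) (u : A ≃+ A) (u' : M ≃+ M)
    (hu : ∀ x : M, ((u' x : M) : A) = u x) (hM' : ∀ x, u x ∈ M ↔ x ∈ M) (d : ℕ)
    (W' : Submodule K M) (hW' : Stable u' W') :
    rad u d (W'.map M.subtype) = (rad u' d W').map M.subtype := by
  apply le_antisymm
  · intro x hx
    unfold rad at hx
    rw [Submodule.mem_sInf] at hx
    have h1 := hx (W'.map M.subtype) ⟨le_rfl, (ton_of_main_stable M u u' hu hM' W').2 hW', by omega⟩
    rw [ton_of_main_mem] at h1 ⊢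
    obtain ⟨hxM, hxW⟩ := h1
    refine ⟨hxM, ?_⟩
    unfold rad
    rw [Submodule.mem_sInf]
    rintro V' ⟨hV1, hV2, hV3⟩
    have h2 := hx (V'.map M.subtype) ⟨Submodule.map_mono hV1,
      (ton_of_main_stable M u u' hu hM' V').2 hV2, by
        rw [ton_of_main_finrank, ton_of_main_finrank]; exact hV3⟩
    rw [ton_of_main_mem] at h2
    exact h2.2
  · intro x hx
    rw [ton_of_main_mem] at hx
    obtain ⟨hxM, hxW⟩ := hx
    unfold rad at hxW ⊢
    rw [Submodule.mem_sInf] at hxW ⊢
    rintro V ⟨hV1, hV2, hV3⟩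
    have hVM : V ≤ M := hV1.trans (Submodule.map_subtype_le M W')
    have hV : (V.comap M.subtype).map M.subtype = V := by
      rw [Submodule.map_comap_subtype]
      exact inf_eq_right.2 hVM
    have h2 := hxW (V.comap M.subtype) ⟨?_, ?_, ?_⟩
    · exact h2
    · intro y hy
      have h3 := hV1 hy
      rw [ton_of_main_mem] at h3
      exact h3.2
    · rw [← ton_of_main_stable M u u' hu hM', hV]
      exact hV2
    · rw [← ton_of_main_finrank M (V.comap M.subtype), hV, ← ton_of_main_finrank M W']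
      exact hV3

theorem ton_of_main_iter (M : Submodule K A) (u : A ≃+ A) (u' : M ≃+ M)
    (hu : ∀ x : M, ((u' x : M) : A) = u x) (hM' : ∀ x, u x ∈ M ↔ x ∈ M) (d : ℕ)
    (W' : Submodule K M) (hW' : Stable u' W') (n : ℕ) :
    (rad u d)^[n] (W'.map M.subtype) = ((rad u' d)^[n] W').map M.subtype ∧
      Stable u' ((rad u' d)^[n] W') := by
  induction n with
  | zero => exact ⟨rfl, hW'⟩
  | succ n ih =>
    rw [Function.iterate_succ_apply', Function.iterate_succ_apply', ih.1]
    exact ⟨ton_of_main_rad M u u' hu hM' d _ ih.2, ton_of_main_rad_stable u' d _⟩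

end ton_of_main_aux

/-- the restricted action -/
@[reducible] def ton_of_main_act {K G A : Type} [DivisionRing K] [Group G] [AddCommGroup A] [Module K A]
    [DistribMulAction G A] (L : Subgroup G) (M : Submodule K A) (hM : St L M) :
    DistribMulAction ↥L ↥M where
  smul g x := ⟨(g : G) • (x : A), hM g g.2 x x.2⟩
  one_smul x := Subtype.ext (one_smul G (x : A))
  mul_smul g h x := Subtype.ext (mul_smul (g : G) (h : G) (x : A))
  smul_zero g := Subtype.ext (smul_zero (g : G))
  smul_add g x y := Subtype.ext (smul_add (g : G) (x : A) (y : A))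

theorem ton_of_main {K G A Q' : Type} [DivisionRing K] [Group G] [AddCommGroup A] [Module K A]
    [DistribMulAction G A] [Group Q'] (hm : MainFor Q') (hs : ∀ g : G, Semi K (ac g : A ≃+ A))
    (L : Subgroup G) (ρ' : L →* Q')
    (hsc : ∀ g : L, ρ' g = 1 → ∃ c : K, ∀ a : A, (g : G) • a = c • a)
    (M : Submodule K A) (hM : St L M)
    (hfg : ∃ S : Finset A, M = Submodule.span K {x : A | ∃ g ∈ L, ∃ s ∈ S, x = g • s}) :
    TOn L M := by
  classical
  letI inst := ton_of_main_act L M hM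
  have hcoe : ∀ (g : L) (x : M), ((g • x : M) : A) = (g : G) • (x : A) := fun _ _ => rfl
  have hsys : Sys K ↥L ↥M Q' ρ' := by
    refine ⟨?_, ?_, ?_⟩
    · intro g
      obtain ⟨σ, hσ⟩ := hs (g : G)
      exact ⟨σ, fun k x => Subtype.ext (hσ k (x : A))⟩
    · intro g hg
      obtain ⟨c, hc⟩ := hsc g hg
      exact ⟨c, fun a => Subtype.ext (hc (a : A))⟩
    · obtain ⟨S, hS⟩ := hfg
      have hSM : ∀ s ∈ S, s ∈ M := by
        intro s hs'
        rw [hS]
        exact Submodule.subset_span ⟨1, L.one_mem, s, hs', (one_smul G s).symm⟩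
      refine ⟨S.subtype (fun x => x ∈ M), ?_⟩
      apply Submodule.map_injective_of_injective M.injective_subtype
      rw [Submodule.map_span, Submodule.map_subtype_top]
      conv_rhs => rw [hS]
      congr 1
      ext x
      constructor
      · rintro ⟨y, ⟨g, s, hs', rfl⟩, rfl⟩
        exact ⟨g, g.2, s, (Finset.mem_subtype.1 hs'), rfl⟩
      · rintro ⟨g, hg, s, hs', rfl⟩
        exact ⟨(⟨g, hg⟩ : L) • (⟨s, hSM s hs'⟩ : M),
          ⟨⟨g, hg⟩, ⟨s, hSM s hs'⟩, Finset.mem_subtype.2 hs', rfl⟩, rfl⟩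
  obtain ⟨l, d, h⟩ := hm K ↥L ↥M ρ' hsys
  refine ⟨l, d, fun g hg W hWM hfin hst => ?_⟩
  have hu : ∀ x : M, (((ac (⟨g, hg⟩ : L) : M ≃+ M) x : M) : A) = (ac g : A ≃+ A) (x : A) :=
    fun _ => rfl
  have hM' : ∀ x, (ac g : A ≃+ A) x ∈ M ↔ x ∈ M := by
    intro x
    constructor
    · intro hx
      have h1 := hM g⁻¹ (L.inv_mem hg) _ hx
      have h2 : g⁻¹ • (ac g : A ≃+ A) x = x := inv_smul_smul g x
      rwa [h2] at h1
    · intro hx
      exact hM g hg x hx
  have hW : (W.comap M.subtype).map M.subtype = W := by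
    rw [Submodule.map_comap_subtype]
    exact inf_eq_right.2 hWM
  have hst' : Stable (ac (⟨g, hg⟩ : L) : M ≃+ M) (W.comap M.subtype) := by
    rw [← ton_of_main_stable M (ac g) _ hu hM', hW]
    exact hst
  have hfin' : FiniteDimensional K (W.comap M.subtype) :=
    LinearEquiv.finiteDimensional (Submodule.comapSubtypeEquivOfLe hWM).symm
  have h1 := h ⟨g, hg⟩ (W.comap M.subtype) hfin' hst'
  unfold Bdd at h1 ⊢
  have h2 := (ton_of_main_iter M (ac g) _ hu hM' d (W.comap M.subtype) hst' l).1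
  rw [hW, h1, Submodule.map_bot] at h2
  exact h2

end Pool.Agent.Helper294.HallM
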