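import Pool.Agent.Helper294.HallM.Defs
import Pool.Agent.Helper294.HX.HCPoly
import Pool.Agent.Helper294.HallM.BaseFin
import Pool.Agent.Helper294.HallM.Case1
import Pool.Agent.Helper294.HallM.Case2a
import Pool.Agent.Helper294.HallM.Case2b
import Pool.Agent.Helper294.HallM.FgOfNoe
import Pool.Agent.Helper294.HallM.FiStep
import Pool.Agent.Helper294.HallM.GmStable
import Pool.Agent.Helper294.HallM.IndBdd
import Pool.Agent.Helper294.HallM.IndNoe
import Pool.Agent.Helper294.HallM.Loc
import Pool.Agent.Helper294.HallM.MainOfRange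
import Pool.Agent.Helper294.HallM.SubSys
import Pool.Agent.Helper294.HallM.SysNoe
import Pool.Agent.Helper294.HallM.TonMap
import Pool.Agent.Helper294.HallM.TonOfMain
import Pool.Agent.Helper294.HallM.TorsRestrict
import Pool.Agent.Helper294.HallM.TorsSub

set_option autoImplicit false

namespace Pool.Agent.Helper294.HallM

open Module Pool.Agent.Helper946.HC


theorem main_ind_push {K G A Q : Type} [DivisionRing K] [Group G] [AddCommGroup A] [Module K A]
    [DistribMulAction G A] [Group Q] {ρ : G →* Q} (hS : Sys K G A Q ρ)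
    (T : Submodule K A) [DistribMulAction G ↥T]
    (hc : ∀ (g : G) (x : ↥T), ((g • x : ↥T) : A) = g • (x : A)) (B' : Submodule K ↥T)
    (h0 : B' ≠ ⊥) (hst : St (⊤ : Subgroup G) B') (hT : TOn (⊤ : Subgroup G) B') :
    ∃ B : Submodule K A, B ≠ ⊥ ∧ St (⊤ : Subgroup G) B ∧ TOn (⊤ : Subgroup G) B := by
  refine ⟨B'.map T.subtype, ?_, ?_, ton_map hS.semi ⊤ T hc B' hT⟩
  · intro h
    apply h0
    rw [Submodule.eq_bot_iff]
    intro x hx
    have h1 : T.subtype x ∈ B'.map T.subtype := Submodule.mem_map_of_mem hx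
    rw [h, Submodule.mem_bot] at h1
    exact Subtype.ext h1
  · intro g hg x hx
    obtain ⟨y, hy, rfl⟩ := Submodule.mem_map.1 hx
    have h1 := hst g hg y hy
    have h2 := Submodule.mem_map_of_mem (f := T.subtype) h1
    have h3 : T.subtype (g • y) = g • T.subtype y := hc g y
    rw [h3] at h2
    exact h2

theorem main_ind_MS (n : ℕ)
    (IH : ∀ m < n, ∀ (Q : Type) [Group Q], PC Q → HL Q m → MainFor Q)
    (Q : Type) [Group Q] (hPC : PC Q) (hHL : HL Q n) : MainS Q := by
  rcases finite_or_infinite Q with hfin | hinf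
  · intro K G A _ _ _ _ _ ρ _ hS
    exact base_fin K G A ρ hS
  · obtain ⟨Q₁, hind, r, ε, hP⟩ := exists_plinth hPC hinf
    have hPC1 := pc_sub hPC Q₁
    have hHL1 := hl_sub hHL Q₁
    refine fi_step Q₁ hind (loc hPC1 ?_)
    haveI hnorm : (ε.range).Normal := hP.normal
    have hEinf : Infinite ε.range := by
      haveI : Nonempty (Fin r) := ⟨⟨0, hP.pos⟩⟩
      haveI : Infinite (Fin r → ℤ) := inferInstance
      haveI : Infinite (Multiplicative (Fin r → ℤ)) := inferInstance
      exact Infinite.of_injective ε.rangeRestrict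
        (MonoidHom.rangeRestrict_injective_iff.2 hP.inj)
    obtain ⟨m, hm, hHLm⟩ := hl_quot hHL1 ε.range hEinf
    have hmain : MainFor (↥Q₁ ⧸ ε.range) :=
      IH m hm _ (pc_surj hPC1 (QuotientGroup.mk' ε.range) (QuotientGroup.mk'_surjective _)) hHLm
    intro K G A _ _ _ _ _ ρ hρ hS hA
    have hN := sys_noe hPC1 hρ hS
    obtain ⟨T, hT, hTst⟩ := tors_sub hρ hS.semi hS.scal hP.pos ε hP.inj hP.normal
    by_cases hT0 : T = ⊥
    · have hTP : TProp K G A := case1 hρ hS hP.pos ε hP.inj hmain (by
        intro a ha hta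
        apply ha
        have h1 := (hT a).2 hta
        rw [hT0] at h1
        exact (Submodule.mem_bot K).1 h1) hA
      refine ⟨⊤, ?_, ?_, ?_⟩
      · exact top_ne_bot
      · intro g _ x _
        exact Submodule.mem_top
      · obtain ⟨l, d, h⟩ := hTP
        exact ⟨l, d, fun g _ W _ hfd hst => h g W hfd hst⟩
    · obtain ⟨inst, hc, hST⟩ := sub_sys hN hS T hTst
      have hTnt : Nontrivial ↥T := Submodule.nontrivial_iff_ne_bot.2 hT0
      by_cases hex : ∃ W₀ : Submodule K ↥T, W₀ ≠ ⊥ ∧ FiniteDimensional K W₀ ∧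
          St (ε.range.comap ρ) W₀
      · obtain ⟨W₀, h0, hfd, hst⟩ := hex
        obtain ⟨B', hB0, hBst, hBT⟩ := case2a hPC1 hρ hST ε.range hmain W₀ h0 hfd hst
        exact main_ind_push hS T hc B' hB0 hBst hBT
      · have hno : ∀ W : Submodule K ↥T, FiniteDimensional K W →
            St (ε.range.comap ρ) W → W = ⊥ := by
          intro W hfd hst
          by_contra h0
          exact hex ⟨W, h0, hfd, hst⟩
        obtain ⟨L, M, hker, hidx, hM0, hMst, hInd⟩ := case2b hρ hST hP hTnt
          (fun w => tors_restrict ρ ε T hc w ((hT w).1 w.2)) hno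
        obtain ⟨m', hm', hHLm'⟩ := hl_index hHL1 (L.map ρ) hidx
        have hmain' : MainFor ↥(L.map ρ) := IH m' hm' _ (pc_sub hPC1 _) hHLm'
        have hNT := sys_noe hPC1 hρ hST
        have hNL := ind_noe hST.semi L M hMst hInd hNT
        obtain ⟨S, _, hSM⟩ := fg_of_noe hST.semi L M hMst hNL
        have hTOn : TOn L M := ton_of_main hmain' hST.semi L (ρ.subgroupMap L) (by
          intro g hg
          apply hST.scal
          have h1 := congrArg Subtype.val hg
          exact h1) M hMst ⟨S, hSM⟩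
        have h5 := ind_bdd hPC1 hST.semi L hker M hMst hInd hTOn
        obtain ⟨_, h6, h7⟩ := gm_stable hST.semi M
        refine main_ind_push hS T hc _ ?_ h6 h5
        intro h8
        rw [h8] at h7
        exact hM0 (le_bot_iff.1 h7)

theorem main_ind (n : ℕ) : ∀ (Q : Type) [Group Q], PC Q → HL Q n → MainFor Q := by
  induction n using Nat.strong_induction_on with
  | _ n IH =>
    intro Q _ hPC hHL
    apply main_of_range
    intro H
    exact main_ind_MS n IH ↥H (pc_sub hPC H) (hl_sub hHL H)

end Pool.Agent.Helper294.HallM
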