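import Pool.Agent.Helper294.HallM.Defs
import Pool.Agent.Helper294.HX.HCPoly
import Pool.Agent.Helper294.HallM.MainInd

set_option autoImplicit false

namespace Pool.Agent.Helper294.HallM

open Module Pool.Agent.Helper946.HC


theorem main_all (Q : Type) [Group Q] (h : PC Q) : MainFor Q := by
  obtain ⟨n, hn⟩ := hl_exists h
  exact main_ind n Q h hn

end Pool.Agent.Helper294.HallM
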