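import Pool.Agent.Helper294.HallM.Bridge
import Pool.Agent.Helper294.HallM.MainAll
import Pool.Agent.Helper294.HallC.FinS01619
import Pool.Agent.Helper294.HallC.FinS00647
import Pool.Agent.Helper294.HallC.FinS01169
import Pool.Agent.Helper294.HallC.FinS01971
import Pool.Agent.Helper294.HallC.Hyp0Of
import Pool.Agent.Helper294.HallC.HyppOf

set_option autoImplicit false

namespace Pool.Agent.Helper294.HallM

theorem hyp0 : Pool.Agent.Helper294.HallC.Hyp0 :=
  Pool.Agent.Helper294.HallC.hyp0_of fun Q _ h => bridge (main_all Q (pc_bridge h))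

theorem hypp : Pool.Agent.Helper294.HallC.HypP :=
  Pool.Agent.Helper294.HallC.hypp_of fun Q _ h => bridge (main_all Q (pc_bridge h))

end Pool.Agent.Helper294.HallM
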