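import Pool.Agent.Helper294.HallM.Defs

set_option autoImplicit false

namespace Pool.Agent.Helper294.HallM

open Module Pool.Agent.Helper946.HC


theorem main_of_range {Q : Type} [Group Q] (h : ∀ H : Subgroup Q, MainS ↥H) : MainFor Q := by
  intro K G A _ _ _ _ _ ρ hρ
  refine h ρ.range K G A ρ.rangeRestrict ρ.rangeRestrict_surjective ⟨hρ.semi, ?_, hρ.fg⟩
  intro g hg
  apply hρ.scal g
  have := congrArg Subtype.val hg
  simpa using this

end Pool.Agent.Helper294.HallM
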